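import Mathlib
import Pool.Agent.H567.Nec.CircuitDef

set_option autoImplicit false

/-!
# Weakly skew circuits against circuits, with bounded cancellations: definitions
-/

namespace Pool.Agent.H691R2.Skew

open Finset
open scoped NNReal

universe u v

section words

variable {σ : Type v} [Fintype σ]

/-- The sum of `F w` over all words `w` of length `r`. -/
def sumW : ℕ → (List σ → ℝ≥0) → ℝ≥0
  | 0, F => F []
  | r + 1, F => ∑ x, sumW r (fun w => F (x :: w))

end words

section automata

variable {σ : Type v} {Q : Type u} [Fintype Q]

/-- One step of a weighted automaton with transition weights `W`, acting on a column vector. -/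
def step (W : σ → Q → Q → ℝ≥0) (x : σ) (β : Q → ℝ≥0) : Q → ℝ≥0 := fun q => ∑ q', W x q q' * β q'

/-- The action of a word on a column vector. -/
def act (W : σ → Q → Q → ℝ≥0) : List σ → (Q → ℝ≥0) → (Q → ℝ≥0)
  | [], β => β
  | x :: w, β => step W x (act W w β)

end automata

section mass

open Pool.Agent.H567.Nec

variable {K : Type u} {σ : Type v}

/-- The mass of a node of a circuit: the value at the all-ones point of the circuit obtained by
replacing every constant by its norm. It measures coefficients before cancellation. -/
noncomputable def mass [NormedField K] (Φ : Circuit K σ) (i : Fin Φ.N) : ℝ≥0 :=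
  match h : Φ.node i with
  | .var _ => 1
  | .const c => ‖c‖₊
  | .add l r => mass Φ l + mass Φ r
  | .mul l r => mass Φ l * mass Φ r
termination_by i.1
decreasing_by
  · exact Φ.lt i l false (by rw [h]; rfl)
  · exact Φ.lt i r true (by rw [h]; rfl)
  · exact Φ.lt i l false (by rw [h]; rfl)
  · exact Φ.lt i r true (by rw [h]; rfl)

end mass

/-! ### Trees, labellings, letters -/

section tree

/-- Parent of a vertex of the complete binary tree with vertices `1, …, 2 ^ h - 1` (root `1`), to
which the vertex `0` is attached as the parent of the root. -/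
def par {h : ℕ} (g : Fin (2 ^ h)) : Fin (2 ^ h) := ⟨g.1 / 2, lt_of_le_of_lt (Nat.div_le_self _ _) g.2⟩

/-- The groups: the vertices other than `0`. -/
def G (h : ℕ) : Finset (Fin (2 ^ h)) := univ.filter (fun g => g.1 ≠ 0)

/-- The variables: `(j, g, a, b)`, `j` the copy, `g` the group, `a` the label of the parent of `g`,
`b` the label of `g`. -/
abbrev Var (t h m : ℕ) : Type := Fin t × Fin (2 ^ h) × Fin m × Fin m

variable {t h m : ℕ}

/-- The letter of the group `g` of copy `j` under the labelling `ψ`. -/
def letter (j : Fin t) (ψ : Fin (2 ^ h) → Fin m) (g : Fin (2 ^ h)) : Var t h m :=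
  (j, g, ψ (par g), ψ g)

/-- The letters of the groups in `A` of copy `j` under the labelling `ψ`. -/
def lets (j : Fin t) (ψ : Fin (2 ^ h) → Fin m) (A : Finset (Fin (2 ^ h))) : Multiset (Var t h m) :=
  A.val.map (letter j ψ)

/-- The multiset of letters of copy `j` in the word `w`. -/
def cj (j : Fin t) (w : List (Var t h m)) : Multiset (Var t h m) :=
  ((w.filter (fun x => x.1 = j) : List (Var t h m)) : Multiset (Var t h m))

/-- The boundary of a set of groups: the vertices whose label occurs both in a group of `A` and in a
group outside `A`. -/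
def bdry (A : Finset (Fin (2 ^ h))) : Finset (Fin (2 ^ h)) :=
  univ.filter (fun u => (∃ g ∈ A, u = g ∨ u = par g) ∧ (∃ g ∈ G h \ A, u = g ∨ u = par g))

/-- The word `w` can be completed to a reading, for every copy `j ∈ J`, by a prefix whose groups are
`A j` and whose labels on the boundary of `A j` are those of `φ j`. -/
def Cset (J : Finset (Fin t)) (A : Fin t → Finset (Fin (2 ^ h))) (φ : Fin t → Fin (2 ^ h) → Fin m)
    (w : List (Var t h m)) : Prop :=
  ∃ φ' : Fin t → Fin (2 ^ h) → Fin m, (∀ j ∈ J, ∀ u ∈ bdry (A j), φ' j u = φ j u) ∧
    ∀ j ∈ J, cj j w = lets j (φ' j) (G h \ A j)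

/-- The monomial of a labelling. -/
def mon (φ : Fin t → Fin (2 ^ h) → Fin m) : Multiset (Var t h m) :=
  ∑ j, lets j (φ j) (G h)

open MvPolynomial in
/-- The product over `t` disjoint copies of the sum over all labellings. -/
noncomputable def treePoly (K : Type u) [CommSemiring K] (t h m : ℕ) :
    MvPolynomial (Var t h m) K :=
  ∏ j : Fin t, ∑ ψ : Fin (2 ^ h) → Fin m, ∏ g ∈ G h, X (letter j ψ g)

end tree

/-! ### Windows -/

section windows

variable {t h m : ℕ}

/-- The left half of a word. -/
def left {α : Type*} (w : List α) : List α := w.take (w.length / 2)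

/-- The right half of a word. -/
def right {α : Type*} (w : List α) : List α := w.drop (w.length / 2)

/-- Copy `j` is read completely in the word `w`. -/
def Full (j : Fin t) (w : List (Var t h m)) : Prop := ∃ ψ : Fin (2 ^ h) → Fin m, cj j w = lets j ψ (G h)

open Classical in
/-- The copies which are read completely in `w`, partly in the left and partly in the right half. -/
noncomputable def Jset (w : List (Var t h m)) : Finset (Fin t) :=
  univ.filter (fun j => Full j w ∧ cj j (left w) ≠ 0 ∧ cj j (right w) ≠ 0)

/-- The crossing copies of `w` are labelled as in one of the labellings of `Typ`. -/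
def Compat (Typ : Set (Fin t → Fin (2 ^ h) → Fin m)) (w : List (Var t h m)) : Prop :=
  ∃ φ ∈ Typ, ∀ j ∈ Jset w, cj j w = lets j (φ j) (G h)

open Classical in
/-- The weight of a word, at depth `d` of the dyadic subdivision. -/
noncomputable def psi (Typ : Set (Fin t → Fin (2 ^ h) → Fin m)) : ℕ → List (Var t h m) → ℝ≥0
  | 0, w => if Compat Typ w then 2 ^ (Jset w).card else 0
  | d + 1, w => psi Typ d (left w) * psi Typ d (right w)

/-- The number of copies crossing at depth `d` of the dyadic subdivision. -/
noncomputable def E : ℕ → List (Var t h m) → ℕ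
  | 0, w => (Jset w).card
  | d + 1, w => E d (left w) + E d (right w)

end windows

end Pool.Agent.H691R2.Skew
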