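import Mathlib
import Pool.Agent.H691R2.Skew.Defs

set_option autoImplicit false

/-! # Basic facts on sums over words and on the action of words -/

namespace Pool.Agent.H691R2.Skew

open Finset
open scoped NNReal

universe u v

section words

variable {σ : Type v} [Fintype σ]

@[simp] lemma sumW_zero (F : List σ → ℝ≥0) : sumW 0 F = F [] := rfl

lemma sumW_succ (r : ℕ) (F : List σ → ℝ≥0) :
    sumW (r + 1) F = ∑ x, sumW r (fun w => F (x :: w)) := rfl

lemma sumW_mono {r : ℕ} {F F' : List σ → ℝ≥0} (h : ∀ w, w.length = r → F w ≤ F' w) :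
    sumW r F ≤ sumW r F' := by
  induction r generalizing F F' with
  | zero => exact h [] rfl
  | succ r ih =>
    rw [sumW_succ, sumW_succ]
    exact Finset.sum_le_sum (fun x _ => ih (fun w hw => h (x :: w) (by simp [hw])))

lemma sumW_congr {r : ℕ} {F F' : List σ → ℝ≥0} (h : ∀ w, w.length = r → F w = F' w) :
    sumW r F = sumW r F' :=
  le_antisymm (sumW_mono (fun w hw => (h w hw).le)) (sumW_mono (fun w hw => (h w hw).ge))

lemma sumW_add (r : ℕ) (F F' : List σ → ℝ≥0) :
    sumW r (fun w => F w + F' w) = sumW r F + sumW r F' := by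
  induction r generalizing F F' with
  | zero => rfl
  | succ r ih => simp only [sumW_succ, ih, Finset.sum_add_distrib]

@[simp] lemma sumW_const_zero (r : ℕ) : sumW r (fun _ : List σ => (0 : ℝ≥0)) = 0 := by
  induction r with
  | zero => rfl
  | succ r ih => simp only [sumW_succ, ih, Finset.sum_const_zero]

lemma sumW_mul_left (r : ℕ) (c : ℝ≥0) (F : List σ → ℝ≥0) :
    sumW r (fun w => c * F w) = c * sumW r F := by
  induction r generalizing F with
  | zero => rfl
  | succ r ih => simp only [sumW_succ, ih, Finset.mul_sum]

lemma sumW_mul_right (r : ℕ) (c : ℝ≥0) (F : List σ → ℝ≥0) :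
    sumW r (fun w => F w * c) = sumW r F * c := by
  simp only [mul_comm _ c, sumW_mul_left]

lemma sumW_sum {ι : Type*} (s : Finset ι) (r : ℕ) (F : ι → List σ → ℝ≥0) :
    sumW r (fun w => ∑ i ∈ s, F i w) = ∑ i ∈ s, sumW r (F i) := by
  classical
  induction s using Finset.induction_on with
  | empty => simp
  | insert a s ha ih => simp only [Finset.sum_insert ha, sumW_add, ih]

lemma sumW_append (p p' : ℕ) (F : List σ → ℝ≥0) :
    sumW (p + p') F = sumW p (fun u => sumW p' (fun v => F (u ++ v))) := by
  induction p generalizing F with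
  | zero => simp
  | succ p ih =>
    rw [Nat.add_right_comm, sumW_succ, sumW_succ]
    exact Finset.sum_congr rfl (fun x _ => by rw [ih]; rfl)

/-- Sums over words can be computed through an indicator of a subset of words. -/
lemma sumW_ite_le {r : ℕ} (P : List σ → Prop) [DecidablePred P] (F : List σ → ℝ≥0) :
    sumW r (fun w => if P w then F w else 0) ≤ sumW r F :=
  sumW_mono (fun w _ => by split_ifs <;> simp)

/-- Every term is at most the sum. -/
lemma le_sumW {r : ℕ} (F : List σ → ℝ≥0) (w : List σ) (hw : w.length = r) : F w ≤ sumW r F := by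
  induction r generalizing F w with
  | zero =>
    have : w = [] := List.length_eq_zero_iff.mp hw
    rw [this]; exact le_rfl
  | succ r ih =>
    cases w with
    | nil => simp at hw
    | cons x w =>
      have h1 := ih (fun w => F (x :: w)) w (by simpa using hw)
      rw [sumW_succ]
      exact le_trans h1 (Finset.single_le_sum (f := fun x => sumW r (fun w => F (x :: w)))
        (fun _ _ => zero_le) (Finset.mem_univ x))

end words

section automata

variable {σ : Type v} {Q : Type u} [Fintype Q] (W : σ → Q → Q → ℝ≥0)

@[simp] lemma act_nil (β : Q → ℝ≥0) : act W [] β = β := rfl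

@[simp] lemma act_cons (x : σ) (w : List σ) (β : Q → ℝ≥0) :
    act W (x :: w) β = step W x (act W w β) := rfl

lemma act_append (u v : List σ) (β : Q → ℝ≥0) : act W (u ++ v) β = act W u (act W v β) := by
  induction u with
  | nil => rfl
  | cons x u ih => simp only [List.cons_append, act_cons, ih]

lemma step_mono (x : σ) {β β' : Q → ℝ≥0} (h : ∀ q, β q ≤ β' q) (q : Q) :
    step W x β q ≤ step W x β' q :=
  Finset.sum_le_sum (fun q' _ => mul_le_mul_right (h q') _)

lemma act_mono (w : List σ) {β β' : Q → ℝ≥0} (h : ∀ q, β q ≤ β' q) (q : Q) :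
    act W w β q ≤ act W w β' q := by
  induction w generalizing q with
  | nil => exact h q
  | cons x w ih => exact step_mono W x ih q

lemma act_smul (w : List σ) (c : ℝ≥0) (β : Q → ℝ≥0) (q : Q) :
    act W w (fun q => c * β q) q = c * act W w β q := by
  induction w generalizing q with
  | nil => rfl
  | cons x w ih =>
    simp only [act_cons, step, ih, Finset.mul_sum]
    exact Finset.sum_congr rfl (fun q' _ => by ring)

lemma act_add (w : List σ) (β β' : Q → ℝ≥0) (q : Q) :
    act W w (fun q => β q + β' q) q = act W w β q + act W w β' q := by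
  induction w generalizing q with
  | nil => rfl
  | cons x w ih =>
    simp only [act_cons, step, ih, mul_add, Finset.sum_add_distrib]

lemma act_zero (w : List σ) (q : Q) : act W w (fun _ => 0) q = 0 := by
  induction w generalizing q with
  | nil => rfl
  | cons x w ih => simp only [act_cons, step, ih, mul_zero, Finset.sum_const_zero]

lemma act_sum {ι : Type*} (s : Finset ι) (w : List σ) (β : ι → Q → ℝ≥0) (q : Q) :
    act W w (fun q => ∑ i ∈ s, β i q) q = ∑ i ∈ s, act W w (β i) q := by
  classical
  induction s using Finset.induction_on with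
  | empty => simp [act_zero]
  | insert a s ha ih => simp only [Finset.sum_insert ha, act_add, ih]

variable [Fintype σ]

lemma act_sumW (p : ℕ) (u : List σ) (F : List σ → Q → ℝ≥0) (q : Q) :
    act W u (fun q => sumW p (fun v => F v q)) q = sumW p (fun v => act W u (F v) q) := by
  induction p generalizing F with
  | zero => rfl
  | succ p ih =>
    simp only [sumW_succ]
    rw [act_sum]
    exact Finset.sum_congr rfl (fun x _ => ih (fun v => F (x :: v)))

/-- The total weight of the words of length `r`, as a column vector. -/
def tot (r : ℕ) (β : Q → ℝ≥0) : Q → ℝ≥0 := fun q => sumW r (fun w => act W w β q)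

@[simp] lemma tot_zero (β : Q → ℝ≥0) : tot W 0 β = β := rfl

lemma tot_add (p p' : ℕ) (β : Q → ℝ≥0) : tot W (p + p') β = tot W p (tot W p' β) := by
  funext q
  unfold tot
  rw [sumW_append]
  apply sumW_congr
  intro u _
  rw [act_sumW W p' u (fun v => act W v β) q]
  exact sumW_congr (fun v _ => by rw [act_append])

end automata

end Pool.Agent.H691R2.Skew
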