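import Mathlib
import Pool.Agent.H691R2.Skew.Basic

set_option autoImplicit false

/-! # Automata for series: closure properties -/

namespace Pool.Agent.H691R2.Skew

open Finset
open scoped NNReal

universe u v

section conv

variable {σ : Type v}

/-- The (Cauchy) product of two series. -/
def conv (S T : List σ → ℝ≥0) : List σ → ℝ≥0
  | [] => S [] * T []
  | x :: w => S [] * T (x :: w) + conv (fun u => S (x :: u)) T w
termination_by w => w.length

lemma conv_nil (S T : List σ → ℝ≥0) : conv S T [] = S [] * T [] := by rw [conv]

lemma conv_cons (S T : List σ → ℝ≥0) (x : σ) (w : List σ) :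
    conv S T (x :: w) = S [] * T (x :: w) + conv (fun u => S (x :: u)) T w := by rw [conv]

lemma conv_add_left (S S' T : List σ → ℝ≥0) (w : List σ) :
    conv (fun u => S u + S' u) T w = conv S T w + conv S' T w := by
  induction w generalizing S S' with
  | nil => simp only [conv_nil]; ring
  | cons x w ih => simp only [conv_cons, ih]; ring

lemma conv_zero_left (T : List σ → ℝ≥0) (w : List σ) : conv (fun _ => 0) T w = 0 := by
  induction w with
  | nil => simp only [conv_nil, zero_mul]
  | cons x w ih => simp only [conv_cons, ih, zero_mul, add_zero]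

lemma conv_smul_left (c : ℝ≥0) (S T : List σ → ℝ≥0) (w : List σ) :
    conv (fun u => c * S u) T w = c * conv S T w := by
  induction w generalizing S with
  | nil => simp only [conv_nil]; ring
  | cons x w ih => simp only [conv_cons, ih]; ring

lemma conv_sum_left {ι : Type*} (s : Finset ι) (S : ι → List σ → ℝ≥0) (T : List σ → ℝ≥0)
    (w : List σ) : conv (fun u => ∑ i ∈ s, S i u) T w = ∑ i ∈ s, conv (S i) T w := by
  classical
  induction s using Finset.induction_on with
  | empty => simp [conv_zero_left]
  | insert a s ha ih => simp only [Finset.sum_insert ha, conv_add_left, ih]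

variable [Fintype σ] {R : Type*} [CommSemiring R] [Algebra ℝ≥0 R]

/-- The commutative image of the part of degree `r` of a series. -/
noncomputable def Pg (X : σ → R) : ℕ → (List σ → ℝ≥0) → R
  | 0, S => algebraMap ℝ≥0 R (S [])
  | r + 1, S => ∑ x, X x * Pg X r (fun w => S (x :: w))

lemma Pg_add (X : σ → R) (r : ℕ) (S S' : List σ → ℝ≥0) :
    Pg X r (fun w => S w + S' w) = Pg X r S + Pg X r S' := by
  induction r generalizing S S' with
  | zero => simp only [Pg, map_add]
  | succ r ih => simp only [Pg, ih, mul_add, Finset.sum_add_distrib]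

lemma Pg_smul (X : σ → R) (r : ℕ) (c : ℝ≥0) (S : List σ → ℝ≥0) :
    Pg X r (fun w => c * S w) = algebraMap ℝ≥0 R c * Pg X r S := by
  induction r generalizing S with
  | zero => simp only [Pg, map_mul]
  | succ r ih =>
    simp only [Pg, ih, Finset.mul_sum]
    exact Finset.sum_congr rfl (fun x _ => by ring)

lemma Pg_conv (X : σ → R) (r : ℕ) (S T : List σ → ℝ≥0) :
    Pg X r (conv S T) = ∑ p ∈ HasAntidiagonal.antidiagonal r, Pg X p.1 S * Pg X p.2 T := by
  induction r generalizing S with
  | zero => rw [Finset.Nat.antidiagonal_zero, Finset.sum_singleton]; simp only [Pg, conv_nil, map_mul]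
  | succ r ih =>
    rw [Finset.Nat.sum_antidiagonal_succ]
    simp only [Pg, conv_cons]
    have h1 : ∀ x, Pg X r (fun w => S [] * T (x :: w) + conv (fun u => S (x :: u)) T w) =
        algebraMap ℝ≥0 R (S []) * Pg X r (fun w => T (x :: w)) +
        ∑ p ∈ HasAntidiagonal.antidiagonal r, Pg X p.1 (fun u => S (x :: u)) * Pg X p.2 T := by
      intro x
      rw [Pg_add, Pg_smul]
      congr 1
      exact ih _
    simp only [h1, mul_add, Finset.sum_add_distrib, Finset.mul_sum, Finset.sum_mul]
    congr 1
    · exact Finset.sum_congr rfl (fun x _ => by ring)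
    · rw [Finset.sum_comm]
      exact Finset.sum_congr rfl (fun p _ => Finset.sum_congr rfl (fun x _ => by ring))

lemma Pg_one (r : ℕ) (S : List σ → ℝ≥0) : Pg (fun _ => (1 : ℝ≥0)) r S = sumW r S := by
  induction r generalizing S with
  | zero => rfl
  | succ r ih => simp only [Pg, ih, one_mul, sumW_succ]

lemma sumW_conv (r : ℕ) (S T : List σ → ℝ≥0) :
    sumW r (conv S T) = ∑ p ∈ HasAntidiagonal.antidiagonal r, sumW p.1 S * sumW p.2 T := by
  simp only [← Pg_one, Pg_conv]

open Classical in
lemma coeff_Pg (r : ℕ) (S : List σ → ℝ≥0) (μ : Multiset σ) :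
    (Pg (fun x => (MvPolynomial.X x : MvPolynomial σ ℝ≥0)) r S).coeff (Multiset.toFinsupp μ) =
      sumW r (fun w => if (w : Multiset σ) = μ then S w else 0) := by
  induction r generalizing S μ with
  | zero =>
    simp only [Pg, sumW_zero, MvPolynomial.algebraMap_eq, MvPolynomial.coeff_C]
    have : (0 = Multiset.toFinsupp μ) ↔ (((([] : List σ)) : Multiset σ) = μ) := by
      rw [eq_comm, Multiset.toFinsupp_eq_iff]
      simp [eq_comm]
    simp only [this]
  | succ r ih =>
    simp only [Pg, sumW_succ, MvPolynomial.coeff_sum]
    apply Finset.sum_congr rfl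
    intro x _
    rw [MvPolynomial.coeff_X_mul']
    by_cases hx : x ∈ μ
    · have h1 : x ∈ (Multiset.toFinsupp μ).support := by
        rw [Multiset.toFinsupp_support]; simpa using hx
      rw [if_pos h1]
      obtain ⟨μ', rfl⟩ := Multiset.exists_cons_of_mem hx
      have h2 : Multiset.toFinsupp (x ::ₘ μ') - Finsupp.single x 1 = Multiset.toFinsupp μ' := by
        rw [← Multiset.singleton_add, map_add, Multiset.toFinsupp_singleton, add_tsub_cancel_left]
      rw [h2, ih]
      apply sumW_congr
      intro w _
      have h3 : ((x :: w : List σ) : Multiset σ) = x ::ₘ μ' ↔ (w : Multiset σ) = μ' := by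
        rw [← Multiset.cons_coe, Multiset.cons_inj_right]
      simp only [h3]
    · have h1 : x ∉ (Multiset.toFinsupp μ).support := by
        rw [Multiset.toFinsupp_support]; simpa using hx
      rw [if_neg h1]
      symm
      refine (sumW_congr (F' := fun _ => 0) ?_).trans (sumW_const_zero r)
      intro w _
      rw [if_neg]
      intro hw
      apply hx
      rw [← hw]
      simp

end conv

section aut

variable {σ : Type v}

/-- A set of series recognised by a common weighted automaton with at most `e` states besides the
initial state. -/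
def Aut (e : ℕ) (F : Set (List σ → ℝ≥0)) : Prop :=
  ∃ (ι : Type) (_ : Fintype ι) (a : σ → ι → ℝ≥0) (W : σ → ι → ι → ℝ≥0), Fintype.card ι ≤ e ∧
    ∀ S ∈ F, ∃ b : ι → ℝ≥0, ∀ x w, S (x :: w) = ∑ i, a x i * act W w b i

lemma Aut.mono {e : ℕ} {F F' : Set (List σ → ℝ≥0)} (h : Aut e F) (hF : F' ⊆ F) : Aut e F' := by
  obtain ⟨ι, hι, a, W, h1, h2⟩ := h
  exact ⟨ι, hι, a, W, h1, fun f hf => h2 f (hF hf)⟩

lemma Aut.le_of_le {e e' : ℕ} {F : Set (List σ → ℝ≥0)} (he : e ≤ e') (h : Aut e F) : Aut e' F := by
  obtain ⟨ι, hι, a, W, h1, h2⟩ := h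
  exact ⟨ι, hι, a, W, le_trans h1 he, h2⟩

lemma aut_empty : Aut 0 (∅ : Set (List σ → ℝ≥0)) :=
  ⟨Empty, inferInstance, fun _ i => i.elim, fun _ i => i.elim, by simp, by simp⟩

lemma Aut.const {e : ℕ} {F : Set (List σ → ℝ≥0)} (h : Aut e F) (S : List σ → ℝ≥0)
    (hS : ∀ x w, S (x :: w) = 0) : Aut e (insert S F) := by
  obtain ⟨ι, hι, a, W, h1, h2⟩ := h
  refine ⟨ι, hι, a, W, h1, ?_⟩
  intro T hT
  rcases hT with rfl | hT
  · refine ⟨fun _ => 0, fun x w => ?_⟩
    rw [hS]
    simp only [act_zero, mul_zero, Finset.sum_const_zero]
  · exact h2 T hT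

lemma Aut.add {e : ℕ} {F : Set (List σ → ℝ≥0)} (h : Aut e F) {S S' : List σ → ℝ≥0} (hS : S ∈ F)
    (hS' : S' ∈ F) (T : List σ → ℝ≥0) (hT : ∀ w, T w = S w + S' w) : Aut e (insert T F) := by
  obtain ⟨ι, hι, a, W, h1, h2⟩ := h
  refine ⟨ι, hι, a, W, h1, ?_⟩
  intro T' hT'
  rcases hT' with rfl | hT'
  · obtain ⟨b, hb⟩ := h2 S hS
    obtain ⟨b', hb'⟩ := h2 S' hS'
    refine ⟨fun i => b i + b' i, fun x w => ?_⟩
    rw [hT, hb, hb']
    simp only [act_add, mul_add, Finset.sum_add_distrib]
  · exact h2 T' hT'

open Classical in
lemma Aut.var {e : ℕ} {F : Set (List σ → ℝ≥0)} (h : Aut e F) (v : σ) (S : List σ → ℝ≥0)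
    (hS : ∀ w, S w = if w = [v] then 1 else 0) : Aut (e + 1) (insert S F) := by
  obtain ⟨ι, hι, a, W, h1, h2⟩ := h
  refine ⟨Option ι, inferInstance, fun x o => o.elim (if x = v then 1 else 0) (a x),
    fun x o o' => o.elim 0 (fun i => o'.elim 0 (fun j => W x i j)), ?_, ?_⟩
  · rw [Fintype.card_option]; omega
  · intro T hT
    rcases hT with rfl | hT
    · refine ⟨fun o => o.elim 1 (fun _ => 0), fun x w => ?_⟩
      have key : ∀ w : List σ, ∀ i, act (fun x o o' => (o : Option ι).elim 0
          (fun i => (o' : Option ι).elim 0 (fun j => W x i j))) w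
          (fun o => (o : Option ι).elim 1 (fun _ => 0)) (some i) = 0 := by
        intro w
        induction w with
        | nil => intro i; rfl
        | cons y w ih =>
          intro i
          simp only [act_cons, step, Option.elim_none, Option.elim_some, Fintype.sum_option, zero_mul,
            zero_add]
          apply Finset.sum_eq_zero
          intro j _
          rw [ih, mul_zero]
      rw [Fintype.sum_option]
      simp only [Option.elim_none, Option.elim_some, key, mul_zero, Finset.sum_const_zero, add_zero]
      rw [hS]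
      cases w with
      | nil => simp
      | cons y w => simp [step]
    · obtain ⟨b, hb⟩ := h2 T hT
      refine ⟨fun o => o.elim 0 b, fun x w => ?_⟩
      have key : ∀ w : List σ, ∀ i, act (fun x o o' => (o : Option ι).elim 0
          (fun i => (o' : Option ι).elim 0 (fun j => W x i j))) w
          (fun o => (o : Option ι).elim 0 b) (some i) = act W w b i := by
        intro w
        induction w with
        | nil => intro i; rfl
        | cons y w ih =>
          intro i
          simp only [act_cons, step, Option.elim_none, Option.elim_some, Fintype.sum_option, zero_mul,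
            zero_add]
          exact Finset.sum_congr rfl (fun j _ => by rw [ih])
      have key0 : act (fun x o o' => (o : Option ι).elim 0
          (fun i => (o' : Option ι).elim 0 (fun j => W x i j))) w
          (fun o => (o : Option ι).elim 0 b) none = 0 := by
        cases w with
        | nil => rfl
        | cons y w => simp [step]
      rw [Fintype.sum_option, key0, mul_zero, zero_add, hb]
      exact Finset.sum_congr rfl (fun i _ => by rw [key]; rfl)

lemma Aut.mul {e e' : ℕ} {F F' : Set (List σ → ℝ≥0)} (h : Aut e F) (h' : Aut e' F')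
    {S T : List σ → ℝ≥0} (hS : S ∈ F) (hT : T ∈ F') (U : List σ → ℝ≥0)
    (hU : ∀ w, U w = conv S T w) : Aut (e + e') (insert U F) := by
  obtain ⟨ι, hι, a, W, h1, h2⟩ := h
  obtain ⟨ι', hι', a', W', h1', h2'⟩ := h'
  obtain ⟨b, hb⟩ := h2 S hS
  obtain ⟨b', hb'⟩ := h2' T hT
  set W₂ : σ → ι ⊕ ι' → ι ⊕ ι' → ℝ≥0 := fun x => Sum.elim
    (fun i => Sum.elim (fun i' => W x i i') (fun j => b i * a' x j))
    (fun j => Sum.elim (fun _ => 0) (fun j' => W' x j j')) with hW₂
  refine ⟨ι ⊕ ι', inferInstance, fun x => Sum.elim (a x) (fun j => S [] * a' x j), W₂, ?_, ?_⟩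
  · rw [Fintype.card_sum]; omega
  · intro V hV
    rcases hV with rfl | hV
    · refine ⟨Sum.elim (fun i => b i * T []) b', fun x w => ?_⟩
      have keyr : ∀ w : List σ, ∀ j, act W₂ w (Sum.elim (fun i => b i * T []) b') (Sum.inr j) =
          act W' w b' j := by
        intro w
        induction w with
        | nil => intro j; rfl
        | cons y w ih =>
          intro j
          simp only [act_cons, step, hW₂, Fintype.sum_sum_type, Sum.elim_inl, Sum.elim_inr,
            zero_mul, Finset.sum_const_zero, zero_add]
          exact Finset.sum_congr rfl (fun j' _ => by rw [← ih])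
      have keyl : ∀ w : List σ, ∀ i, act W₂ w (Sum.elim (fun i => b i * T []) b') (Sum.inl i) =
          conv (fun u => act W u b i) T w := by
        intro w
        induction w with
        | nil => intro i; rw [conv_nil]; rfl
        | cons y w ih =>
          intro i
          have e1 : (fun u => act W (y :: u) b i) = fun u => ∑ i', W y i i' * act W u b i' := by
            funext u; rfl
          rw [conv_cons, e1, conv_sum_left, hb']
          simp only [act_cons, step, Fintype.sum_sum_type, conv_smul_left, act_nil]
          rw [add_comm]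
          congr 1
          · rw [Finset.mul_sum]
            refine Finset.sum_congr rfl (fun j _ => ?_)
            rw [keyr]
            simp only [hW₂, Sum.elim_inl, Sum.elim_inr]
            ring
          · refine Finset.sum_congr rfl (fun i' _ => ?_)
            rw [ih]
            simp only [hW₂, Sum.elim_inl]
      have e1 : (fun u => S (x :: u)) = fun u => ∑ i, a x i * act W u b i := by
        funext u; exact hb x u
      rw [hU, conv_cons, e1, conv_sum_left, hb', Fintype.sum_sum_type]
      simp only [keyr, keyl, Sum.elim_inl, Sum.elim_inr, conv_smul_left]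
      rw [add_comm, Finset.mul_sum]
      congr 1
      exact Finset.sum_congr rfl (fun j _ => by ring)
    · obtain ⟨c, hc⟩ := h2 V hV
      refine ⟨Sum.elim c (fun _ => 0), fun x w => ?_⟩
      have keyr : ∀ w : List σ, ∀ j, act W₂ w (Sum.elim c (fun _ => 0)) (Sum.inr j) = 0 := by
        intro w
        induction w with
        | nil => intro j; rfl
        | cons y w ih =>
          intro j
          simp only [act_cons, step, hW₂, Fintype.sum_sum_type, Sum.elim_inl, Sum.elim_inr,
            zero_mul, Finset.sum_const_zero, zero_add]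
          apply Finset.sum_eq_zero
          intro j' _
          have := ih j'
          simp only [hW₂] at this
          rw [this, mul_zero]
      have keyl : ∀ w : List σ, ∀ i, act W₂ w (Sum.elim c (fun _ => 0)) (Sum.inl i) =
          act W w c i := by
        intro w
        induction w with
        | nil => intro i; rfl
        | cons y w ih =>
          intro i
          simp only [act_cons, step, Fintype.sum_sum_type, keyr, mul_zero, Finset.sum_const_zero,
            add_zero]
          refine Finset.sum_congr rfl (fun i' _ => ?_)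
          rw [ih]
          simp only [hW₂, Sum.elim_inl]
      rw [hc, Fintype.sum_sum_type]
      simp only [keyr, keyl, Sum.elim_inl, mul_zero, Finset.sum_const_zero, add_zero]

end aut

end Pool.Agent.H691R2.Skew
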