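import Mathlib
import Pool.Agent.H691R2.Skew.A1
import Pool.Agent.H567.Nec.Skew

set_option autoImplicit false
set_option linter.unusedSectionVars false

/-! # From weakly skew circuits to automata -/

namespace Pool.Agent.H691R2.Skew

open Finset
open scoped NNReal
open Pool.Agent.H567.Nec
open Pool.Agent.H567.Nec.Circuit

universe u v

section massLemmas

variable {K : Type u} {σ : Type v} [NormedField K] (Φ : Circuit K σ)

lemma mass_var {i : Fin Φ.N} {v : σ} (h : Φ.node i = Node.var v) : mass Φ i = 1 := by
  rw [mass]
  split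
  · rfl
  all_goals (rename_i h'; rw [h] at h'; cases h')

lemma mass_const {i : Fin Φ.N} {c : K} (h : Φ.node i = Node.const c) : mass Φ i = ‖c‖₊ := by
  rw [mass]
  split
  · rename_i h'; rw [h] at h'; cases h'
  · rename_i h'; rw [h] at h'; injection h' with h'; rw [h']
  all_goals (rename_i h'; rw [h] at h'; cases h')

lemma mass_add {i l r : Fin Φ.N} (h : Φ.node i = Node.add l r) :
    mass Φ i = mass Φ l + mass Φ r := by
  rw [mass]
  split
  · rename_i h'; rw [h] at h'; cases h'
  · rename_i h'; rw [h] at h'; cases h'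
  · rename_i h'; rw [h] at h'; injection h' with h1 h2; rw [h1, h2]
  all_goals (rename_i h'; rw [h] at h'; cases h')

lemma mass_mul {i l r : Fin Φ.N} (h : Φ.node i = Node.mul l r) :
    mass Φ i = mass Φ l * mass Φ r := by
  rw [mass]
  split
  · rename_i h'; rw [h] at h'; cases h'
  · rename_i h'; rw [h] at h'; cases h'
  · rename_i h'; rw [h] at h'; cases h'
  · rename_i h'; rw [h] at h'; injection h' with h1 h2; rw [h1, h2]

end massLemmas

section ser

variable {K : Type u} {σ : Type v} [NormedField K] {Φ : Circuit K σ}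

open Classical in
/-- The noncommutative series of absolute values of a node; the closed argument of a multiplication
gate is the right factor. -/
noncomputable def ser (χ : Φ.Choice) (i : Fin Φ.N) : List σ → ℝ≥0 :=
  match h : Φ.node i with
  | .var v => fun w => if w = [v] then 1 else 0
  | .const c => fun w => if w = [] then ‖c‖₊ else 0
  | .add l r => fun w => ser χ l w + ser χ r w
  | .mul l r => if χ.side i = false then conv (ser χ r) (ser χ l) else conv (ser χ l) (ser χ r)
termination_by i.1
decreasing_by
  · exact Φ.lt i l false (by rw [h]; rfl)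
  · exact Φ.lt i r true (by rw [h]; rfl)
  · exact Φ.lt i r true (by rw [h]; rfl)
  · exact Φ.lt i l false (by rw [h]; rfl)
  · exact Φ.lt i l false (by rw [h]; rfl)
  · exact Φ.lt i r true (by rw [h]; rfl)

open Classical in
lemma ser_var (χ : Φ.Choice) {i : Fin Φ.N} {v : σ} (h : Φ.node i = Node.var v) :
    ser χ i = fun w => if w = [v] then 1 else 0 := by
  rw [ser]
  split
  · rename_i h'; rw [h] at h'; injection h' with h'; rw [h']
  all_goals (rename_i h'; rw [h] at h'; cases h')

open Classical in
lemma ser_const (χ : Φ.Choice) {i : Fin Φ.N} {c : K} (h : Φ.node i = Node.const c) :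
    ser χ i = fun w => if w = [] then ‖c‖₊ else 0 := by
  rw [ser]
  split
  · rename_i h'; rw [h] at h'; cases h'
  · rename_i h'; rw [h] at h'; injection h' with h'; rw [h']
  all_goals (rename_i h'; rw [h] at h'; cases h')

lemma ser_add (χ : Φ.Choice) {i l r : Fin Φ.N} (h : Φ.node i = Node.add l r) :
    ser χ i = fun w => ser χ l w + ser χ r w := by
  rw [ser]
  split
  · rename_i h'; rw [h] at h'; cases h'
  · rename_i h'; rw [h] at h'; cases h'
  · rename_i h'; rw [h] at h'; injection h' with h1 h2; rw [h1, h2]
  all_goals (rename_i h'; rw [h] at h'; cases h')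

lemma ser_mul (χ : Φ.Choice) {i l r : Fin Φ.N} (h : Φ.node i = Node.mul l r) :
    ∃ u o : Fin Φ.N, (Φ.node i).arg (χ.side i) = some u ∧
      (Φ.node i).arg (!(χ.side i)) = some o ∧ ser χ i = conv (ser χ o) (ser χ u) ∧
      Φ.value i = Φ.value o * Φ.value u ∧ mass Φ i = mass Φ o * mass Φ u := by
  have hs : ser χ i = if χ.side i = false then conv (ser χ r) (ser χ l)
      else conv (ser χ l) (ser χ r) := by
    rw [ser]
    split
    · rename_i h'; rw [h] at h'; cases h'
    · rename_i h'; rw [h] at h'; cases h'
    · rename_i h'; rw [h] at h'; cases h'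
    · rename_i h'; rw [h] at h'; injection h' with h1 h2; rw [h1, h2]
  cases hside : χ.side i with
  | false =>
    refine ⟨l, r, by rw [h]; rfl, by rw [h]; rfl, ?_, ?_, ?_⟩
    · rw [hs, hside, if_pos rfl]
    · rw [value_mul Φ h, mul_comm]
    · rw [mass_mul Φ h, mul_comm]
  | true =>
    refine ⟨r, l, by rw [h]; rfl, by rw [h]; rfl, ?_, ?_, ?_⟩
    · rw [hs, hside, if_neg (by simp)]
    · rw [value_mul Φ h]
    · rw [mass_mul Φ h]

open Classical in
lemma aut_sub (χ : Φ.Choice) (r : Fin Φ.N) :
    Aut (univ.filter (fun a => Φ.Sub r a ∧ ∃ v, Φ.node a = Node.var v)).card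
      {f | ∃ a, Reu χ r a ∧ f = ser χ a} := by
  induction r using WellFoundedLT.induction with
  | ind r ihr =>
  -- process the nodes in order
  have key : ∀ n : ℕ, n ≤ Φ.N →
      Aut (univ.filter (fun a => ((a.1 < n ∧ Reu χ r a) ∨ ∃ g : Fin Φ.N, g.1 < n ∧ Reu χ r g ∧
        InC χ g a) ∧ ∃ v, Φ.node a = Node.var v)).card
        {f | ∃ a : Fin Φ.N, a.1 < n ∧ Reu χ r a ∧ f = ser χ a} := by
    intro n
    induction n with
    | zero =>
      intro _
      have e1 : {f | ∃ a : Fin Φ.N, a.1 < 0 ∧ Reu χ r a ∧ f = ser χ a} =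
          (∅ : Set (List σ → ℝ≥0)) := by
        ext f; simp
      have e2 : (univ.filter (fun a : Fin Φ.N => ((a.1 < 0 ∧ Reu χ r a) ∨ ∃ g : Fin Φ.N, g.1 < 0 ∧
          Reu χ r g ∧ InC χ g a) ∧ ∃ v, Φ.node a = Node.var v)) = ∅ := by
        ext f; simp
      rw [e1, e2]
      exact aut_empty
    | succ n ihn =>
      intro hn
      have ih := ihn (by omega)
      set k : Fin Φ.N := ⟨n, by omega⟩ with hk
      have hlt : ∀ a : Fin Φ.N, a.1 < n + 1 ↔ a.1 < n ∨ a = k := by
        intro a
        constructor
        · intro h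
          rcases Nat.lt_succ_iff_lt_or_eq.mp h with h | h
          · exact Or.inl h
          · exact Or.inr (Fin.ext h)
        · rintro (h | h)
          · omega
          · rw [h]; simp [hk]
      by_cases hR : Reu χ r k
      · -- `k` is reusable
        have hF : {f | ∃ a : Fin Φ.N, a.1 < n + 1 ∧ Reu χ r a ∧ f = ser χ a} =
            insert (ser χ k) {f | ∃ a : Fin Φ.N, a.1 < n ∧ Reu χ r a ∧ f = ser χ a} := by
          ext f
          constructor
          · rintro ⟨a, ha, hra, rfl⟩
            rcases (hlt a).mp ha with h | h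
            · exact Or.inr ⟨a, h, hra, rfl⟩
            · rw [h]; exact Or.inl rfl
          · rintro (rfl | ⟨a, ha, hra, rfl⟩)
            · exact ⟨k, (hlt k).mpr (Or.inr rfl), hR, rfl⟩
            · exact ⟨a, by omega, hra, rfl⟩
        rw [hF]
        -- membership of reusable arguments
        have harg : ∀ (q : Bool) (a : Fin Φ.N), (Φ.node k).arg q = some a →
            ¬ ((∃ l r', Φ.node k = Node.mul l r') ∧ q = χ.side k) →
            ser χ a ∈ {f | ∃ a : Fin Φ.N, a.1 < n ∧ Reu χ r a ∧ f = ser χ a} := by
          intro q a ha hq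
          refine ⟨a, ?_, hR.arg ha hq, rfl⟩
          have := Φ.lt _ _ _ ha
          exact this
        -- the new set of sources contains the old one
        have hsub : (univ.filter (fun a : Fin Φ.N => ((a.1 < n ∧ Reu χ r a) ∨ ∃ g : Fin Φ.N,
            g.1 < n ∧ Reu χ r g ∧ InC χ g a) ∧ ∃ v, Φ.node a = Node.var v)) ⊆
            (univ.filter (fun a : Fin Φ.N => ((a.1 < n + 1 ∧ Reu χ r a) ∨ ∃ g : Fin Φ.N,
            g.1 < n + 1 ∧ Reu χ r g ∧ InC χ g a) ∧ ∃ v, Φ.node a = Node.var v)) := by
          intro a ha
          simp only [mem_filter, mem_univ, true_and] at ha ⊢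
          refine ⟨?_, ha.2⟩
          rcases ha.1 with h | ⟨g, h1, h2, h3⟩
          · exact Or.inl ⟨by omega, h.2⟩
          · exact Or.inr ⟨g, by omega, h2, h3⟩
        cases hnode : Φ.node k with
        | var v =>
          have h1 := ih.var v (ser χ k) (by
            intro w
            rw [ser_var χ hnode])
          refine Aut.le_of_le ?_ h1
          have : insert k (univ.filter (fun a : Fin Φ.N => ((a.1 < n ∧ Reu χ r a) ∨ ∃ g : Fin Φ.N,
            g.1 < n ∧ Reu χ r g ∧ InC χ g a) ∧ ∃ v, Φ.node a = Node.var v)) ⊆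
            (univ.filter (fun a : Fin Φ.N => ((a.1 < n + 1 ∧ Reu χ r a) ∨ ∃ g : Fin Φ.N,
            g.1 < n + 1 ∧ Reu χ r g ∧ InC χ g a) ∧ ∃ v, Φ.node a = Node.var v)) := by
            intro a ha
            rcases Finset.mem_insert.mp ha with rfl | ha
            · simp only [mem_filter, mem_univ, true_and]
              exact ⟨Or.inl ⟨by simp [hk], hR⟩, v, hnode⟩
            · exact hsub ha
          have h2 := Finset.card_le_card this
          rwa [Finset.card_insert_of_notMem] at h2
          simp only [mem_filter, mem_univ, true_and, not_and]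
          rintro (h | ⟨g, _, h2, h3⟩) _
          · simp [hk] at h
          · exact hR.2 g h2.1 h3
        | const c =>
          refine Aut.le_of_le (Finset.card_le_card hsub) (ih.const (ser χ k) ?_)
          intro x w
          rw [ser_const χ hnode]
          simp
        | add l r' =>
          refine Aut.le_of_le (Finset.card_le_card hsub) (ih.add
            (harg false l (by rw [hnode]; rfl) (by rw [hnode]; rintro ⟨⟨_, _, h⟩, _⟩; cases h))
            (harg true r' (by rw [hnode]; rfl) (by rw [hnode]; rintro ⟨⟨_, _, h⟩, _⟩; cases h))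
            (ser χ k) ?_)
          intro w
          rw [ser_add χ hnode]
        | mul l r' =>
          -- closed argument `u`, other argument `o`
          obtain ⟨u, o, hu, ho, hval, -, -⟩ := ser_mul χ hnode
          have huk : u < k := Φ.lt _ _ _ hu
          have hkr : k ≤ r := hR.1.le
          have h1 := ihr u (lt_of_lt_of_le huk hkr)
          have h2 := ih.mul h1
            (harg _ o ho (by rintro ⟨_, h⟩; cases hs : χ.side k <;> simp [hs] at h))
            ⟨u, Reu.self χ u, rfl⟩ (ser χ k) (by
              intro w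
              rw [hval])
          refine Aut.le_of_le ?_ h2
          have hmul : ∃ l r', Φ.node k = Node.mul l r' := ⟨l, r', hnode⟩
          have hdis : Disjoint (univ.filter (fun a : Fin Φ.N => ((a.1 < n ∧ Reu χ r a) ∨
              ∃ g : Fin Φ.N, g.1 < n ∧ Reu χ r g ∧ InC χ g a) ∧ ∃ v, Φ.node a = Node.var v))
              (univ.filter (fun a => Φ.Sub u a ∧ ∃ v, Φ.node a = Node.var v)) := by
            rw [Finset.disjoint_left]
            intro a ha hb
            simp only [mem_filter, mem_univ, true_and] at ha hb
            have hin : InC χ k a := ⟨hmul, u, hu, hb.1⟩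
            rcases ha.1 with h | ⟨g, h1, h2, h3⟩
            · exact h.2.2 k hR.1 hin
            · apply InC.disjoint h2 hR _ h3 hin
              rintro rfl
              simp [hk] at h1
          rw [← Finset.card_union_of_disjoint hdis]
          apply Finset.card_le_card
          intro a ha
          rcases Finset.mem_union.mp ha with ha | ha
          · exact hsub ha
          · simp only [mem_filter, mem_univ, true_and] at ha ⊢
            exact ⟨Or.inr ⟨k, by simp [hk], hR, hmul, u, hu, ha.1⟩, ha.2⟩
      · -- `k` is not reusable: nothing changes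
        have e1 : {f | ∃ a : Fin Φ.N, a.1 < n + 1 ∧ Reu χ r a ∧ f = ser χ a} =
            {f | ∃ a : Fin Φ.N, a.1 < n ∧ Reu χ r a ∧ f = ser χ a} := by
          ext f
          constructor
          · rintro ⟨a, ha, hra, rfl⟩
            rcases (hlt a).mp ha with h | h
            · exact ⟨a, h, hra, rfl⟩
            · rw [h] at hra; exact absurd hra hR
          · rintro ⟨a, ha, hra, rfl⟩
            exact ⟨a, by omega, hra, rfl⟩
        have e2 : (univ.filter (fun a : Fin Φ.N => ((a.1 < n + 1 ∧ Reu χ r a) ∨ ∃ g : Fin Φ.N,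
            g.1 < n + 1 ∧ Reu χ r g ∧ InC χ g a) ∧ ∃ v, Φ.node a = Node.var v)) =
            (univ.filter (fun a : Fin Φ.N => ((a.1 < n ∧ Reu χ r a) ∨ ∃ g : Fin Φ.N,
            g.1 < n ∧ Reu χ r g ∧ InC χ g a) ∧ ∃ v, Φ.node a = Node.var v)) := by
          ext a
          simp only [mem_filter, mem_univ, true_and]
          apply and_congr_left
          intro _
          constructor
          · rintro (⟨h1, h2⟩ | ⟨g, h1, h2, h3⟩)
            · rcases (hlt a).mp h1 with h | h
              · exact Or.inl ⟨h, h2⟩
              · rw [h] at h2; exact absurd h2 hR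
            · rcases (hlt g).mp h1 with h | h
              · exact Or.inr ⟨g, h, h2, h3⟩
              · rw [h] at h2; exact absurd h2 hR
          · rintro (⟨h1, h2⟩ | ⟨g, h1, h2, h3⟩)
            · exact Or.inl ⟨by omega, h2⟩
            · exact Or.inr ⟨g, by omega, h2, h3⟩
        rw [e1, e2]
        exact ih
  have h := key Φ.N le_rfl
  refine Aut.le_of_le ?_ (h.mono ?_)
  · apply Finset.card_le_card
    intro a ha
    simp only [mem_filter, mem_univ, true_and] at ha ⊢
    refine ⟨?_, ha.2⟩
    rcases ha.1 with h | ⟨g, _, h2, h3⟩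
    · exact h.2.1
    · obtain ⟨_, u, hu, hau⟩ := h3
      exact Sub.trans hau (Sub.trans (Sub.of_edge hu) h2.1)
  · rintro f ⟨a, ha, rfl⟩
    exact ⟨a, a.2, ha, rfl⟩

variable [Fintype σ]

open Classical in
/-- coefficients of the value are dominated by the series -/
lemma coeff_le_Pg (χ : Φ.Choice) (a : Fin Φ.N) : ∀ μ : Multiset σ,
    ‖(Φ.value a).coeff (Multiset.toFinsupp μ)‖₊ ≤
      (Pg (fun x => (MvPolynomial.X x : MvPolynomial σ ℝ≥0)) (Multiset.card μ) (ser χ a)).coeff
        (Multiset.toFinsupp μ) := by
  classical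
  induction a using WellFoundedLT.induction with
  | ind a ih =>
  intro μ
  cases hnode : Φ.node a with
  | var v =>
    rw [value_var Φ hnode, ser_var χ hnode, coeff_Pg, MvPolynomial.coeff_X]
    split_ifs with h
    · have hμ : μ = {v} := by
        rw [← Multiset.toFinsupp_singleton] at h
        exact (Multiset.toFinsupp.injective h).symm
      subst hμ
      simp only [Multiset.card_singleton, nnnorm_one]
      have := le_sumW (r := 1) (fun w : List σ => if (w : Multiset σ) = {v} then
        (if w = [v] then (1 : ℝ≥0) else 0) else 0) [v] rfl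
      simpa using this
    · simp
  | const c =>
    rw [value_const Φ hnode, ser_const χ hnode, coeff_Pg, MvPolynomial.coeff_C]
    split_ifs with h
    · have hμ : μ = 0 := by
        have : Multiset.toFinsupp μ = Multiset.toFinsupp 0 := by rw [← h]; simp
        exact Multiset.toFinsupp.injective this
      subst hμ
      simp
    · simp
  | add l r =>
    have hl : l < a := Φ.lt _ _ false (by rw [hnode]; rfl)
    have hr : r < a := Φ.lt _ _ true (by rw [hnode]; rfl)
    rw [value_add Φ hnode, ser_add χ hnode, Pg_add, MvPolynomial.coeff_add, MvPolynomial.coeff_add]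
    exact le_trans (nnnorm_add_le _ _) (add_le_add (ih l hl μ) (ih r hr μ))
  | mul l r =>
    obtain ⟨u, o, hu, ho, hser, hval, -⟩ := ser_mul χ hnode
    have hua : u < a := Φ.lt _ _ _ hu
    have hoa : o < a := Φ.lt _ _ _ ho
    rw [hval, hser, Pg_conv, MvPolynomial.coeff_sum, MvPolynomial.coeff_mul]
    simp only [MvPolynomial.coeff_mul]
    rw [Finset.sum_comm]
    refine le_trans (nnnorm_sum_le _ _) (Finset.sum_le_sum (fun p hp => ?_))
    have hp' := HasAntidiagonal.mem_antidiagonal.mp hp
    rw [nnnorm_mul]
    set μ1 := Finsupp.toMultiset p.1 with hμ1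
    set μ2 := Finsupp.toMultiset p.2 with hμ2
    have e1 : p.1 = Multiset.toFinsupp μ1 := by rw [hμ1, Finsupp.toMultiset_toFinsupp]
    have e2 : p.2 = Multiset.toFinsupp μ2 := by rw [hμ2, Finsupp.toMultiset_toFinsupp]
    have hsum : μ1 + μ2 = μ := by
      have h3 : Multiset.toFinsupp (μ1 + μ2) = Multiset.toFinsupp μ := by
        rw [map_add, ← e1, ← e2, hp']
      exact Multiset.toFinsupp.injective h3
    have hmem : (Multiset.card μ1, Multiset.card μ2) ∈
        HasAntidiagonal.antidiagonal (Multiset.card μ) := by
      rw [HasAntidiagonal.mem_antidiagonal, ← hsum, Multiset.card_add]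
    refine le_trans ?_ (Finset.single_le_sum (f := fun x : ℕ × ℕ =>
      (Pg (fun x => (MvPolynomial.X x : MvPolynomial σ ℝ≥0)) x.1 (ser χ o)).coeff p.1 *
      (Pg (fun x => (MvPolynomial.X x : MvPolynomial σ ℝ≥0)) x.2 (ser χ u)).coeff p.2)
      (fun _ _ => zero_le) hmem)
    rw [e1, e2]
    exact mul_le_mul' (ih o hoa μ1) (ih u hua μ2)

lemma sum_sumW_le (χ : Φ.Choice) (a : Fin Φ.N) : ∀ n : ℕ,
    ∑ r ∈ range n, sumW r (ser χ a) ≤ mass Φ a := by
  classical
  induction a using WellFoundedLT.induction with
  | ind a ih =>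
  intro n
  cases hnode : Φ.node a with
  | var v =>
    rw [ser_var χ hnode, mass_var Φ hnode]
    have h1 : ∀ r, sumW r (fun w : List σ => if w = [v] then (1 : ℝ≥0) else 0) =
        if r = 1 then 1 else 0 := by
      intro r
      cases r with
      | zero => simp
      | succ r =>
        cases r with
        | zero =>
          simp [sumW_succ]
        | succ r =>
          rw [if_neg (by omega)]
          refine (sumW_congr (F' := fun _ => 0) ?_).trans (sumW_const_zero _)
          intro w hw
          rw [if_neg]
          rintro rfl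
          simp at hw
    simp only [h1, Finset.sum_ite_eq', Finset.mem_range]
    split_ifs <;> simp
  | const c =>
    rw [ser_const χ hnode, mass_const Φ hnode]
    have h1 : ∀ r, sumW r (fun w : List σ => if w = [] then ‖c‖₊ else 0) =
        if r = 0 then ‖c‖₊ else 0 := by
      intro r
      cases r with
      | zero => simp
      | succ r =>
        rw [if_neg (by omega)]
        refine (sumW_congr (F' := fun _ => 0) ?_).trans (sumW_const_zero _)
        intro w hw
        rw [if_neg]
        rintro rfl
        simp at hw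
    simp only [h1, Finset.sum_ite_eq', Finset.mem_range]
    split_ifs <;> simp
  | add l r =>
    have hl : l < a := Φ.lt _ _ false (by rw [hnode]; rfl)
    have hr : r < a := Φ.lt _ _ true (by rw [hnode]; rfl)
    rw [ser_add χ hnode, mass_add Φ hnode]
    simp only [sumW_add, Finset.sum_add_distrib]
    exact add_le_add (ih l hl n) (ih r hr n)
  | mul l r =>
    obtain ⟨u, o, hu, ho, hser, -, hmass⟩ := ser_mul χ hnode
    have hua : u < a := Φ.lt _ _ _ hu
    have hoa : o < a := Φ.lt _ _ _ ho
    rw [hser, hmass]
    refine le_trans ?_ (mul_le_mul' (ih o hoa n) (ih u hua n))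
    simp only [sumW_conv]
    rw [Finset.sum_mul_sum, ← Finset.sum_product', ← Finset.sum_biUnion]
    · apply Finset.sum_le_sum_of_subset
      intro p hp
      rw [Finset.mem_biUnion] at hp
      obtain ⟨r', hr', hp⟩ := hp
      have h1 := HasAntidiagonal.mem_antidiagonal.mp hp
      rw [Finset.mem_range] at hr'
      rw [Finset.mem_product, Finset.mem_range, Finset.mem_range]
      omega
    · intro r1 _ r2 _ hne
      rw [Function.onFun, Finset.disjoint_left]
      intro p h1 h2
      exact hne ((HasAntidiagonal.mem_antidiagonal.mp h1).symm.trans (HasAntidiagonal.mem_antidiagonal.mp h2))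

end ser

section final

open Classical in
theorem exists_automaton {K : Type u} [NormedField K] {σ : Type v} [Fintype σ]
    (Φ : Pool.Agent.H567.Nec.Circuit K σ) (hΦ : Φ.WeaklySkew) (o : Fin Φ.N) :
    ∃ (Q : Type) (_ : Fintype Q) (W : σ → Q → Q → ℝ≥0) (β : Q → ℝ≥0) (q₀ : Q),
      Fintype.card Q ≤ Φ.N + 1 ∧
      (∀ μ : Multiset σ, ‖(Φ.value o).coeff (Multiset.toFinsupp μ)‖₊ ≤
        sumW (Multiset.card μ) (fun w => if (w : Multiset σ) = μ then act W w β q₀ else 0)) ∧
      ∀ n, sumW n (fun w => act W w β q₀) ≤ mass Φ o := by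
  obtain ⟨χ⟩ := hΦ.exists_choice
  obtain ⟨ι, hι, a, W, hcard, hF⟩ := aut_sub χ o
  obtain ⟨b, hb⟩ := hF (ser χ o) ⟨o, Reu.self χ o, rfl⟩
  set W₂ : σ → Option ι → Option ι → ℝ≥0 := fun x p p' =>
    p'.elim 0 (fun j => p.elim (a x j) (fun i => W x i j)) with hW₂
  set β : Option ι → ℝ≥0 := fun p => p.elim (ser χ o []) b with hβ
  have keys : ∀ w : List σ, ∀ i, act W₂ w β (some i) = act W w b i := by
    intro w
    induction w with
    | nil => intro i; rfl
    | cons y w ih =>
      intro i
      simp only [act_cons, step, Fintype.sum_option]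
      simp only [hW₂, Option.elim_none, Option.elim_some, zero_mul, zero_add]
      refine Finset.sum_congr rfl (fun j _ => ?_)
      rw [← ih]
  have key0 : ∀ w : List σ, act W₂ w β none = ser χ o w := by
    intro w
    cases w with
    | nil => rfl
    | cons y w =>
      rw [hb]
      simp only [act_cons, step, Fintype.sum_option, keys]
      simp only [hW₂, Option.elim_none, Option.elim_some, zero_mul, zero_add]
  refine ⟨Option ι, inferInstance, W₂, β, none, ?_, ?_, ?_⟩
  · rw [Fintype.card_option]
    refine Nat.succ_le_succ (le_trans hcard (le_trans (Finset.card_le_univ _) ?_))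
    rw [Fintype.card_fin]
  · intro μ
    refine le_trans (coeff_le_Pg χ o μ) (le_of_eq ?_)
    rw [coeff_Pg]
    apply sumW_congr
    intro w _
    rw [key0]
  · intro n
    have h1 := sum_sumW_le χ o (n + 1)
    refine le_trans ?_ h1
    refine le_trans (le_of_eq ?_) (Finset.single_le_sum (f := fun r => sumW r (ser χ o))
      (fun _ _ => zero_le) (Finset.self_mem_range_succ n))
    apply sumW_congr
    intro w _
    rw [key0]

end final

end Pool.Agent.H691R2.Skew
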