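import Pool.Agent.H691R2.Skew.R

set_option autoImplicit false

/-! # B: counting bad labellings -/

namespace Pool.Agent.H691R2.Skew

open Finset
open scoped NNReal

universe u v

variable {t h m : ℕ}

open Classical in
/-- labellings prescribed on a set `P` of places -/
private lemma card_prescribed (hm : 1 ≤ m) (D : ℕ) (P : Finset (Fin t × Fin (2 ^ h)))
    (hP : D ≤ P.card) (φ0 : Fin t → Fin (2 ^ h) → Fin m) :
    (univ.filter (fun φ : Fin t → Fin (2 ^ h) → Fin m => ∀ x ∈ P, φ x.1 x.2 = φ0 x.1 x.2)).card ≤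
      m ^ (t * 2 ^ h - D) := by
  let C := {x : Fin t × Fin (2 ^ h) // x ∉ P}
  have hinj : ∀ φ ∈ (univ.filter (fun φ : Fin t → Fin (2 ^ h) → Fin m =>
      ∀ x ∈ P, φ x.1 x.2 = φ0 x.1 x.2)), ∀ φ' ∈ (univ.filter (fun φ : Fin t → Fin (2 ^ h) → Fin m =>
      ∀ x ∈ P, φ x.1 x.2 = φ0 x.1 x.2)),
      (fun c : C => φ c.1.1 c.1.2) = (fun c : C => φ' c.1.1 c.1.2) → φ = φ' := by
    intro φ hφ φ' hφ' he
    rw [Finset.mem_filter] at hφ hφ'
    funext j u
    by_cases hx : (j, u) ∈ P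
    · rw [hφ.2 _ hx, hφ'.2 _ hx]
    · exact congrFun he ⟨(j, u), hx⟩
  have h1 := Finset.card_le_card_of_injOn
    (s := univ.filter (fun φ : Fin t → Fin (2 ^ h) → Fin m => ∀ x ∈ P, φ x.1 x.2 = φ0 x.1 x.2))
    (t := (univ : Finset (C → Fin m))) (fun φ c => φ c.1.1 c.1.2) (fun _ _ => Finset.mem_univ _)
    (fun φ hφ φ' hφ' he => hinj φ hφ φ' hφ' he)
  refine h1.trans ?_
  rw [Finset.card_univ, Fintype.card_fun, Fintype.card_fin]
  apply Nat.pow_le_pow_right hm
  have h2 : Fintype.card C = t * 2 ^ h - P.card := by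
    have := Fintype.card_subtype_compl (fun x : Fin t × Fin (2 ^ h) => x ∈ P)
    simp only [Fintype.card_prod, Fintype.card_fin, Fintype.card_coe] at this
    convert this using 1
  rw [h2]
  omega

open Classical in
private lemma pairs_le (J : Finset (Fin t)) (𝒜 : Finset (Fin t → Finset (Fin (2 ^ h)))) (D : ℕ)
    (hA : ∀ A ∈ 𝒜, (∀ j ∈ J, A j ⊆ G h) ∧ (∀ j, j ∉ J → A j = ∅) ∧
      D ≤ ∑ j ∈ J, (bdry (A j)).card) (hm : 1 ≤ m) (w : List (Var t h m)) :
    ((𝒜 ×ˢ (univ : Finset (Fin t → Fin (2 ^ h) → Fin m))).filter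
      (fun x => Cset J x.1 x.2 w)).card ≤ m ^ (t * 2 ^ h - D) := by
  rcases Finset.eq_empty_or_nonempty ((𝒜 ×ˢ (univ : Finset (Fin t → Fin (2 ^ h) → Fin m))).filter
      (fun x => Cset J x.1 x.2 w)) with he | ⟨⟨A0, φ0⟩, h0⟩
  · rw [he]; simp
  rw [Finset.mem_filter, Finset.mem_product] at h0
  obtain ⟨⟨hA0, _⟩, φ0', hφ0, hw0⟩ := h0
  simp only at hA0 hφ0 hw0
  set P : Finset (Fin t × Fin (2 ^ h)) := J.biUnion (fun j => (bdry (A0 j)).image (fun u => (j, u)))
    with hP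
  have hPcard : P.card = ∑ j ∈ J, (bdry (A0 j)).card := by
    rw [hP, Finset.card_biUnion]
    · apply Finset.sum_congr rfl
      intro j _
      exact Finset.card_image_of_injective _ (fun a b hab => (Prod.ext_iff.mp hab).2)
    · intro i _ j _ hij
      change Disjoint _ _
      rw [Finset.disjoint_left]
      intro x hx hx'
      obtain ⟨a, _, rfl⟩ := Finset.mem_image.mp hx
      obtain ⟨b, _, hb⟩ := Finset.mem_image.mp hx'
      exact hij (Prod.ext_iff.mp hb).1.symm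
  have hsub : ((𝒜 ×ˢ (univ : Finset (Fin t → Fin (2 ^ h) → Fin m))).filter
      (fun x => Cset J x.1 x.2 w)) ⊆ {A0} ×ˢ (univ.filter (fun φ : Fin t → Fin (2 ^ h) → Fin m =>
        ∀ x ∈ P, φ x.1 x.2 = φ0' x.1 x.2)) := by
    rintro ⟨A, φ⟩ hx
    rw [Finset.mem_filter, Finset.mem_product] at hx
    obtain ⟨⟨hA1, _⟩, φ', hφ, hw1⟩ := hx
    simp only at hA1 hφ hw1
    have hAeq : ∀ j ∈ J, A j = A0 j ∧ ∀ g ∈ G h \ A0 j, φ' j (par g) = φ0' j (par g) ∧
        φ' j g = φ0' j g := by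
      intro j hj
      have h1 : lets j (φ' j) (G h \ A j) = lets j (φ0' j) (G h \ A0 j) := by
        rw [← hw1 j hj, ← hw0 j hj]
      obtain ⟨h2, h3⟩ := lets_inj h1
      refine ⟨?_, ?_⟩
      · have e1 : A j = G h \ (G h \ A j) := by
          rw [Finset.sdiff_sdiff_eq_self ((hA A hA1).1 j hj)]
        have e2 : A0 j = G h \ (G h \ A0 j) := by
          rw [Finset.sdiff_sdiff_eq_self ((hA A0 hA0).1 j hj)]
        rw [e1, e2, h2]
      · intro g hg
        exact h3 g (h2 ▸ hg)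
    rw [Finset.mem_product, Finset.mem_singleton, Finset.mem_filter]
    refine ⟨?_, Finset.mem_univ _, ?_⟩
    · funext j
      change A j = A0 j
      by_cases hj : j ∈ J
      · exact (hAeq j hj).1
      · rw [(hA A hA1).2.1 j hj, (hA A0 hA0).2.1 j hj]
    · rintro ⟨j, u⟩ hju
      rw [hP, Finset.mem_biUnion] at hju
      obtain ⟨j', hj', hu⟩ := hju
      obtain ⟨u', hu', he⟩ := Finset.mem_image.mp hu
      obtain ⟨rfl, rfl⟩ := Prod.ext_iff.mp he
      simp only at hj' hu' ⊢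
      have hA' := hAeq j' hj'
      have h1 : φ' j' u' = φ j' u' := hφ j' hj' u' (by rw [hA'.1]; exact hu')
      rw [← h1]
      unfold bdry at hu'
      rw [Finset.mem_filter] at hu'
      obtain ⟨g, hg, hug⟩ := hu'.2.2
      rcases hug with hug | hug
      · rw [hug]; exact (hA'.2 g hg).2
      · rw [hug]; exact (hA'.2 g hg).1
  calc _ ≤ _ := Finset.card_le_card hsub
    _ = (univ.filter (fun φ : Fin t → Fin (2 ^ h) → Fin m =>
        ∀ x ∈ P, φ x.1 x.2 = φ0' x.1 x.2)).card := by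
        rw [Finset.card_product, Finset.card_singleton, one_mul]
    _ ≤ _ := card_prescribed hm D P (by rw [hPcard]; exact (hA A0 hA0).2.2) φ0'

open Classical in
theorem bad_count (J : Finset (Fin t)) (𝒜 : Finset (Fin t → Finset (Fin (2 ^ h)))) (D : ℕ)
    (hA : ∀ A ∈ 𝒜, (∀ j ∈ J, A j ⊆ G h) ∧ (∀ j, j ∉ J → A j = ∅) ∧
      D ≤ ∑ j ∈ J, (bdry (A j)).card) (hm : 1 ≤ m) (p : ℕ) (val : List (Var t h m) → ℝ≥0) :
    ∑ A ∈ 𝒜, ∑ φ : Fin t → Fin (2 ^ h) → Fin m,
      sumW p (fun w => if Cset J A φ w then val w else 0) ≤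
      (m : ℝ≥0) ^ (t * 2 ^ h - D) * sumW p val := by
  have h1 : ∑ A ∈ 𝒜, ∑ φ : Fin t → Fin (2 ^ h) → Fin m,
      sumW p (fun w => if Cset J A φ w then val w else 0) =
      sumW p (fun w => ∑ A ∈ 𝒜, ∑ φ : Fin t → Fin (2 ^ h) → Fin m,
        if Cset J A φ w then val w else 0) := by
    rw [sumW_sum]
    apply Finset.sum_congr rfl
    intro A _
    rw [sumW_sum]
  rw [h1, ← sumW_mul_left]
  apply sumW_mono
  intro w _
  have h2 : ∑ A ∈ 𝒜, ∑ φ : Fin t → Fin (2 ^ h) → Fin m,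
        (if Cset J A φ w then val w else 0) =
      (((𝒜 ×ˢ (univ : Finset (Fin t → Fin (2 ^ h) → Fin m))).filter
      (fun x => Cset J x.1 x.2 w)).card : ℝ≥0) * val w := by
    rw [← Finset.sum_product', ← Finset.sum_filter, Finset.sum_const, nsmul_eq_mul]
  rw [h2]
  gcongr
  exact_mod_cast pairs_le J 𝒜 D hA hm w

open Classical in
/-- Markov's inequality for `bad_count`, for all states and all windows. -/
theorem bad_markov {Q : Type v} [Fintype Q] (W : Var t h m → Q → Q → ℝ≥0) (β : Q → ℝ≥0) (n : ℕ)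
    (J : Finset (Fin t)) (𝒜 : Finset (Fin t → Finset (Fin (2 ^ h)))) (D : ℕ)
    (hA : ∀ A ∈ 𝒜, (∀ j ∈ J, A j ⊆ G h) ∧ (∀ j, j ∉ J → A j = ∅) ∧
      D ≤ ∑ j ∈ J, (bdry (A j)).card) (hm : 1 ≤ m) (θ : ℝ≥0) :
    ((univ.filter (fun φ : Fin t → Fin (2 ^ h) → Fin m => ∃ A ∈ 𝒜, ∃ p r, p + r ≤ n ∧ ∃ q,
      θ * tot W (p + r) β q <
        sumW p (fun w => if Cset J A φ w then act W w (tot W r β) q else 0))).card : ℝ≥0) * θ ≤
      (Fintype.card Q : ℝ≥0) * (n + 1) ^ 2 * (m : ℝ≥0) ^ (t * 2 ^ h - D) := by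
  set Bad : ℕ → ℕ → Q → Finset (Fin t → Fin (2 ^ h) → Fin m) := fun p r q =>
    univ.filter (fun φ => ∃ A ∈ 𝒜, θ * tot W (p + r) β q <
        sumW p (fun w => if Cset J A φ w then act W w (tot W r β) q else 0)) with hBad
  have hone : ∀ p r q, ((Bad p r q).card : ℝ≥0) * θ ≤ (m : ℝ≥0) ^ (t * 2 ^ h - D) := by
    intro p r q
    set τ := tot W (p + r) β q with hτ
    have htot : sumW p (fun w => act W w (tot W r β) q) = τ := by
      rw [hτ, tot_add]
      rfl
    by_cases hτ0 : τ = 0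
    · have : Bad p r q = ∅ := by
        rw [Finset.eq_empty_iff_forall_notMem]
        intro φ hφ
        rw [hBad, Finset.mem_filter] at hφ
        obtain ⟨_, A, _, hlt⟩ := hφ
        have h1 : sumW p (fun w => if Cset J A φ w then act W w (tot W r β) q else 0) ≤ τ := by
          rw [← htot]
          exact sumW_ite_le _ _
        rw [hτ0] at h1
        have h2 : sumW p (fun w => if Cset J A φ w then act W w (tot W r β) q else 0) = 0 :=
          le_antisymm h1 zero_le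
        rw [h2] at hlt
        exact absurd hlt (not_lt.mpr zero_le)
      rw [this]
      simp
    · have h1 : ((Bad p r q).card : ℝ≥0) * θ * τ ≤ (m : ℝ≥0) ^ (t * 2 ^ h - D) * τ := by
        calc ((Bad p r q).card : ℝ≥0) * θ * τ = ∑ φ ∈ Bad p r q, θ * τ := by
              rw [Finset.sum_const, nsmul_eq_mul, mul_assoc]
          _ ≤ ∑ φ ∈ Bad p r q, ∑ A ∈ 𝒜,
              sumW p (fun w => if Cset J A φ w then act W w (tot W r β) q else 0) := by
              apply Finset.sum_le_sum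
              intro φ hφ
              rw [hBad, Finset.mem_filter] at hφ
              obtain ⟨_, A, hA1, hlt⟩ := hφ
              refine hlt.le.trans ?_
              exact Finset.single_le_sum (f := fun A => sumW p (fun w =>
                if Cset J A φ w then act W w (tot W r β) q else 0)) (fun _ _ => zero_le) hA1
          _ ≤ ∑ φ : Fin t → Fin (2 ^ h) → Fin m, ∑ A ∈ 𝒜,
              sumW p (fun w => if Cset J A φ w then act W w (tot W r β) q else 0) :=
              Finset.sum_le_sum_of_subset (Finset.subset_univ _)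
          _ = ∑ A ∈ 𝒜, ∑ φ : Fin t → Fin (2 ^ h) → Fin m,
              sumW p (fun w => if Cset J A φ w then act W w (tot W r β) q else 0) :=
              Finset.sum_comm
          _ ≤ (m : ℝ≥0) ^ (t * 2 ^ h - D) * sumW p (fun w => act W w (tot W r β) q) :=
              bad_count J 𝒜 D hA hm p _
          _ = _ := by rw [htot]
      exact le_of_mul_le_mul_right h1 (pos_iff_ne_zero.mpr hτ0)
  have hsub : (univ.filter (fun φ : Fin t → Fin (2 ^ h) → Fin m => ∃ A ∈ 𝒜, ∃ p r, p + r ≤ n ∧ ∃ q,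
      θ * tot W (p + r) β q <
        sumW p (fun w => if Cset J A φ w then act W w (tot W r β) q else 0))) ⊆
      ((univ : Finset Q) ×ˢ (range (n + 1) ×ˢ range (n + 1))).biUnion
        (fun x => Bad x.2.1 x.2.2 x.1) := by
    intro φ hφ
    rw [Finset.mem_filter] at hφ
    obtain ⟨_, A, hA1, p, r, hpr, q, hlt⟩ := hφ
    rw [Finset.mem_biUnion]
    refine ⟨(q, p, r), ?_, ?_⟩
    · simp only [Finset.mem_product, Finset.mem_univ, Finset.mem_range, true_and]
      omega
    · rw [hBad, Finset.mem_filter]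
      exact ⟨Finset.mem_univ _, A, hA1, hlt⟩
  have h1 := (Finset.card_le_card hsub).trans Finset.card_biUnion_le
  calc _ ≤ ((∑ x ∈ ((univ : Finset Q) ×ˢ (range (n + 1) ×ˢ range (n + 1))),
        (Bad x.2.1 x.2.2 x.1).card : ℕ) : ℝ≥0) * θ := by
        gcongr
    _ = ∑ x ∈ ((univ : Finset Q) ×ˢ (range (n + 1) ×ˢ range (n + 1))),
        ((Bad x.2.1 x.2.2 x.1).card : ℝ≥0) * θ := by
        rw [Nat.cast_sum, Finset.sum_mul]
    _ ≤ ∑ x ∈ ((univ : Finset Q) ×ˢ (range (n + 1) ×ˢ range (n + 1))),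
        (m : ℝ≥0) ^ (t * 2 ^ h - D) := Finset.sum_le_sum (fun x _ => hone _ _ _)
    _ = _ := by
        rw [Finset.sum_const, Finset.card_product, Finset.card_product, Finset.card_range,
          Finset.card_univ, nsmul_eq_mul]
        push_cast
        ring

end Pool.Agent.H691R2.Skew
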