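import Mathlib
import Pool.Agent.H691R2.Skew.Basic

set_option autoImplicit false

/-! # Definitions used by the combinatorial core -/

namespace Pool.Agent.H691R2.Skew

open Finset
open scoped NNReal

universe u

/-- The size of the cut: `1 + 4 + 4 ^ 2 + … + 4 ^ (r - 1)`. -/
def kk : ℕ → ℕ
  | 0 => 0
  | r + 1 => 4 * kk r + 1

open Classical in
/-- Cuts of the single copy `j` at `k` groups. -/
noncomputable def AS {t h : ℕ} (j : Fin t) (k : ℕ) : Finset (Fin t → Finset (Fin (2 ^ h))) :=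
  univ.filter (fun A => A j ⊆ G h ∧ (A j).card = k ∧ ∀ j', j' ≠ j → A j' = ∅)

open Classical in
/-- Proper cuts of all copies in `J`. -/
noncomputable def AC {t h : ℕ} (J : Finset (Fin t)) : Finset (Fin t → Finset (Fin (2 ^ h))) :=
  univ.filter (fun A => (∀ j ∈ J, A j ⊆ G h ∧ A j ≠ ∅ ∧ A j ≠ G h) ∧ ∀ j, j ∉ J → A j = ∅)

open Classical in
/-- All cut types in `𝒜` of the labellings in `Typ` are light, for every state and every window. -/
def Light {t h m : ℕ} {Q : Type u} [Fintype Q] (W : Var t h m → Q → Q → ℝ≥0) (β : Q → ℝ≥0) (n : ℕ)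
    (Typ : Set (Fin t → Fin (2 ^ h) → Fin m)) (J : Finset (Fin t))
    (𝒜 : Finset (Fin t → Finset (Fin (2 ^ h)))) (θ : ℝ≥0) : Prop :=
  ∀ φ ∈ Typ, ∀ A ∈ 𝒜, ∀ p r, p + r ≤ n → ∀ q,
    sumW p (fun w => if Cset J A φ w then act W w (tot W r β) q else 0) ≤ θ * tot W (p + r) β q

end Pool.Agent.H691R2.Skew
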