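import Mathlib
import Pool.Agent.H691R2.Skew.Defs2

set_option autoImplicit false

/-! # Statements to be proved -/

namespace Pool.Agent.H691R2.Skew

open Finset
open scoped NNReal

universe u v

variable {t h m : ℕ}

/-! ## T: the tree -/

theorem bdry_card {b h : ℕ} (hb : 6 * b ≤ h) (A : Finset (Fin (2 ^ h))) (hA : A ⊆ G h)
    (hk : A.card = kk (h / 2)) : b ≤ (bdry A).card := by
  sorry

theorem bdry_pos {h : ℕ} (A : Finset (Fin (2 ^ h))) (hA : A ⊆ G h) (h0 : A ≠ ∅) (h1 : A ≠ G h) :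
    1 ≤ (bdry A).card := by
  sorry

theorem kk_le (h : ℕ) : kk (h / 2) ≤ 2 ^ h - 1 := by
  sorry

/-! ## R: readings -/

theorem card_G (h : ℕ) : (G h).card = 2 ^ h - 1 := by
  sorry

theorem lets_inj {j : Fin t} {ψ ψ' : Fin (2 ^ h) → Fin m} {A A' : Finset (Fin (2 ^ h))}
    (he : lets j ψ A = lets j ψ' A') : A = A' ∧ ∀ g ∈ A, ψ (par g) = ψ' (par g) ∧ ψ g = ψ' g := by
  sorry

theorem card_lets (j : Fin t) (ψ : Fin (2 ^ h) → Fin m) (A : Finset (Fin (2 ^ h))) :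
    (lets j ψ A).card = A.card := by
  sorry

theorem cj_append (j : Fin t) (u v : List (Var t h m)) : cj j (u ++ v) = cj j u + cj j v := by
  sorry

theorem split_lets {j : Fin t} {ψ : Fin (2 ^ h) → Fin m} {u v : List (Var t h m)}
    (he : cj j u + cj j v = lets j ψ (G h)) :
    ∃ A ⊆ G h, cj j u = lets j ψ A ∧ cj j v = lets j ψ (G h \ A) := by
  sorry

theorem cj_of_mon {φ : Fin t → Fin (2 ^ h) → Fin m} {w : List (Var t h m)}
    (hw : (w : Multiset (Var t h m)) = mon φ) (j : Fin t) : cj j w = lets j (φ j) (G h) := by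
  sorry

theorem card_mon (φ : Fin t → Fin (2 ^ h) → Fin m) : (mon φ).card = t * (2 ^ h - 1) := by
  sorry

theorem mon_inj (hh : 1 ≤ h) {φ φ' : Fin t → Fin (2 ^ h) → Fin m} (he : mon φ = mon φ') :
    φ = φ' := by
  sorry

theorem coeff_treePoly (K : Type u) [CommSemiring K] (hh : 1 ≤ h)
    (φ : Fin t → Fin (2 ^ h) → Fin m) :
    (treePoly K t h m).coeff (Multiset.toFinsupp (mon φ)) = 1 := by
  sorry

/-! ## B: counting bad labellings -/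

open Classical in
theorem bad_count (J : Finset (Fin t)) (𝒜 : Finset (Fin t → Finset (Fin (2 ^ h)))) (D : ℕ)
    (hA : ∀ A ∈ 𝒜, (∀ j ∈ J, A j ⊆ G h) ∧ (∀ j, j ∉ J → A j = ∅) ∧
      D ≤ ∑ j ∈ J, (bdry (A j)).card) (hm : 1 ≤ m) (p : ℕ) (val : List (Var t h m) → ℝ≥0) :
    ∑ A ∈ 𝒜, ∑ φ : Fin t → Fin (2 ^ h) → Fin m,
      sumW p (fun w => if Cset J A φ w then val w else 0) ≤
      (m : ℝ≥0) ^ (t * 2 ^ h - D) * sumW p val := by
  sorry

open Classical in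
/-- Markov's inequality for `bad_count`, for all states and all windows. -/
theorem bad_markov {Q : Type v} [Fintype Q] (W : Var t h m → Q → Q → ℝ≥0) (β : Q → ℝ≥0) (n : ℕ)
    (J : Finset (Fin t)) (𝒜 : Finset (Fin t → Finset (Fin (2 ^ h)))) (D : ℕ)
    (hA : ∀ A ∈ 𝒜, (∀ j ∈ J, A j ⊆ G h) ∧ (∀ j, j ∉ J → A j = ∅) ∧
      D ≤ ∑ j ∈ J, (bdry (A j)).card) (hm : 1 ≤ m) (θ : ℝ≥0) :
    ((univ.filter (fun φ : Fin t → Fin (2 ^ h) → Fin m => ∃ A ∈ 𝒜, ∃ p r, p + r ≤ n ∧ ∃ q,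
      θ * tot W (p + r) β q <
        sumW p (fun w => if Cset J A φ w then act W w (tot W r β) q else 0))).card : ℝ≥0) * θ ≤
      (Fintype.card Q : ℝ≥0) * (n + 1) ^ 2 * (m : ℝ≥0) ^ (t * 2 ^ h - D) := by
  sorry

/-! ## C: the cut inequality -/

open Classical in
theorem cut_ineq {Q : Type v} [Fintype Q] (W : Var t h m → Q → Q → ℝ≥0) (β : Q → ℝ≥0) (n : ℕ)
    (Typ : Set (Fin t → Fin (2 ^ h) → Fin m)) (J : Finset (Fin t))
    (𝒜 : Finset (Fin t → Finset (Fin (2 ^ h))))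
    (hA : ∀ A ∈ 𝒜, (∀ j ∈ J, A j ⊆ G h) ∧ (∀ j, j ∉ J → A j = ∅)) (θ : ℝ≥0)
    (hL : Light W β n Typ J 𝒜 θ) (p p' r : ℕ) (hn : p + p' + r ≤ n) (q : Q) :
    sumW (p + p') (fun w => if (∃ φ ∈ Typ, ∃ A ∈ 𝒜, ∀ j ∈ J,
        cj j (w.take p) = lets j (φ j) (A j) ∧ cj j (w.drop p) = lets j (φ j) (G h \ A j))
      then act W w (tot W r β) q else 0) ≤ θ * tot W (p + p' + r) β q := by
  sorry

/-! ## W: one window -/

theorem window {Q : Type v} [Fintype Q] (W : Var t h m → Q → Q → ℝ≥0) (β : Q → ℝ≥0) (n : ℕ)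
    (Typ : Set (Fin t → Fin (2 ^ h) → Fin m)) (k N₀ : ℕ) (hk : k ≤ 2 ^ h - 1) (θ : ℝ≥0)
    (hS : ∀ j, Light W β n Typ {j} (AS j k) θ)
    (hC : ∀ J : Finset (Fin t), N₀ ≤ J.card →
      Light W β n Typ J (AC J) ((1 / (4 * (t : ℝ≥0))) ^ J.card))
    (L r : ℕ) (hn : L + r ≤ n) (q : Q) :
    sumW L (fun w => psi Typ 0 w * act W w (tot W r β) q) ≤
      (1 + (t * (n + 1) * θ * 2 ^ N₀ + 2 * (1 / 2) ^ N₀)) * tot W (L + r) β q := by
  sorry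

/-! ## S: subdivision -/

theorem subdivision {Q : Type v} [Fintype Q] (W : Var t h m → Q → Q → ℝ≥0) (β : Q → ℝ≥0) (n : ℕ)
    (Typ : Set (Fin t → Fin (2 ^ h) → Fin m)) (η : ℝ≥0)
    (hw : ∀ L r, L + r ≤ n → ∀ q,
      sumW L (fun w => psi Typ 0 w * act W w (tot W r β) q) ≤ (1 + η) * tot W (L + r) β q)
    (d L r : ℕ) (hn : L + r ≤ n) (q : Q) :
    sumW L (fun w => psi Typ d w * act W w (tot W r β) q) ≤
      (1 + η) ^ (2 ^ d) * tot W (L + r) β q := by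
  sorry

theorem exists_depth (hh : 2 ≤ h) {Typ : Set (Fin t → Fin (2 ^ h) → Fin m)}
    {φ : Fin t → Fin (2 ^ h) → Fin m} (hφ : φ ∈ Typ) (w : List (Var t h m))
    (hw : (w : Multiset (Var t h m)) = mon φ) (D : ℕ) (hD : w.length ≤ 2 ^ D) (hD1 : 1 ≤ D) :
    ∃ d < D, t ≤ D * E d w ∧ psi Typ d w = 2 ^ E d w := by
  sorry

/-! ## F: final assembly for automata -/

open Classical in
/-- The combinatorial core. `s` bounds the number of states, `M` the total weight of all words of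
length `t (2 ^ h - 1)`. -/
theorem core {Q : Type v} [Fintype Q] (W : Var t h m → Q → Q → ℝ≥0) (β : Q → ℝ≥0) (q₀ : Q)
    (b D s m₀ : ℕ) (M : ℝ≥0) (hh : 2 ≤ h) (hb : 6 * b ≤ h) (ht : 1 ≤ t)
    (hm₀ : 2 ≤ m₀) (hm : 4 * t ^ 2 * m₀ ≤ m) (hs : Fintype.card Q ≤ s)
    (hD : t * (2 ^ h - 1) ≤ 2 ^ D) (hD' : 2 ^ D ≤ 2 * (t * 2 ^ h))
    (h1 : 2 ^ 12 * t ^ 2 * s * (t * 2 ^ h) ^ 5 ≤ m ^ b)
    (h2 : 2 ^ 5 * s * (t * 2 ^ h) ^ 2 ≤ m₀ ^ D)
    (hcov : ∀ φ : Fin t → Fin (2 ^ h) → Fin m,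
      1 ≤ sumW (t * (2 ^ h - 1)) (fun w => if (w : Multiset (Var t h m)) = mon φ
        then act W w β q₀ else 0))
    (hM : sumW (t * (2 ^ h - 1)) (fun w => act W w β q₀) ≤ M) :
    (m : ℝ≥0) ^ (t * 2 ^ h) * 2 ^ (t / D) ≤ 6 * D * M := by
  sorry

/-! ## A: from weakly skew circuits to automata -/

open Classical in
theorem exists_automaton {K : Type u} [NormedField K] {σ : Type v} [Fintype σ]
    (Φ : Pool.Agent.H567.Nec.Circuit K σ) (hΦ : Φ.WeaklySkew) (o : Fin Φ.N) :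
    ∃ (Q : Type) (_ : Fintype Q) (W : σ → Q → Q → ℝ≥0) (β : Q → ℝ≥0) (q₀ : Q),
      Fintype.card Q ≤ Φ.N + 1 ∧
      (∀ μ : Multiset σ, ‖(Φ.value o).coeff (Multiset.toFinsupp μ)‖₊ ≤
        sumW (Multiset.card μ) (fun w => if (w : Multiset σ) = μ then act W w β q₀ else 0)) ∧
      ∀ n, sumW n (fun w => act W w β q₀) ≤ mass Φ o := by
  sorry

/-! ## U: the monotone circuit -/

theorem exists_monotone_circuit (K : Type u) [NormedField K] (t h m : ℕ) :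
    ∃ (Φ : Pool.Agent.H567.Nec.Circuit K (Var t h m)) (o : Fin Φ.N),
      Φ.value o = treePoly K t h m ∧ mass Φ o = (m : ℝ≥0) ^ (t * 2 ^ h) ∧
      Φ.N ≤ 8 * t * 2 ^ h * (m + 1) ^ 2 + 8 ∧
      (∀ i, ∀ c, Φ.node i = .const c → c = 0 ∨ c = 1) := by
  sorry

end Pool.Agent.H691R2.Skew
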