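import Mathlib
import Pool.Agent.H691R2.Skew.Defs2

set_option autoImplicit false

/-! # The cut inequality -/

namespace Pool.Agent.H691R2.Skew

open Finset
open scoped NNReal

universe u v

variable {t h m : ℕ}

private theorem lets_inj_aux {j : Fin t} {ψ ψ' : Fin (2 ^ h) → Fin m} {A A' : Finset (Fin (2 ^ h))}
    (he : lets j ψ A = lets j ψ' A') : A = A' ∧ ∀ g ∈ A, ψ (par g) = ψ' (par g) ∧ ψ g = ψ' g := by
  have h1 : A = A' := by
    have h2 := congrArg (Multiset.map (fun x : Var t h m => x.2.1)) he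
    unfold lets at h2
    rw [Multiset.map_map, Multiset.map_map] at h2
    have e1 : ∀ χ : Fin (2 ^ h) → Fin m,
        ((fun x : Var t h m => x.2.1) ∘ letter j χ) = (fun g => g) := by
      intro χ
      funext g
      rfl
    rw [e1, e1, Multiset.map_id', Multiset.map_id'] at h2
    exact Finset.val_inj.1 h2
  subst h1
  refine ⟨rfl, fun g hg => ?_⟩
  have h3 : letter j ψ g ∈ lets j ψ' A := by
    rw [← he]
    exact Multiset.mem_map_of_mem _ hg
  unfold lets at h3
  rw [Multiset.mem_map] at h3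
  obtain ⟨g', -, hg'⟩ := h3
  unfold letter at hg'
  rw [Prod.mk.injEq, Prod.mk.injEq, Prod.mk.injEq] at hg'
  obtain ⟨-, h4, h5, h6⟩ := hg'
  subst h4
  exact ⟨h5.symm, h6.symm⟩

open Classical in
theorem cut_ineq {Q : Type v} [Fintype Q] (W : Var t h m → Q → Q → ℝ≥0) (β : Q → ℝ≥0) (n : ℕ)
    (Typ : Set (Fin t → Fin (2 ^ h) → Fin m)) (J : Finset (Fin t))
    (𝒜 : Finset (Fin t → Finset (Fin (2 ^ h))))
    (hA : ∀ A ∈ 𝒜, (∀ j ∈ J, A j ⊆ G h) ∧ (∀ j, j ∉ J → A j = ∅)) (θ : ℝ≥0)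
    (hL : Light W β n Typ J 𝒜 θ) (p p' r : ℕ) (hn : p + p' + r ≤ n) (q : Q) :
    sumW (p + p') (fun w => if (∃ φ ∈ Typ, ∃ A ∈ 𝒜, ∀ j ∈ J,
        cj j (w.take p) = lets j (φ j) (A j) ∧ cj j (w.drop p) = lets j (φ j) (G h \ A j))
      then act W w (tot W r β) q else 0) ≤ θ * tot W (p + p' + r) β q := by
  have inner : ∀ u : List (Var t h m), ∀ q' : Q,
      sumW p' (fun v => if (∃ φ ∈ Typ, ∃ A ∈ 𝒜, ∀ j ∈ J, cj j u = lets j (φ j) (A j) ∧
        cj j v = lets j (φ j) (G h \ A j)) then act W v (tot W r β) q' else 0) ≤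
        θ * tot W (p' + r) β q' := by
    intro u q'
    by_cases hex : ∃ φ ∈ Typ, ∃ A ∈ 𝒜, ∀ j ∈ J, cj j u = lets j (φ j) (A j)
    · obtain ⟨φ₀, hφ₀, A₀, hA₀, h₀⟩ := hex
      refine le_trans (sumW_mono ?_) (hL φ₀ hφ₀ A₀ hA₀ p' r (by omega) q')
      intro v _
      by_cases h1 : ∃ φ ∈ Typ, ∃ A ∈ 𝒜, ∀ j ∈ J, cj j u = lets j (φ j) (A j) ∧
        cj j v = lets j (φ j) (G h \ A j)
      · have h2 : Cset J A₀ φ₀ v := by
          obtain ⟨φ, hφ, A, hA', hv⟩ := h1
          have hAA : A = A₀ := by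
            funext j
            by_cases hj : j ∈ J
            · exact (lets_inj_aux ((hv j hj).1.symm.trans (h₀ j hj))).1
            · rw [(hA A hA').2 j hj, (hA A₀ hA₀).2 j hj]
          subst hAA
          refine ⟨φ, ?_, fun j hj => (hv j hj).2⟩
          intro j hj x hx
          have h3 := (lets_inj_aux ((hv j hj).1.symm.trans (h₀ j hj))).2
          unfold bdry at hx
          rw [Finset.mem_filter] at hx
          obtain ⟨-, ⟨g, hg, hxg⟩, -⟩ := hx
          rcases hxg with rfl | rfl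
          · exact (h3 _ hg).2
          · exact (h3 _ hg).1
        rw [if_pos h1, if_pos h2]
      · rw [if_neg h1]
        exact zero_le
    · have h1 : sumW p' (fun v => if (∃ φ ∈ Typ, ∃ A ∈ 𝒜, ∀ j ∈ J, cj j u = lets j (φ j) (A j) ∧
        cj j v = lets j (φ j) (G h \ A j)) then act W v (tot W r β) q' else 0) = 0 := by
        refine (sumW_congr (F' := fun _ => (0 : ℝ≥0)) fun v _ => if_neg ?_).trans
          (sumW_const_zero p')
        rintro ⟨φ, hφ, A, hA', hv⟩
        exact hex ⟨φ, hφ, A, hA', fun j hj => (hv j hj).1⟩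
      rw [h1]
      exact zero_le
  rw [sumW_append]
  have hstep : sumW p (fun u => sumW p' (fun v => (fun w : List (Var t h m) =>
      if (∃ φ ∈ Typ, ∃ A ∈ 𝒜, ∀ j ∈ J,
        cj j (w.take p) = lets j (φ j) (A j) ∧ cj j (w.drop p) = lets j (φ j) (G h \ A j))
      then act W w (tot W r β) q else 0) (u ++ v))) =
      sumW p (fun u => act W u (fun q' => sumW p' (fun v =>
        if (∃ φ ∈ Typ, ∃ A ∈ 𝒜, ∀ j ∈ J, cj j u = lets j (φ j) (A j) ∧
        cj j v = lets j (φ j) (G h \ A j)) then act W v (tot W r β) q' else 0)) q) := by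
    refine sumW_congr fun u hu => ?_
    rw [act_sumW W p' u (fun v q' => if (∃ φ ∈ Typ, ∃ A ∈ 𝒜, ∀ j ∈ J,
      cj j u = lets j (φ j) (A j) ∧ cj j v = lets j (φ j) (G h \ A j))
      then act W v (tot W r β) q' else 0) q]
    refine sumW_congr fun v _ => ?_
    have e1 : (u ++ v).take p = u := by rw [← hu, List.take_left]
    have e2 : (u ++ v).drop p = v := by rw [← hu, List.drop_left]
    simp only [e1, e2]
    by_cases h1 : ∃ φ ∈ Typ, ∃ A ∈ 𝒜, ∀ j ∈ J, cj j u = lets j (φ j) (A j) ∧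
        cj j v = lets j (φ j) (G h \ A j)
    · simp only [if_pos h1]
      rw [act_append]
    · simp only [if_neg h1]
      exact (act_zero W u q).symm
  refine (le_of_eq hstep).trans ?_
  calc sumW p (fun u => act W u (fun q' => sumW p' (fun v =>
        if (∃ φ ∈ Typ, ∃ A ∈ 𝒜, ∀ j ∈ J, cj j u = lets j (φ j) (A j) ∧
        cj j v = lets j (φ j) (G h \ A j)) then act W v (tot W r β) q' else 0)) q)
      ≤ sumW p (fun u => act W u (fun q' => θ * tot W (p' + r) β q') q) :=
        sumW_mono fun u _ => act_mono W u (inner u) q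
    _ = sumW p (fun u => θ * act W u (tot W (p' + r) β) q) :=
        sumW_congr fun u _ => act_smul W u θ (tot W (p' + r) β) q
    _ = θ * tot W p (tot W (p' + r) β) q := by rw [sumW_mul_left]; rfl
    _ = θ * tot W (p + p' + r) β q := by rw [add_assoc, tot_add W p (p' + r)]

end Pool.Agent.H691R2.Skew
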