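import Mathlib
import Pool.Agent.H691R2.Skew.Defs2

set_option autoImplicit false

/-! # Readings -/

namespace Pool.Agent.H691R2.Skew

open Finset
open scoped NNReal

universe u v

variable {t h m : ℕ}

theorem card_G (h : ℕ) : (G h).card = 2 ^ h - 1 := by
  have h0 : (⟨0, Nat.two_pow_pos h⟩ : Fin (2 ^ h)) ∈ (univ : Finset (Fin (2 ^ h))) := mem_univ _
  have : G h = univ.erase ⟨0, Nat.two_pow_pos h⟩ := by
    ext g
    simp only [G, Finset.mem_filter, Finset.mem_univ, true_and, Finset.mem_erase, and_true, ne_eq]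
    constructor
    · intro hg hcon
      exact hg (by rw [hcon])
    · intro hg hcon
      exact hg (Fin.ext hcon)
  rw [this, Finset.card_erase_of_mem h0, Finset.card_univ, Fintype.card_fin]

lemma letter_inj (j : Fin t) (ψ : Fin (2 ^ h) → Fin m) : Function.Injective (letter j ψ) := by
  intro g g' hg
  simp only [letter, Prod.mk.injEq] at hg
  exact hg.2.1

lemma mem_lets {j : Fin t} {ψ : Fin (2 ^ h) → Fin m} {A : Finset (Fin (2 ^ h))}
    {x : Var t h m} : x ∈ lets j ψ A ↔ ∃ g ∈ A, letter j ψ g = x := by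
  simp only [lets, Multiset.mem_map, Finset.mem_val]

lemma nodup_lets (j : Fin t) (ψ : Fin (2 ^ h) → Fin m) (A : Finset (Fin (2 ^ h))) :
    (lets j ψ A).Nodup := Multiset.Nodup.map (letter_inj j ψ) A.nodup

theorem lets_inj {j : Fin t} {ψ ψ' : Fin (2 ^ h) → Fin m} {A A' : Finset (Fin (2 ^ h))}
    (he : lets j ψ A = lets j ψ' A') : A = A' ∧ ∀ g ∈ A, ψ (par g) = ψ' (par g) ∧ ψ g = ψ' g := by
  have h1 : ∀ g ∈ A, g ∈ A' ∧ ψ (par g) = ψ' (par g) ∧ ψ g = ψ' g := by
    intro g hg
    have : letter j ψ g ∈ lets j ψ' A' := by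
      rw [← he]; exact mem_lets.mpr ⟨g, hg, rfl⟩
    obtain ⟨g', hg', h2⟩ := mem_lets.mp this
    simp only [letter, Prod.mk.injEq] at h2
    obtain ⟨_, h3, h4, h5⟩ := h2
    subst h3
    exact ⟨hg', h4.symm, h5.symm⟩
  have h2 : ∀ g ∈ A', g ∈ A := by
    intro g hg
    have : letter j ψ' g ∈ lets j ψ A := by
      rw [he]; exact mem_lets.mpr ⟨g, hg, rfl⟩
    obtain ⟨g', hg', h2⟩ := mem_lets.mp this
    simp only [letter, Prod.mk.injEq] at h2
    rw [← h2.2.1]; exact hg'
  exact ⟨Finset.Subset.antisymm (fun g hg => (h1 g hg).1) h2, fun g hg => (h1 g hg).2⟩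

theorem card_lets (j : Fin t) (ψ : Fin (2 ^ h) → Fin m) (A : Finset (Fin (2 ^ h))) :
    (lets j ψ A).card = A.card := by
  simp only [lets, Multiset.card_map, Finset.card_val]

theorem cj_append (j : Fin t) (u v : List (Var t h m)) : cj j (u ++ v) = cj j u + cj j v := by
  simp only [cj, List.filter_append, Multiset.coe_add]

lemma lets_add (j : Fin t) (ψ : Fin (2 ^ h) → Fin m) {A B : Finset (Fin (2 ^ h))}
    (hA : A ⊆ B) : lets j ψ A + lets j ψ (B \ A) = lets j ψ B := by
  unfold lets
  rw [← Multiset.map_add]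
  congr 1
  have h1 : Disjoint A (B \ A) := Finset.disjoint_sdiff
  rw [← Finset.disjUnion_val A (B \ A) h1, Finset.disjUnion_eq_union,
    Finset.union_sdiff_of_subset hA]

theorem split_lets {j : Fin t} {ψ : Fin (2 ^ h) → Fin m} {u v : List (Var t h m)}
    (he : cj j u + cj j v = lets j ψ (G h)) :
    ∃ A ⊆ G h, cj j u = lets j ψ A ∧ cj j v = lets j ψ (G h \ A) := by
  classical
  set A := (G h).filter (fun g => letter j ψ g ∈ cj j u) with hA
  have hle : cj j u ≤ lets j ψ (G h) := by rw [← he]; exact Multiset.le_add_right _ _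
  have hnd : (cj j u).Nodup := Multiset.nodup_of_le hle (nodup_lets _ _ _)
  have h1 : cj j u = lets j ψ A := by
    rw [hnd.ext (nodup_lets _ _ _)]
    intro x
    constructor
    · intro hx
      obtain ⟨g, hg, rfl⟩ := mem_lets.mp (Multiset.mem_of_le hle hx)
      exact mem_lets.mpr ⟨g, Finset.mem_filter.mpr ⟨hg, hx⟩, rfl⟩
    · intro hx
      obtain ⟨g, hg, rfl⟩ := mem_lets.mp hx
      exact (Finset.mem_filter.mp hg).2
  refine ⟨A, Finset.filter_subset _ _, h1, ?_⟩
  rw [h1, ← lets_add j ψ (Finset.filter_subset _ _ : A ⊆ G h)] at he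
  exact add_left_cancel he

lemma cj_eq_filter (j : Fin t) (w : List (Var t h m)) :
    cj j w = Multiset.filter (fun x => x.1 = j) (w : Multiset (Var t h m)) := by
  simp only [cj, Multiset.filter_coe]

lemma filter_lets (j j' : Fin t) (ψ : Fin (2 ^ h) → Fin m) (A : Finset (Fin (2 ^ h))) :
    Multiset.filter (fun x : Var t h m => x.1 = j) (lets j' ψ A) =
      if j' = j then lets j' ψ A else 0 := by
  split_ifs with hj
  · rw [Multiset.filter_eq_self]
    intro x hx
    obtain ⟨g, _, rfl⟩ := mem_lets.mp hx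
    exact hj
  · rw [Multiset.filter_eq_nil]
    intro x hx
    obtain ⟨g, _, rfl⟩ := mem_lets.mp hx
    exact hj

lemma filter_mon (j : Fin t) (φ : Fin t → Fin (2 ^ h) → Fin m) :
    Multiset.filter (fun x : Var t h m => x.1 = j) (mon φ) = lets j (φ j) (G h) := by
  classical
  have : ∀ s : Finset (Fin t), Multiset.filter (fun x : Var t h m => x.1 = j)
      (∑ j' ∈ s, lets j' (φ j') (G h)) = ∑ j' ∈ s, if j' = j then lets j' (φ j') (G h) else 0 := by
    intro s
    induction s using Finset.induction_on with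
    | empty => simp
    | insert a s ha ih =>
      rw [Finset.sum_insert ha, Finset.sum_insert ha, Multiset.filter_add, ih, filter_lets]
  unfold mon
  rw [this, Finset.sum_ite_eq' univ j]
  simp

theorem cj_of_mon {φ : Fin t → Fin (2 ^ h) → Fin m} {w : List (Var t h m)}
    (hw : (w : Multiset (Var t h m)) = mon φ) (j : Fin t) : cj j w = lets j (φ j) (G h) := by
  rw [cj_eq_filter, hw, filter_mon]

theorem card_mon (φ : Fin t → Fin (2 ^ h) → Fin m) : (mon φ).card = t * (2 ^ h - 1) := by
  unfold mon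
  rw [Multiset.card_sum]
  simp only [card_lets, card_G, Finset.sum_const, Finset.card_univ, Fintype.card_fin, smul_eq_mul]

theorem mon_inj (hh : 1 ≤ h) {φ φ' : Fin t → Fin (2 ^ h) → Fin m} (he : mon φ = mon φ') :
    φ = φ' := by
  funext j g
  have h1 : lets j (φ j) (G h) = lets j (φ' j) (G h) := by
    rw [← filter_mon, ← filter_mon, he]
  have h2 := (lets_inj h1).2
  have hlt : 1 < 2 ^ h := Nat.one_lt_two_pow (by omega)
  by_cases hg : g.1 = 0
  · have h3 := (h2 ⟨1, hlt⟩ (by simp [G])).1
    have h4 : par (⟨1, hlt⟩ : Fin (2 ^ h)) = g := by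
      apply Fin.ext
      simp only [par]
      omega
    rwa [h4] at h3
  · exact (h2 g (by
      simp only [G, Finset.mem_filter, Finset.mem_univ, true_and, ne_eq]; exact hg)).2

theorem coeff_treePoly (K : Type u) [CommSemiring K] (hh : 1 ≤ h)
    (φ : Fin t → Fin (2 ^ h) → Fin m) :
    (treePoly K t h m).coeff (Multiset.toFinsupp (mon φ)) = 1 := by
  classical
  have h1 : treePoly K t h m = ∑ φ' : Fin t → Fin (2 ^ h) → Fin m,
      MvPolynomial.monomial (Multiset.toFinsupp (mon φ')) (1 : K) := by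
    unfold treePoly
    rw [Finset.prod_univ_sum]
    rw [Fintype.piFinset_univ]
    refine Finset.sum_congr rfl (fun φ' _ => ?_)
    have h2 : ∀ (j : Fin t) (ψ : Fin (2 ^ h) → Fin m) (A : Finset (Fin (2 ^ h))),
        ∏ g ∈ A, (MvPolynomial.X (letter j ψ g) : MvPolynomial (Var t h m) K) =
        MvPolynomial.monomial (Multiset.toFinsupp (lets j ψ A)) 1 := by
      intro j ψ A
      have h3 : Multiset.toFinsupp (lets j ψ A) = ∑ g ∈ A, Finsupp.single (letter j ψ g) 1 := by
        unfold lets
        induction A using Finset.induction_on with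
        | empty => simp
        | insert a s ha ih =>
          rw [Finset.sum_insert ha, ← ih, Finset.insert_val_of_notMem ha, Multiset.map_cons,
            ← Multiset.singleton_add, map_add, Multiset.toFinsupp_singleton]
      rw [h3, MvPolynomial.monomial_sum_one]
      rfl
    simp only [h2]
    unfold mon
    rw [map_sum, MvPolynomial.monomial_sum_one]
  rw [h1, MvPolynomial.coeff_sum]
  simp only [MvPolynomial.coeff_monomial]
  rw [Finset.sum_eq_single φ]
  · rw [if_pos rfl]
  · intro φ' _ hne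
    rw [if_neg]
    intro heq
    exact hne (mon_inj hh (Multiset.toFinsupp.injective heq))
  · intro hcon
    exact absurd (Finset.mem_univ _) hcon

end Pool.Agent.H691R2.Skew
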