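import Pool.Agent.H691R2.Skew.R

set_option autoImplicit false

/-! # S: subdivision -/

namespace Pool.Agent.H691R2.Skew

open Finset
open scoped NNReal

universe u v

variable {t h m : ℕ}

theorem subdivision {Q : Type v} [Fintype Q] (W : Var t h m → Q → Q → ℝ≥0) (β : Q → ℝ≥0) (n : ℕ)
    (Typ : Set (Fin t → Fin (2 ^ h) → Fin m)) (η : ℝ≥0)
    (hw : ∀ L r, L + r ≤ n → ∀ q,
      sumW L (fun w => psi Typ 0 w * act W w (tot W r β) q) ≤ (1 + η) * tot W (L + r) β q)
    (d L r : ℕ) (hn : L + r ≤ n) (q : Q) :
    sumW L (fun w => psi Typ d w * act W w (tot W r β) q) ≤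
      (1 + η) ^ (2 ^ d) * tot W (L + r) β q := by
  induction d generalizing L r q with
  | zero => simpa using hw L r hn q
  | succ d ih =>
    set p := L / 2 with hp
    set p' := L - L / 2 with hp'
    have hL : L = p + p' := by omega
    set c : ℝ≥0 := (1 + η) ^ (2 ^ d) with hc
    have h1 : sumW L (fun w => psi Typ (d + 1) w * act W w (tot W r β) q) =
        sumW p (fun u => sumW p' (fun v => psi Typ (d + 1) (u ++ v) *
          act W (u ++ v) (tot W r β) q)) := by
      conv_lhs => rw [hL]
      exact sumW_append p p' _
    rw [h1]
    have h2 : ∀ u : List (Var t h m), u.length = p →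
        sumW p' (fun v => psi Typ (d + 1) (u ++ v) * act W (u ++ v) (tot W r β) q) ≤
        c * (psi Typ d u * act W u (tot W (p' + r) β) q) := by
      intro u hu
      have h3 : sumW p' (fun v => psi Typ (d + 1) (u ++ v) * act W (u ++ v) (tot W r β) q) =
          psi Typ d u * act W u (fun q' => sumW p' (fun v => psi Typ d v *
            act W v (tot W r β) q')) q := by
        rw [act_sumW W p' u (fun v q' => psi Typ d v * act W v (tot W r β) q') q, ← sumW_mul_left]
        apply sumW_congr
        intro v hv
        have hlen : (u ++ v).length / 2 = u.length := by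
          rw [List.length_append, hu, hv]; omega
        have hl : left (u ++ v) = u := by
          unfold left; rw [hlen, List.take_left']; rfl
        have hr : right (u ++ v) = v := by
          unfold right; rw [hlen, List.drop_left']; rfl
        change psi Typ d (left (u ++ v)) * psi Typ d (right (u ++ v)) * _ = _
        rw [hl, hr, act_append, act_smul]
        ring
      rw [h3]
      have h4 : act W u (fun q' => sumW p' (fun v => psi Typ d v * act W v (tot W r β) q')) q ≤
          act W u (fun q' => c * tot W (p' + r) β q') q :=
        act_mono W u (fun q' => ih p' r (by omega) q') q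
      rw [act_smul] at h4
      calc psi Typ d u * act W u (fun q' => sumW p' (fun v => psi Typ d v *
            act W v (tot W r β) q')) q ≤ psi Typ d u * (c * act W u (tot W (p' + r) β) q) := by
            gcongr
        _ = _ := by ring
    calc sumW p (fun u => sumW p' (fun v => psi Typ (d + 1) (u ++ v) *
          act W (u ++ v) (tot W r β) q)) ≤
        sumW p (fun u => c * (psi Typ d u * act W u (tot W (p' + r) β) q)) :=
          sumW_mono h2
      _ = c * sumW p (fun u => psi Typ d u * act W u (tot W (p' + r) β) q) := sumW_mul_left _ _ _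
      _ ≤ c * (c * tot W (p + (p' + r)) β q) := by
          gcongr
          exact ih p (p' + r) (by omega) q
      _ = (1 + η) ^ (2 ^ (d + 1)) * tot W (L + r) β q := by
          have e1 : p + (p' + r) = L + r := by omega
          rw [e1, ← mul_assoc, hc, ← pow_add]
          congr 2
          ring

section depth

open Classical in
/-- the number of copies read completely -/
private noncomputable def CF (w : List (Var t h m)) : ℕ :=
  (univ.filter (fun j : Fin t => Full j w)).card

private lemma left_append_right (w : List (Var t h m)) : left w ++ right w = w :=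
  List.take_append_drop _ _

private lemma cj_split (j : Fin t) (w : List (Var t h m)) :
    cj j w = cj j (left w) + cj j (right w) := by
  rw [← cj_append, left_append_right]

private lemma length_left (w : List (Var t h m)) : (left w).length = w.length / 2 := by
  unfold left; rw [List.length_take]; omega

private lemma length_right (w : List (Var t h m)) : (right w).length = w.length - w.length / 2 := by
  unfold right; rw [List.length_drop]

private lemma CF_le (w : List (Var t h m)) :
    CF w ≤ (Jset w).card + CF (left w) + CF (right w) := by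
  classical
  unfold CF
  have hsub : (univ.filter (fun j : Fin t => Full j w)) ⊆
      (Jset w ∪ univ.filter (fun j : Fin t => Full j (left w))) ∪
        univ.filter (fun j : Fin t => Full j (right w)) := by
    intro j hj
    rw [Finset.mem_filter] at hj
    have hs := cj_split j w
    by_cases h1 : cj j (right w) = 0
    · rw [h1, add_zero] at hs
      rw [Finset.mem_union, Finset.mem_union]
      left; right
      rw [Finset.mem_filter]
      obtain ⟨ψ, hψ⟩ := hj.2
      exact ⟨Finset.mem_univ _, ψ, by rw [← hs, hψ]⟩
    · by_cases h2 : cj j (left w) = 0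
      · rw [h2, zero_add] at hs
        rw [Finset.mem_union]
        right
        rw [Finset.mem_filter]
        obtain ⟨ψ, hψ⟩ := hj.2
        exact ⟨Finset.mem_univ _, ψ, by rw [← hs, hψ]⟩
      · rw [Finset.mem_union, Finset.mem_union]
        left; left
        unfold Jset
        rw [Finset.mem_filter]
        exact ⟨Finset.mem_univ _, hj.2, h2, h1⟩
  have h3 := Finset.card_le_card hsub
  have h4 := Finset.card_union_le (Jset w ∪ univ.filter (fun j : Fin t => Full j (left w)))
    (univ.filter (fun j : Fin t => Full j (right w)))
  have h5 := Finset.card_union_le (Jset w) (univ.filter (fun j : Fin t => Full j (left w)))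
  omega

private lemma CF_le_sum (hh : 2 ≤ h) (D : ℕ) : ∀ w : List (Var t h m), w.length ≤ 2 ^ D →
    CF w ≤ ∑ d ∈ range D, E d w := by
  classical
  induction D with
  | zero =>
    intro w hw
    simp only [pow_zero] at hw
    rw [Finset.range_zero, Finset.sum_empty]
    unfold CF
    rw [Nat.le_zero, Finset.card_eq_zero, Finset.filter_eq_empty_iff]
    rintro j - ⟨ψ, hψ⟩
    have h1 : (cj j w).card ≤ w.length := by
      unfold cj
      rw [Multiset.coe_card]
      exact List.length_filter_le _ _
    rw [hψ, card_lets, card_G] at h1
    have h2 : 2 ^ 2 ≤ 2 ^ h := Nat.pow_le_pow_right (by norm_num) hh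
    omega
  | succ D ih =>
    intro w hw
    rw [Finset.sum_range_succ']
    have h1 := CF_le w
    have h2 := ih (left w) (by rw [length_left]; rw [pow_succ] at hw; omega)
    have h3 := ih (right w) (by rw [length_right]; rw [pow_succ] at hw; omega)
    have h4 : ∑ d ∈ range D, E (d + 1) w = ∑ d ∈ range D, E d (left w) +
        ∑ d ∈ range D, E d (right w) := by
      rw [← Finset.sum_add_distrib]
      rfl
    have h5 : E 0 w = (Jset w).card := rfl
    omega

private lemma cj_infix {w' w : List (Var t h m)} (hi : w' <:+: w) (j : Fin t) :
    cj j w' ≤ cj j w := by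
  obtain ⟨a, b, rfl⟩ := hi
  rw [cj_append, cj_append]
  calc cj j w' ≤ cj j a + cj j w' := Multiset.le_add_left _ _
    _ ≤ _ := Multiset.le_add_right _ _

private lemma psi_eq {Typ : Set (Fin t → Fin (2 ^ h) → Fin m)}
    {φ : Fin t → Fin (2 ^ h) → Fin m} (hφ : φ ∈ Typ) (w : List (Var t h m))
    (hw : (w : Multiset (Var t h m)) = mon φ) (d : ℕ) : ∀ w' : List (Var t h m), w' <:+: w →
    psi Typ d w' = 2 ^ E d w' := by
  classical
  induction d with
  | zero =>
    intro w' hi
    have hc : Compat Typ w' := by
      refine ⟨φ, hφ, fun j hj => ?_⟩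
      unfold Jset at hj
      rw [Finset.mem_filter] at hj
      obtain ⟨ψ, hψ⟩ := hj.2.1
      have h1 : cj j w' ≤ lets j (φ j) (G h) := by
        rw [← cj_of_mon hw j]
        exact cj_infix hi j
      apply Multiset.eq_of_le_of_card_le h1
      rw [hψ, card_lets, card_lets]
    unfold psi
    rw [if_pos hc]
    rfl
  | succ d ih =>
    intro w' hi
    have h1 : left w' <:+: w := (List.take_prefix _ _).isInfix.trans hi
    have h2 : right w' <:+: w := (List.drop_suffix _ _).isInfix.trans hi
    change psi Typ d (left w') * psi Typ d (right w') = 2 ^ (E d (left w') + E d (right w'))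
    rw [ih _ h1, ih _ h2, pow_add]

end depth

theorem exists_depth (hh : 2 ≤ h) {Typ : Set (Fin t → Fin (2 ^ h) → Fin m)}
    {φ : Fin t → Fin (2 ^ h) → Fin m} (hφ : φ ∈ Typ) (w : List (Var t h m))
    (hw : (w : Multiset (Var t h m)) = mon φ) (D : ℕ) (hD : w.length ≤ 2 ^ D) (hD1 : 1 ≤ D) :
    ∃ d < D, t ≤ D * E d w ∧ psi Typ d w = 2 ^ E d w := by
  classical
  have h1 : CF w = t := by
    unfold CF
    rw [Finset.filter_true_of_mem, Finset.card_univ, Fintype.card_fin]
    intro j _
    exact ⟨φ j, cj_of_mon hw j⟩
  have h2 := CF_le_sum hh D w hD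
  rw [h1] at h2
  by_contra hcon
  push Not at hcon
  have h3 : ∀ d ∈ range D, D * E d w < t := by
    intro d hd
    by_contra h4
    exact hcon d (Finset.mem_range.mp hd) (not_lt.mp h4) (psi_eq hφ w hw d w (List.infix_refl w))
  have h4 : ∑ d ∈ range D, D * E d w < ∑ d ∈ range D, t :=
    Finset.sum_lt_sum_of_nonempty (Finset.nonempty_range_iff.mpr (by omega)) h3
  rw [← Finset.mul_sum, Finset.sum_const, Finset.card_range, smul_eq_mul] at h4
  have h5 := Nat.lt_of_mul_lt_mul_left h4
  omega

end Pool.Agent.H691R2.Skew
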