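import Mathlib
import Pool.Agent.H691R2.Skew.Defs2

set_option autoImplicit false

/-! # Isoperimetry in the complete binary tree -/

namespace Pool.Agent.H691R2.Skew

open Finset
open scoped NNReal

/-! ### Number of digit changes -/

/-- The number of digit changes in the binary expansion `…000n`. -/
def Alt (n : ℕ) : ℕ :=
  if h : n = 0 then 0 else Alt (n / 2) + (if n % 2 = (n / 2) % 2 then 0 else 1)
termination_by n
decreasing_by omega

lemma Alt_zero : Alt 0 = 0 := by rw [Alt]; simp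

lemma Alt_even (a : ℕ) : Alt (2 * a) = Alt a + (if a % 2 = 0 then 0 else 1) := by
  rcases Nat.eq_zero_or_pos a with h | h
  · subst h; simp [Alt_zero]
  · rw [Alt, dif_neg (by omega)]
    have h1 : 2 * a / 2 = a := by omega
    have h2 : 2 * a % 2 = 0 := by omega
    rw [h1, h2]
    simp only [eq_comm]

lemma Alt_odd (a : ℕ) : Alt (2 * a + 1) = Alt a + (if a % 2 = 1 then 0 else 1) := by
  rw [Alt, dif_neg (by omega)]
  have h1 : (2 * a + 1) / 2 = a := by omega
  have h2 : (2 * a + 1) % 2 = 1 := by omega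
  rw [h1, h2]
  simp only [eq_comm]

lemma Alt_succ (n : ℕ) : Alt (n + 1) ≤ Alt n + 1 ∧ Alt n ≤ Alt (n + 1) + 1 := by
  induction n using Nat.strong_induction_on with
  | _ n ih =>
    rcases Nat.even_or_odd' n with ⟨a, rfl | rfl⟩
    · rw [Alt_even, Alt_odd]
      split_ifs <;> omega
    · have e : 2 * a + 1 + 1 = 2 * (a + 1) := by ring
      rw [e, Alt_even, Alt_odd]
      have := ih a (by omega)
      split_ifs <;> omega

lemma Alt_add_two_pow (j : ℕ) : ∀ n : ℕ, Alt (n + 2 ^ j) ≤ Alt n + 2 ∧ Alt n ≤ Alt (n + 2 ^ j) + 2 := by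
  induction j with
  | zero => intro n; have := Alt_succ n; rw [pow_zero]; omega
  | succ j ih =>
    intro n
    rcases Nat.eq_zero_or_pos j with hj | hj
    · subst hj
      have h1 := Alt_succ n
      have h2 := Alt_succ (n + 1)
      have e : n + 2 ^ (0 + 1) = n + 1 + 1 := by norm_num
      rw [e]; omega
    · obtain ⟨i, rfl⟩ : ∃ i, j = i + 1 := ⟨j - 1, by omega⟩
      rcases Nat.even_or_odd' n with ⟨a, rfl | rfl⟩
      · have e : 2 * a + 2 ^ (i + 1 + 1) = 2 * (a + 2 ^ (i + 1)) := by ring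
        have e2 : (a + 2 ^ (i + 1)) % 2 = a % 2 := by
          rw [pow_succ]; omega
        rw [e, Alt_even, Alt_even, e2]
        have := ih a
        omega
      · have e : 2 * a + 1 + 2 ^ (i + 1 + 1) = 2 * (a + 2 ^ (i + 1)) + 1 := by ring
        have e2 : (a + 2 ^ (i + 1)) % 2 = a % 2 := by
          rw [pow_succ]; omega
        rw [e, Alt_odd, Alt_odd, e2]
        have := ih a
        omega

lemma Alt_add_pred (j n : ℕ) :
    Alt (n + (2 ^ j - 1)) ≤ Alt n + 3 ∧ Alt n ≤ Alt (n + (2 ^ j - 1)) + 3 := by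
  have h1 := Alt_add_two_pow j n
  have h2 := Alt_succ (n + (2 ^ j - 1))
  have e : n + (2 ^ j - 1) + 1 = n + 2 ^ j := by
    have := Nat.one_le_two_pow (n := j)
    omega
  rw [e] at h2
  omega

lemma Alt_add_sum {ι : Type*} (s : Finset ι) (f : ι → ℕ) (n : ℕ) :
    Alt (n + ∑ i ∈ s, (2 ^ f i - 1)) ≤ Alt n + 3 * s.card ∧
      Alt n ≤ Alt (n + ∑ i ∈ s, (2 ^ f i - 1)) + 3 * s.card := by
  classical
  induction s using Finset.induction_on generalizing n with
  | empty => simp
  | insert a s ha ih =>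
    rw [Finset.sum_insert ha, Finset.card_insert_of_notMem ha]
    have h1 := ih (n + (2 ^ f a - 1))
    have h2 := Alt_add_pred (f a) n
    rw [← add_assoc]
    omega

lemma kk_odd (r : ℕ) : kk (r + 1) % 2 = 1 := by
  rw [kk]; omega

lemma Alt_kk (r : ℕ) : Alt (kk (r + 1)) = 2 * r + 1 := by
  induction r with
  | zero =>
    have : kk (0 + 1) = 2 * 0 + 1 := by rw [kk, kk]
    rw [this, Alt_odd, Alt_zero]; rfl
  | succ r ih =>
    have e : kk (r + 1 + 1) = 2 * (2 * kk (r + 1)) + 1 := by rw [kk]; ring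
    rw [e, Alt_odd, Alt_even, ih, kk_odd]
    have : 2 * kk (r + 1) % 2 = 0 := by omega
    rw [this]
    simp; ring

lemma three_kk (r : ℕ) : 3 * kk r + 1 = 4 ^ r := by
  induction r with
  | zero => rfl
  | succ r ih => rw [kk, pow_succ]; omega

theorem kk_le (h : ℕ) : kk (h / 2) ≤ 2 ^ h - 1 := by
  have h1 := three_kk (h / 2)
  have h2 : (4 : ℕ) ^ (h / 2) ≤ 2 ^ h := by
    have : (4 : ℕ) = 2 ^ 2 := by norm_num
    rw [this, ← pow_mul]
    exact Nat.pow_le_pow_right (by norm_num) (by omega)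
  omega

/-! ### The ancestor sum -/

/-- Sum of a function of `g / 2 ^ i`. -/
lemma sum_div_two (n : ℕ) (f : ℕ → ℤ) :
    ∑ g ∈ range (2 ^ (n + 1)), f (g / 2) = 2 * ∑ u ∈ range (2 ^ n), f u := by
  have key : ∀ m : ℕ, ∑ g ∈ range (2 * m), f (g / 2) = 2 * ∑ u ∈ range m, f u := by
    intro m
    induction m with
    | zero => simp
    | succ m ih =>
      have e : 2 * (m + 1) = 2 * m + 1 + 1 := by ring
      rw [e, sum_range_succ, sum_range_succ, ih, sum_range_succ]
      have e1 : (2 * m + 1) / 2 = m := by omega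
      have e2 : (2 * m) / 2 = m := by omega
      rw [e1, e2]; ring
  rw [pow_succ, mul_comm, key]

lemma sum_div_two_pow (i n : ℕ) (f : ℕ → ℤ) :
    ∑ g ∈ range (2 ^ (n + i)), f (g / 2 ^ i) = 2 ^ i * ∑ u ∈ range (2 ^ n), f u := by
  induction i generalizing f with
  | zero => simp
  | succ i ih =>
    have h1 := sum_div_two (n + i) (fun g => f (g / 2 ^ i))
    have e : ∀ g : ℕ, g / 2 / 2 ^ i = g / 2 ^ (i + 1) := fun g => by
      rw [Nat.div_div_eq_div_mul, pow_succ, mul_comm]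
    simp only [e] at h1
    rw [← add_assoc, h1, ih]
    ring

lemma sum_two_pow (n : ℕ) : ∑ i ∈ range n, (2 : ℤ) ^ i = 2 ^ n - 1 := by
  induction n with
  | zero => simp
  | succ n ih => rw [sum_range_succ, ih, pow_succ]; ring

/-- The telescoping identity. -/
lemma ancestor_sum (h : ℕ) (a : ℕ → ℤ) (h0 : a 0 = 0) :
    ∑ g ∈ range (2 ^ h), a g =
      ∑ u ∈ range (2 ^ h), (a u - a (u / 2)) * ((2 : ℤ) ^ (h + 1 - Nat.size u) - 1) := by
  have h1 : ∀ g ∈ range (2 ^ h), a g =
      ∑ i ∈ range h, (a (g / 2 ^ i) - a (g / 2 ^ i / 2)) := by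
    intro g hg
    have e : ∀ i, a (g / 2 ^ i / 2) = a (g / 2 ^ (i + 1)) := fun i => by
      rw [Nat.div_div_eq_div_mul, pow_succ]
    simp only [e]
    rw [sum_range_sub' (fun i => a (g / 2 ^ i))]
    rw [Nat.div_eq_of_lt (mem_range.mp hg), h0]
    simp
  rw [sum_congr rfl h1, sum_comm]
  have h2 : ∀ i ∈ range h, ∑ g ∈ range (2 ^ h), (a (g / 2 ^ i) - a (g / 2 ^ i / 2)) =
      ∑ u ∈ range (2 ^ h), if u < 2 ^ (h - i) then (a u - a (u / 2)) * 2 ^ i else 0 := by
    intro i hi
    have hi' := mem_range.mp hi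
    have h3 := sum_div_two_pow i (h - i) (fun u => a u - a (u / 2))
    rw [Nat.sub_add_cancel hi'.le] at h3
    rw [h3, mul_sum, ← sum_filter]
    have e : (range (2 ^ h)).filter (fun u => u < 2 ^ (h - i)) = range (2 ^ (h - i)) := by
      ext u
      simp only [mem_filter, mem_range]
      constructor
      · exact fun h => h.2
      · intro hu
        exact ⟨lt_of_lt_of_le hu (Nat.pow_le_pow_right (by norm_num) (by omega)), hu⟩
    rw [e]
    exact sum_congr rfl fun u _ => by ring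
  rw [sum_congr rfl h2, sum_comm]
  refine sum_congr rfl fun u hu => ?_
  rcases Nat.eq_zero_or_pos u with h4 | h4
  · subst h4; simp
  · rw [← sum_filter]
    have hs : 1 ≤ Nat.size u := Nat.size_pos.mpr h4
    have hs2 : Nat.size u ≤ h := Nat.size_le.mpr (mem_range.mp hu)
    have e : (range h).filter (fun i => u < 2 ^ (h - i)) = range (h + 1 - Nat.size u) := by
      ext i
      simp only [mem_filter, mem_range, ← Nat.size_le]
      omega
    rw [e, ← mul_sum, sum_two_pow]

/-- Few changes of membership imply few digit changes of the cardinality. -/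
lemma Alt_le (h : ℕ) (a : ℕ → ℤ) (ha : ∀ u, a u = 0 ∨ a u = 1) (h0 : a 0 = 0) (n : ℕ)
    (hn : (n : ℤ) = ∑ g ∈ range (2 ^ h), a g) :
    Alt n ≤ 3 * ((range (2 ^ h)).filter (fun u => a u ≠ a (u / 2))).card := by
  have h1 := ancestor_sum h a h0
  set j : ℕ → ℕ := fun u => h + 1 - Nat.size u with hj
  set P := (range (2 ^ h)).filter (fun u => a u = 1 ∧ a (u / 2) = 0) with hP
  set N := (range (2 ^ h)).filter (fun u => a u = 0 ∧ a (u / 2) = 1) with hN
  have hcast : ∀ u : ℕ, (((2 ^ j u - 1 : ℕ)) : ℤ) = (2 : ℤ) ^ j u - 1 := fun u => by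
    rw [Nat.cast_sub Nat.one_le_two_pow]; simp
  have h2 : n + ∑ u ∈ N, (2 ^ j u - 1) = 0 + ∑ u ∈ P, (2 ^ j u - 1) := by
    have : ((n + ∑ u ∈ N, (2 ^ j u - 1) : ℕ) : ℤ) = ((0 + ∑ u ∈ P, (2 ^ j u - 1) : ℕ) : ℤ) := by
      push_cast [hcast]
      rw [hn, h1, hP, hN, sum_filter, sum_filter, zero_add, ← sum_add_distrib]
      refine sum_congr rfl fun u _ => ?_
      rcases ha u with h3 | h3 <;> rcases ha (u / 2) with h4 | h4 <;> rw [h3, h4] <;> simp [hj]
    exact_mod_cast this
  have h3 := (Alt_add_sum P j 0).1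
  have h4 := (Alt_add_sum N j n).2
  rw [h2] at h4
  rw [Alt_zero] at h3
  have h5 : P.card + N.card ≤ ((range (2 ^ h)).filter (fun u => a u ≠ a (u / 2))).card := by
    rw [← card_union_of_disjoint]
    · apply card_le_card
      intro u hu
      rw [mem_union, hP, hN, mem_filter, mem_filter] at hu
      rw [mem_filter]
      rcases hu with ⟨h6, h7, h8⟩ | ⟨h6, h7, h8⟩
      · exact ⟨h6, by rw [h7, h8]; norm_num⟩
      · exact ⟨h6, by rw [h7, h8]; norm_num⟩
    · rw [Finset.disjoint_left]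
      intro u hu hu'
      rw [hP, mem_filter] at hu
      rw [hN, mem_filter] at hu'
      have := hu.2.1.symm.trans hu'.2.1
      norm_num at this
  omega

/-! ### The boundary -/

section

variable {h : ℕ}

/-- Indicator of `A` on the natural numbers. -/
def ind (A : Finset (Fin (2 ^ h))) (u : ℕ) : ℤ := if ∃ hu : u < 2 ^ h, (⟨u, hu⟩ : Fin (2 ^ h)) ∈ A then 1 else 0

open Classical in
lemma par_mem_bdry {A : Finset (Fin (2 ^ h))} {c : Fin (2 ^ h)} (hc : 2 ≤ c.1)
    (hne : ¬ (c ∈ A ↔ par c ∈ A)) : par c ∈ bdry A := by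
  have h1 : c ∈ G h := by simp only [G, mem_filter, mem_univ, true_and]; omega
  have h2 : par c ∈ G h := by
    simp only [G, mem_filter, mem_univ, true_and, par]; omega
  simp only [bdry, mem_filter, mem_univ, true_and, mem_sdiff]
  by_cases hA : c ∈ A
  · have hp : par c ∉ A := fun h => hne ⟨fun _ => h, fun _ => hA⟩
    exact ⟨⟨c, hA, Or.inr rfl⟩, ⟨par c, ⟨h2, hp⟩, Or.inl rfl⟩⟩
  · have hp : par c ∈ A := by
      by_contra h
      exact hne ⟨fun h' => absurd h' hA, fun h' => absurd h' h⟩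
    exact ⟨⟨par c, hp, Or.inl rfl⟩, ⟨c, ⟨h1, hA⟩, Or.inr rfl⟩⟩

lemma ind_eq (A : Finset (Fin (2 ^ h))) (u : Fin (2 ^ h)) : ind A u.1 = if u ∈ A then 1 else 0 := by
  unfold ind
  by_cases hu : u ∈ A
  · rw [if_pos hu, if_pos ⟨u.2, hu⟩]
  · rw [if_neg hu, if_neg]
    rintro ⟨h1, h2⟩
    exact hu h2

lemma sum_ind (A : Finset (Fin (2 ^ h))) : ((A.card : ℕ) : ℤ) = ∑ g ∈ range (2 ^ h), ind A g := by
  rw [Finset.sum_range]
  simp only [ind_eq]
  simp

lemma card_changes (A : Finset (Fin (2 ^ h))) :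
    ((range (2 ^ h)).filter (fun u => ind A u ≠ ind A (u / 2))).card ≤ 1 + 2 * (bdry A).card := by
  classical
  set S := (range (2 ^ h)).filter (fun u => 2 ≤ u ∧ ind A u ≠ ind A (u / 2)) with hS
  have h1 : (range (2 ^ h)).filter (fun u => ind A u ≠ ind A (u / 2)) ⊆ insert 1 S := by
    intro u hu
    rw [mem_filter] at hu
    rw [mem_insert, hS, mem_filter]
    rcases Nat.lt_or_ge u 2 with h2 | h2
    · have h3 : u = 0 ∨ u = 1 := by omega
      rcases h3 with rfl | rfl
      · exact absurd rfl hu.2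
      · exact Or.inl rfl
    · exact Or.inr ⟨hu.1, h2, hu.2⟩
  have h2 : S.card ≤ 2 * ((bdry A).image Fin.val).card := by
    apply Finset.card_le_mul_card_image_of_maps_to (f := fun u => u / 2)
    · intro u hu
      rw [hS, mem_filter, mem_range] at hu
      obtain ⟨hu1, hu2, hu3⟩ := hu
      rw [mem_image]
      refine ⟨par ⟨u, hu1⟩, par_mem_bdry (c := ⟨u, hu1⟩) hu2 ?_, rfl⟩
      intro hiff
      apply hu3
      have e1 := ind_eq A ⟨u, hu1⟩
      have e2 := ind_eq A (par ⟨u, hu1⟩)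
      have e3 : (par (⟨u, hu1⟩ : Fin (2 ^ h))).1 = u / 2 := rfl
      rw [e3] at e2
      simp only at e1
      rw [e1, e2]
      simp only [hiff]
    · intro b _
      calc (S.filter (fun u => u / 2 = b)).card ≤ ({2 * b, 2 * b + 1} : Finset ℕ).card := by
            apply card_le_card
            intro u hu
            rw [mem_filter] at hu
            rw [mem_insert, mem_singleton]
            omega
        _ ≤ 2 := card_le_two
  have h3 := card_image_le (s := bdry A) (f := Fin.val)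
  have h4 := card_le_card h1
  have h5 := card_insert_le 1 S
  omega

theorem bdry_card {b h : ℕ} (hb : 6 * b ≤ h) (A : Finset (Fin (2 ^ h))) (hA : A ⊆ G h)
    (hk : A.card = kk (h / 2)) : b ≤ (bdry A).card := by
  rcases Nat.eq_zero_or_pos b with h0 | h0
  · omega
  have ha : ∀ u, ind A u = 0 ∨ ind A u = 1 := by
    intro u
    unfold ind
    split_ifs <;> simp
  have ha0 : ind A 0 = 0 := by
    unfold ind
    rw [if_neg]
    rintro ⟨h1, h2⟩
    have := hA h2
    simp [G] at this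
  have h1 := Alt_le h (ind A) ha ha0 A.card (sum_ind A)
  have h2 := card_changes A
  obtain ⟨r, hr⟩ : ∃ r, h / 2 = r + 1 := ⟨h / 2 - 1, by omega⟩
  rw [hk, hr, Alt_kk] at h1
  omega

theorem bdry_pos {h : ℕ} (A : Finset (Fin (2 ^ h))) (hA : A ⊆ G h) (h0 : A ≠ ∅) (h1 : A ≠ G h) :
    1 ≤ (bdry A).card := by
  by_contra hcon
  have hb : bdry A = ∅ := by
    rw [← card_eq_zero]; omega
  have hpar : ∀ c : Fin (2 ^ h), 2 ≤ c.1 → (c ∈ A ↔ par c ∈ A) := by
    intro c hc
    by_contra hne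
    have := par_mem_bdry hc hne
    rw [hb] at this
    exact absurd this (notMem_empty _)
  obtain ⟨x, hx⟩ := nonempty_iff_ne_empty.mpr h0
  have hxG := hA hx
  have hx0 : x.1 ≠ 0 := by simpa [G] using hxG
  have hone : 1 < 2 ^ h := lt_of_le_of_lt (Nat.one_le_iff_ne_zero.mpr hx0) x.2
  have hroot : ∀ n : ℕ, ∀ (hn : n < 2 ^ h), n ≠ 0 → ((⟨n, hn⟩ : Fin (2 ^ h)) ∈ A ↔
      (⟨1, hone⟩ : Fin (2 ^ h)) ∈ A) := by
    intro n
    induction n using Nat.strong_induction_on with
    | _ n ih =>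
      intro hn hn0
      rcases Nat.lt_or_ge n 2 with h2 | h2
      · have : n = 1 := by omega
        subst this
        exact Iff.rfl
      · rw [hpar ⟨n, hn⟩ h2]
        exact ih (n / 2) (by omega) (by omega) (by omega)
  have hr1 : (⟨1, hone⟩ : Fin (2 ^ h)) ∈ A := (hroot x.1 x.2 hx0).mp hx
  apply h1
  apply Subset.antisymm hA
  intro g hg
  have hg0 : g.1 ≠ 0 := by simpa [G] using hg
  exact (hroot g.1 g.2 hg0).mpr hr1

end

end Pool.Agent.H691R2.Skew
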