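import Mathlib
import Pool.Agent.H691R2.Skew.R
import Pool.Agent.H691R2.Skew.C

set_option autoImplicit false

/-! # One window -/

namespace Pool.Agent.H691R2.Skew

open Finset
open scoped NNReal

universe u v

variable {t h m : ℕ}

/-- The word `w` is cut after `p` letters at a set of `𝒜`. -/
def Cut (Typ : Set (Fin t → Fin (2 ^ h) → Fin m)) (J : Finset (Fin t))
    (𝒜 : Finset (Fin t → Finset (Fin (2 ^ h)))) (p : ℕ) (w : List (Var t h m)) : Prop :=
  ∃ φ ∈ Typ, ∃ A ∈ 𝒜, ∀ j ∈ J,
    cj j (w.take p) = lets j (φ j) (A j) ∧ cj j (w.drop p) = lets j (φ j) (G h \ A j)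

lemma card_cj_le (j : Fin t) (w : List (Var t h m)) : (cj j w).card ≤ w.length := by
  simp only [cj, Multiset.coe_card]
  exact List.length_filter_le _ _

lemma exists_prefix (j : Fin t) (w : List (Var t h m)) (k : ℕ) (hk : k ≤ (cj j w).card) :
    ∃ p ≤ w.length, (cj j (w.take p)).card = k := by
  classical
  have hex : ∃ p, k ≤ (cj j (w.take p)).card := ⟨w.length, by rwa [List.take_length]⟩
  have h1 := Nat.find_spec hex
  have h2 : Nat.find hex ≤ w.length := Nat.find_min' hex (by rwa [List.take_length])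
  refine ⟨Nat.find hex, h2, le_antisymm ?_ h1⟩
  rcases Nat.eq_zero_or_pos (Nat.find hex) with h0 | h0
  · rw [h0, List.take_zero]
    simp [cj]
  · obtain ⟨p, hp⟩ := Nat.exists_eq_succ_of_ne_zero h0.ne'
    have h3 : ¬ k ≤ (cj j (w.take p)).card := Nat.find_min hex (by omega)
    have h4 : (cj j (w.take (p + 1))).card ≤ (cj j (w.take p)).card + 1 := by
      rw [List.take_add_one, cj_append, Multiset.card_add]
      have h5 := card_cj_le j (w[p]?.toList)
      have h6 : (w[p]?.toList).length ≤ 1 := by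
        cases w[p]? <;> simp
      omega
    rw [hp]
    simp only [Nat.succ_eq_add_one]
    omega

open Classical in
lemma psi_zero_le (Typ : Set (Fin t → Fin (2 ^ h) → Fin m)) (k N₀ : ℕ) (hk : k ≤ 2 ^ h - 1)
    (w : List (Var t h m)) :
    psi Typ 0 w ≤ 1 + (2 ^ N₀ * ∑ j : Fin t, ∑ p ∈ range (w.length + 1),
        (if Cut Typ {j} (AS j k) p w then (1 : ℝ≥0) else 0)) +
      ∑ J ∈ univ.filter (fun J : Finset (Fin t) => N₀ ≤ J.card),
        2 ^ J.card * (if Cut Typ J (AC J) (w.length / 2) w then (1 : ℝ≥0) else 0) := by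
  rw [psi]
  split_ifs with hc
  swap
  · exact zero_le
  obtain ⟨φ, hφ, hφJ⟩ := hc
  by_cases hJ : (Jset w).card < N₀
  · rcases Finset.eq_empty_or_nonempty (Jset w) with h0 | ⟨j, hj⟩
    · rw [h0, Finset.card_empty, pow_zero, add_assoc]
      exact le_self_add
    · have h1 := hφJ j hj
      obtain ⟨p, hp, hpk⟩ := exists_prefix j w k (by rw [h1, card_lets, card_G]; exact hk)
      have h2 : cj j (w.take p) + cj j (w.drop p) = lets j (φ j) (G h) := by
        rw [← cj_append, List.take_append_drop, h1]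
      obtain ⟨A, hA, h3, h4⟩ := split_lets h2
      have hcut : Cut Typ {j} (AS j k) p w := by
        refine ⟨φ, hφ, fun j' => if j' = j then A else ∅, ?_, ?_⟩
        · simp only [AS, Finset.mem_filter, Finset.mem_univ, true_and, if_true]
          refine ⟨hA, ?_, ?_⟩
          · rw [h3, card_lets] at hpk
            exact hpk
          · intro j' hj'
            rw [if_neg hj']
        · intro j' hj'
          rw [Finset.mem_singleton] at hj'
          subst hj'
          simp only [if_true]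
          exact ⟨h3, h4⟩
      have h5 : (1 : ℝ≥0) ≤ ∑ j : Fin t, ∑ p ∈ range (w.length + 1),
          (if Cut Typ {j} (AS j k) p w then (1 : ℝ≥0) else 0) := by
        have h6 : (1 : ℝ≥0) ≤ ∑ p ∈ range (w.length + 1),
            (if Cut Typ {j} (AS j k) p w then (1 : ℝ≥0) else 0) := by
          have h7 : (1 : ℝ≥0) = (if Cut Typ {j} (AS j k) p w then (1 : ℝ≥0) else 0) :=
            (if_pos hcut).symm
          refine le_trans (le_of_eq h7) ?_
          exact Finset.single_le_sum (f := fun p => (if Cut Typ {j} (AS j k) p w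
            then (1 : ℝ≥0) else 0)) (fun _ _ => zero_le) (Finset.mem_range.mpr (by omega))
        exact le_trans h6 (Finset.single_le_sum (f := fun j => ∑ p ∈ range (w.length + 1),
            (if Cut Typ {j} (AS j k) p w then (1 : ℝ≥0) else 0)) (fun _ _ => zero_le)
            (Finset.mem_univ j))
      calc (2 : ℝ≥0) ^ (Jset w).card ≤ 2 ^ N₀ := pow_le_pow_right₀ (by norm_num) hJ.le
        _ = 2 ^ N₀ * 1 := (mul_one _).symm
        _ ≤ 2 ^ N₀ * ∑ j : Fin t, ∑ p ∈ range (w.length + 1),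
          (if Cut Typ {j} (AS j k) p w then (1 : ℝ≥0) else 0) := mul_le_mul_right h5 _
        _ ≤ _ := le_trans le_add_self le_self_add
  · push Not at hJ
    have key : ∀ j : Fin t, ∃ A : Finset (Fin (2 ^ h)), (j ∈ Jset w → (A ⊆ G h ∧ A ≠ ∅ ∧ A ≠ G h ∧
        cj j (w.take (w.length / 2)) = lets j (φ j) A ∧
        cj j (w.drop (w.length / 2)) = lets j (φ j) (G h \ A))) ∧ (j ∉ Jset w → A = ∅) := by
      intro j
      by_cases hj : j ∈ Jset w
      · have h1 := hφJ j hj
        have h2 : cj j (w.take (w.length / 2)) + cj j (w.drop (w.length / 2)) =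
            lets j (φ j) (G h) := by
          rw [← cj_append, List.take_append_drop, h1]
        obtain ⟨A, hA, h3, h4⟩ := split_lets h2
        have h5 := hj
        simp only [Jset, Finset.mem_filter, Finset.mem_univ, true_and] at h5
        obtain ⟨_, h6, h7⟩ := h5
        refine ⟨A, fun _ => ⟨hA, ?_, ?_, h3, h4⟩, fun hn => absurd hj hn⟩
        · rintro rfl
          apply h6
          rw [left, h3]
          simp [lets]
        · rintro rfl
          apply h7
          rw [right, h4]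
          simp [lets]
      · exact ⟨∅, fun h => absurd h hj, fun _ => rfl⟩
    choose A hA using key
    have hcut : Cut Typ (Jset w) (AC (Jset w)) (w.length / 2) w := by
      refine ⟨φ, hφ, A, ?_, ?_⟩
      · simp only [AC, Finset.mem_filter, Finset.mem_univ, true_and]
        refine ⟨fun j hj => ?_, fun j hj => (hA j).2 hj⟩
        obtain ⟨h1, h2, h3, _⟩ := (hA j).1 hj
        exact ⟨h1, h2, h3⟩
      · intro j hj
        obtain ⟨_, _, _, h4, h5⟩ := (hA j).1 hj
        exact ⟨h4, h5⟩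
    have h5 : (2 : ℝ≥0) ^ (Jset w).card = 2 ^ (Jset w).card *
        (if Cut Typ (Jset w) (AC (Jset w)) (w.length / 2) w then (1 : ℝ≥0) else 0) := by
      rw [if_pos hcut, mul_one]
    rw [h5]
    refine le_trans ?_ le_add_self
    exact Finset.single_le_sum (f := fun J : Finset (Fin t) => (2 : ℝ≥0) ^ J.card *
        (if Cut Typ J (AC J) (w.length / 2) w then (1 : ℝ≥0) else 0)) (fun _ _ => zero_le)
        (Finset.mem_filter.mpr ⟨Finset.mem_univ _, hJ⟩)

lemma geom_tail (N₀ a : ℕ) : ∑ N ∈ range a, (if N₀ ≤ N then ((1 : ℝ≥0) / 2) ^ N else 0) ≤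
    2 * (1 / 2) ^ N₀ := by
  have h1 : ∀ b, ∑ N ∈ range (N₀ + b), (if N₀ ≤ N then ((1 : ℝ≥0) / 2) ^ N else 0) +
      2 * (1 / 2) ^ (N₀ + b) = 2 * (1 / 2) ^ N₀ := by
    intro b
    induction b with
    | zero =>
      rw [Nat.add_zero, Finset.sum_eq_zero, zero_add]
      intro N hN
      rw [Finset.mem_range] at hN
      rw [if_neg (by omega)]
    | succ b ih =>
      rw [← Nat.add_assoc, Finset.sum_range_succ, if_pos (by omega), ← ih, pow_succ]
      have h2 : (2 : ℝ≥0) * ((1 / 2) ^ (N₀ + b) * (1 / 2)) = (1 / 2) ^ (N₀ + b) := by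
        rw [mul_comm, mul_assoc]; norm_num
      rw [h2]
      ring
  calc ∑ N ∈ range a, (if N₀ ≤ N then ((1 : ℝ≥0) / 2) ^ N else 0)
      ≤ ∑ N ∈ range (N₀ + a), (if N₀ ≤ N then ((1 : ℝ≥0) / 2) ^ N else 0) :=
        Finset.sum_le_sum_of_subset (Finset.range_subset_range.mpr (by omega))
    _ ≤ _ := by rw [← h1 a]; exact le_self_add

lemma sum_subsets (t N₀ : ℕ) :
    ∑ J ∈ univ.filter (fun J : Finset (Fin t) => N₀ ≤ J.card),
      (2 : ℝ≥0) ^ J.card * (1 / (4 * (t : ℝ≥0))) ^ J.card ≤ 2 * (1 / 2) ^ N₀ := by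
  have h1 : ∑ J ∈ univ.filter (fun J : Finset (Fin t) => N₀ ≤ J.card),
      (2 : ℝ≥0) ^ J.card * (1 / (4 * (t : ℝ≥0))) ^ J.card =
      ∑ J ∈ (univ : Finset (Fin t)).powerset, (fun N => if N₀ ≤ N then
        (2 : ℝ≥0) ^ N * (1 / (4 * (t : ℝ≥0))) ^ N else 0) J.card := by
    rw [Finset.sum_filter, Finset.powerset_univ]
  have h2 := Finset.sum_powerset_apply_card (x := (univ : Finset (Fin t))) (fun N => if N₀ ≤ N then
        (2 : ℝ≥0) ^ N * (1 / (4 * (t : ℝ≥0))) ^ N else 0)
  refine le_trans (le_of_eq (h1.trans h2)) ?_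
  refine le_trans (Finset.sum_le_sum (fun N _ => ?_)) (geom_tail N₀ _)
  split_ifs with h2
  · rw [nsmul_eq_mul, ← mul_pow]
    have h3 : (((univ : Finset (Fin t)).card.choose N : ℕ) : ℝ≥0) ≤ (t : ℝ≥0) ^ N := by
      rw [Finset.card_univ, Fintype.card_fin]
      exact_mod_cast Nat.choose_le_pow t N
    calc (((univ : Finset (Fin t)).card.choose N : ℕ) : ℝ≥0) * (2 * (1 / (4 * (t : ℝ≥0)))) ^ N
        ≤ (t : ℝ≥0) ^ N * (2 * (1 / (4 * (t : ℝ≥0)))) ^ N := mul_le_mul_left h3 _
      _ = (t * (2 * (1 / (4 * (t : ℝ≥0))))) ^ N := (mul_pow _ _ _).symm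
      _ ≤ (1 / 2) ^ N := by
          apply pow_le_pow_left₀ zero_le
          rcases Nat.eq_zero_or_pos t with h0 | h0
          · rw [h0]; simp
          · have : (t : ℝ≥0) ≠ 0 := by exact_mod_cast h0.ne'
            apply le_of_eq
            field_simp
            norm_num
  · simp

open Classical in
theorem window {Q : Type v} [Fintype Q] (W : Var t h m → Q → Q → ℝ≥0) (β : Q → ℝ≥0) (n : ℕ)
    (Typ : Set (Fin t → Fin (2 ^ h) → Fin m)) (k N₀ : ℕ) (hk : k ≤ 2 ^ h - 1) (θ : ℝ≥0)
    (hS : ∀ j, Light W β n Typ {j} (AS j k) θ)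
    (hC : ∀ J : Finset (Fin t), N₀ ≤ J.card →
      Light W β n Typ J (AC J) ((1 / (4 * (t : ℝ≥0))) ^ J.card))
    (L r : ℕ) (hn : L + r ≤ n) (q : Q) :
    sumW L (fun w => psi Typ 0 w * act W w (tot W r β) q) ≤
      (1 + (t * (n + 1) * θ * 2 ^ N₀ + 2 * (1 / 2) ^ N₀)) * tot W (L + r) β q := by
  set T := tot W (L + r) β q with hT
  have hcut : ∀ (J : Finset (Fin t)) (𝒜 : Finset (Fin t → Finset (Fin (2 ^ h)))) (θ' : ℝ≥0),
      (∀ A ∈ 𝒜, (∀ j ∈ J, A j ⊆ G h) ∧ (∀ j, j ∉ J → A j = ∅)) →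
      Light W β n Typ J 𝒜 θ' → ∀ p ≤ L,
      sumW L (fun w => (if Cut Typ J 𝒜 p w then (1 : ℝ≥0) else 0) * act W w (tot W r β) q) ≤
        θ' * T := by
    intro J 𝒜 θ' h1 h2 p hp
    have h3 := cut_ineq W β n Typ J 𝒜 h1 θ' h2 p (L - p) r (by omega) q
    have h4 : p + (L - p) = L := by omega
    rw [h4] at h3
    refine le_trans (le_of_eq ?_) h3
    apply sumW_congr
    intro w _
    by_cases hw : Cut Typ J 𝒜 p w
    · rw [if_pos hw, one_mul]
      exact (if_pos hw).symm
    · rw [if_neg hw, zero_mul]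
      exact (if_neg hw).symm
  have h0 : sumW L (fun w => act W w (tot W r β) q) = T := by
    rw [hT, tot_add]; rfl
  have h1 : sumW L (fun w => psi Typ 0 w * act W w (tot W r β) q) ≤
      sumW L (fun w => act W w (tot W r β) q) +
      (2 ^ N₀ * ∑ j : Fin t, ∑ p ∈ range (L + 1), sumW L (fun w =>
        (if Cut Typ {j} (AS j k) p w then (1 : ℝ≥0) else 0) * act W w (tot W r β) q)) +
      ∑ J ∈ univ.filter (fun J : Finset (Fin t) => N₀ ≤ J.card),
        2 ^ J.card * sumW L (fun w => (if Cut Typ J (AC J) (L / 2) w then (1 : ℝ≥0) else 0) *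
          act W w (tot W r β) q) := by
    simp only [← sumW_sum, ← sumW_mul_left, ← sumW_add]
    apply sumW_mono
    intro w hw
    have h2 := psi_zero_le Typ k N₀ hk w
    rw [hw] at h2
    refine le_trans (mul_le_mul_left h2 _) (le_of_eq ?_)
    simp only [add_mul, one_mul, mul_assoc, Finset.sum_mul]
  have h2 : 2 ^ N₀ * ∑ j : Fin t, ∑ p ∈ range (L + 1), sumW L (fun w =>
        (if Cut Typ {j} (AS j k) p w then (1 : ℝ≥0) else 0) * act W w (tot W r β) q) ≤
      (t * (n + 1) * θ * 2 ^ N₀) * T := by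
    have h3 : ∑ j : Fin t, ∑ p ∈ range (L + 1), sumW L (fun w =>
        (if Cut Typ {j} (AS j k) p w then (1 : ℝ≥0) else 0) * act W w (tot W r β) q) ≤
        ∑ _j : Fin t, ∑ _p ∈ range (L + 1), θ * T := by
      refine Finset.sum_le_sum (fun j _ => Finset.sum_le_sum (fun p hp => ?_))
      refine hcut {j} (AS j k) θ ?_ (hS j) p (by
        have := Finset.mem_range.mp hp; omega)
      intro A hA
      simp only [AS, Finset.mem_filter, Finset.mem_univ, true_and] at hA
      refine ⟨fun j' hj' => ?_, fun j' hj' => hA.2.2 j' ?_⟩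
      · rw [Finset.mem_singleton] at hj'
        rw [hj']; exact hA.1
      · rwa [Finset.mem_singleton] at hj'
    simp only [Finset.sum_const, Finset.card_univ, Fintype.card_fin, Finset.card_range,
      nsmul_eq_mul] at h3
    have h4 : ((L + 1 : ℕ) : ℝ≥0) ≤ (n : ℝ≥0) + 1 := by
      have : L + 1 ≤ n + 1 := by omega
      exact_mod_cast this
    calc 2 ^ N₀ * ∑ j : Fin t, ∑ p ∈ range (L + 1), sumW L (fun w =>
        (if Cut Typ {j} (AS j k) p w then (1 : ℝ≥0) else 0) * act W w (tot W r β) q)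
        ≤ 2 ^ N₀ * ((t : ℝ≥0) * (((L + 1 : ℕ) : ℝ≥0) * (θ * T))) := mul_le_mul_right h3 _
      _ ≤ 2 ^ N₀ * ((t : ℝ≥0) * (((n : ℝ≥0) + 1) * (θ * T))) := by gcongr
      _ = _ := by ring
  have h3 : ∑ J ∈ univ.filter (fun J : Finset (Fin t) => N₀ ≤ J.card),
        2 ^ J.card * sumW L (fun w => (if Cut Typ J (AC J) (L / 2) w then (1 : ℝ≥0) else 0) *
          act W w (tot W r β) q) ≤ (2 * (1 / 2) ^ N₀) * T := by
    calc ∑ J ∈ univ.filter (fun J : Finset (Fin t) => N₀ ≤ J.card),
        2 ^ J.card * sumW L (fun w => (if Cut Typ J (AC J) (L / 2) w then (1 : ℝ≥0) else 0) *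
          act W w (tot W r β) q)
        ≤ ∑ J ∈ univ.filter (fun J : Finset (Fin t) => N₀ ≤ J.card),
          2 ^ J.card * ((1 / (4 * (t : ℝ≥0))) ^ J.card * T) := by
          refine Finset.sum_le_sum (fun J hJ => mul_le_mul_right ?_ _)
          have hJ' := (Finset.mem_filter.mp hJ).2
          refine hcut J (AC J) _ ?_ (hC J hJ') _ (Nat.div_le_self _ _)
          intro A hA
          simp only [AC, Finset.mem_filter, Finset.mem_univ, true_and] at hA
          exact ⟨fun j hj => (hA.1 j hj).1, hA.2⟩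
      _ = (∑ J ∈ univ.filter (fun J : Finset (Fin t) => N₀ ≤ J.card),
          2 ^ J.card * (1 / (4 * (t : ℝ≥0))) ^ J.card) * T := by
          rw [Finset.sum_mul]
          exact Finset.sum_congr rfl (fun J _ => by ring)
      _ ≤ _ := mul_le_mul_left (sum_subsets t N₀) _
  calc sumW L (fun w => psi Typ 0 w * act W w (tot W r β) q) ≤ _ := h1
    _ ≤ T + (t * (n + 1) * θ * 2 ^ N₀) * T + (2 * (1 / 2) ^ N₀) * T := by
        rw [h0]
        exact add_le_add (add_le_add le_rfl h2) h3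
    _ = _ := by ring

end Pool.Agent.H691R2.Skew
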