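import Mathlib
import Pool.Agent.H691R2.Skew.T
import Pool.Agent.H691R2.Skew.R
import Pool.Agent.H691R2.Skew.B
import Pool.Agent.H691R2.Skew.W
import Pool.Agent.H691R2.Skew.S

set_option autoImplicit false

/-! # F: final assembly for automata -/

namespace Pool.Agent.H691R2.Skew

open Finset
open scoped NNReal

universe u v

variable {t h m : ℕ}

namespace FCore

open Classical in
/-- the bad labellings for a family of cut types -/
noncomputable def bad {Q : Type v} [Fintype Q] (W : Var t h m → Q → Q → ℝ≥0) (β : Q → ℝ≥0) (n : ℕ)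
    (J : Finset (Fin t)) (𝒜 : Finset (Fin t → Finset (Fin (2 ^ h)))) (θ : ℝ≥0) :
    Finset (Fin t → Fin (2 ^ h) → Fin m) :=
  univ.filter (fun φ : Fin t → Fin (2 ^ h) → Fin m => ∃ A ∈ 𝒜, ∃ p r, p + r ≤ n ∧ ∃ q,
      θ * tot W (p + r) β q <
        sumW p (fun w => if Cset J A φ w then act W w (tot W r β) q else 0))

open Classical in
theorem light_of_not_bad {Q : Type v} [Fintype Q] (W : Var t h m → Q → Q → ℝ≥0) (β : Q → ℝ≥0)
    (n : ℕ) (J : Finset (Fin t)) (𝒜 : Finset (Fin t → Finset (Fin (2 ^ h)))) (θ : ℝ≥0)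
    (Typ : Set (Fin t → Fin (2 ^ h) → Fin m)) (hT : ∀ φ ∈ Typ, φ ∉ bad W β n J 𝒜 θ) :
    Light W β n Typ J 𝒜 θ := by
  intro φ hφ A hA p r hpr q
  by_contra hcon
  rw [not_le] at hcon
  apply hT φ hφ
  exact Finset.mem_filter.2 ⟨mem_univ _, A, hA, p, r, hpr, q, hcon⟩

/-- the bad labellings for cuts of one copy -/
theorem badS_card {Q : Type v} [Fintype Q] (W : Var t h m → Q → Q → ℝ≥0) (β : Q → ℝ≥0)
    (n b s : ℕ) (hb : 6 * b ≤ h) (hm : 1 ≤ m) (hs : Fintype.card Q ≤ s) (j : Fin t) (θ : ℝ≥0) :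
    ((bad W β n {j} (AS j (kk (h / 2))) θ).card : ℝ≥0) * θ ≤
      (s : ℝ≥0) * (n + 1) ^ 2 * (m : ℝ≥0) ^ (t * 2 ^ h - b) := by
  have := bad_markov W β n {j} (AS j (kk (h / 2))) b (by
    intro A hA
    unfold AS at hA
    rw [mem_filter] at hA
    obtain ⟨-, h1, h2, h3⟩ := hA
    refine ⟨?_, ?_, ?_⟩
    · intro j' hj'
      rw [mem_singleton] at hj'
      rw [hj']; exact h1
    · intro j' hj'
      rw [mem_singleton] at hj'
      exact h3 j' hj'
    · rw [sum_singleton]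
      exact bdry_card hb (A j) h1 h2) hm θ
  refine le_trans this ?_
  gcongr

/-- the bad labellings for proper cuts of the copies in `J` -/
theorem badC_card {Q : Type v} [Fintype Q] (W : Var t h m → Q → Q → ℝ≥0) (β : Q → ℝ≥0)
    (n s : ℕ) (hm : 1 ≤ m) (hs : Fintype.card Q ≤ s) (J : Finset (Fin t)) (θ : ℝ≥0) :
    ((bad W β n J (AC J) θ).card : ℝ≥0) * θ ≤
      (s : ℝ≥0) * (n + 1) ^ 2 * (m : ℝ≥0) ^ (t * 2 ^ h - J.card) := by
  have := bad_markov W β n J (AC J) J.card (by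
    intro A hA
    unfold AC at hA
    rw [mem_filter] at hA
    obtain ⟨-, h1, h3⟩ := hA
    refine ⟨fun j hj => (h1 j hj).1, h3, ?_⟩
    have := Finset.card_nsmul_le_sum J (fun j => (bdry (A j)).card) 1
      (fun j hj => bdry_pos (A j) (h1 j hj).1 (h1 j hj).2.1 (h1 j hj).2.2)
    simpa using this) hm θ
  refine le_trans this ?_
  gcongr

/-- numeric bound for the single copies (reals) -/
theorem numS {t U n b D s m : ℕ} (x : ℝ) (ht : 1 ≤ t) (hnU : n + 1 ≤ U) (hbU : b ≤ U)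
    (hD' : 2 ^ D ≤ 2 * U) (h1 : 2 ^ 12 * t ^ 2 * s * U ^ 5 ≤ m ^ b)
    (hx : x * (1 / (2 ^ (2 * D + 3) * t * (n + 1))) ≤ (s : ℝ) * (n + 1) ^ 2 * (m : ℝ) ^ (U - b)) :
    (t : ℝ) * x ≤ (m : ℝ) ^ U / 4 := by
  have ht0 : (0 : ℝ) < t := by exact_mod_cast ht
  have hn0 : (0 : ℝ) < (n : ℝ) + 1 := by positivity
  have hx2 : x ≤ (s : ℝ) * (n + 1) ^ 2 * (m : ℝ) ^ (U - b) * (2 ^ (2 * D + 3) * t * (n + 1)) := by
    rw [mul_one_div, div_le_iff₀ (by positivity)] at hx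
    exact hx
  have hU : ((n : ℝ) + 1) ^ 3 ≤ (U : ℝ) ^ 3 := by
    have : ((n : ℝ) + 1) ≤ U := by exact_mod_cast hnU
    gcongr
  have hDD : (2 : ℝ) ^ (2 * D + 3) ≤ 32 * (U : ℝ) ^ 2 := by
    have h2 : (2 : ℝ) ^ D ≤ 2 * U := by exact_mod_cast hD'
    have e : (2 : ℝ) ^ (2 * D + 3) = 8 * ((2 : ℝ) ^ D) ^ 2 := by
      rw [pow_add, pow_mul']; ring
    rw [e]
    have h3 : ((2 : ℝ) ^ D) ^ 2 ≤ (2 * U : ℝ) ^ 2 := by gcongr
    nlinarith
  have h1' : (2 : ℝ) ^ 12 * t ^ 2 * s * (U : ℝ) ^ 5 ≤ (m : ℝ) ^ b := by exact_mod_cast h1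
  have hmU : (m : ℝ) ^ b * (m : ℝ) ^ (U - b) = (m : ℝ) ^ U := by
    rw [← pow_add, Nat.add_sub_cancel' hbU]
  calc (t : ℝ) * x ≤ t * ((s : ℝ) * (n + 1) ^ 2 * (m : ℝ) ^ (U - b) *
        (2 ^ (2 * D + 3) * t * (n + 1))) := by gcongr
    _ = (t ^ 2 * s * (m : ℝ) ^ (U - b)) * (((n : ℝ) + 1) ^ 3 * 2 ^ (2 * D + 3)) := by ring
    _ ≤ (t ^ 2 * s * (m : ℝ) ^ (U - b)) * ((U : ℝ) ^ 3 * (32 * (U : ℝ) ^ 2)) := by gcongr
    _ = (2 ^ 12 * t ^ 2 * s * (U : ℝ) ^ 5) * (m : ℝ) ^ (U - b) / 128 := by ring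
    _ ≤ (m : ℝ) ^ b * (m : ℝ) ^ (U - b) / 128 := by gcongr
    _ = (m : ℝ) ^ U / 128 := by rw [hmU]
    _ ≤ (m : ℝ) ^ U / 4 := by
      have : (0 : ℝ) ≤ (m : ℝ) ^ U := by positivity
      linarith

/-- numeric bound for several copies (reals) -/
theorem numC {t U n D s m m₀ N : ℕ} (x : ℝ) (ht : 1 ≤ t) (hnU : n + 1 ≤ U) (hNU : N ≤ U)
    (hm₀ : 2 ≤ m₀) (hm : 4 * t ^ 2 * m₀ ≤ m) (hN : D ≤ N)
    (hx : x * (1 / (4 * (t : ℝ))) ^ N ≤ (s : ℝ) * (n + 1) ^ 2 * (m : ℝ) ^ (U - N)) :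
    x ≤ (s : ℝ) * U ^ 2 * (m : ℝ) ^ U * (1 / (m₀ : ℝ)) ^ D * (1 / (t : ℝ)) ^ N := by
  have ht0 : (0 : ℝ) < t := by exact_mod_cast ht
  have hm0 : (0 : ℝ) < m₀ := by exact_mod_cast (by omega : 0 < m₀)
  have hm1 : (1 : ℝ) ≤ m₀ := by exact_mod_cast (by omega : 1 ≤ m₀)
  have hU : ((n : ℝ) + 1) ^ 2 ≤ (U : ℝ) ^ 2 := by
    have : ((n : ℝ) + 1) ≤ U := by exact_mod_cast hnU
    gcongr
  have hx2 : x ≤ (s : ℝ) * (n + 1) ^ 2 * (m : ℝ) ^ (U - N) * (4 * t) ^ N := by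
    rw [one_div, inv_pow, ← div_eq_mul_inv, div_le_iff₀ (by positivity)] at hx
    exact hx
  have hmN : (4 * (t : ℝ)) ^ N * ((t : ℝ) * m₀) ^ N ≤ (m : ℝ) ^ N := by
    rw [← mul_pow]
    have : (4 * (t : ℝ)) * ((t : ℝ) * m₀) ≤ m := by
      have : (4 * (t : ℝ) ^ 2 * m₀) ≤ m := by exact_mod_cast hm
      nlinarith
    gcongr
  have hmU : (m : ℝ) ^ (U - N) * (m : ℝ) ^ N = (m : ℝ) ^ U := by
    rw [← pow_add, Nat.sub_add_cancel hNU]
  have h4 : (4 * (t : ℝ)) ^ N ≤ (m : ℝ) ^ N * ((1 / (m₀ : ℝ)) ^ N * (1 / (t : ℝ)) ^ N) := by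
    rw [← mul_pow, div_mul_div_comm, one_mul, one_div_pow, mul_one_div, le_div_iff₀ (by positivity),
      mul_comm (m₀ : ℝ)]
    exact hmN
  have h5 : (1 / (m₀ : ℝ)) ^ N ≤ (1 / (m₀ : ℝ)) ^ D := by
    apply pow_le_pow_of_le_one (by positivity) _ hN
    rw [div_le_one hm0]; exact hm1
  calc x ≤ (s : ℝ) * (n + 1) ^ 2 * (m : ℝ) ^ (U - N) * (4 * t) ^ N := hx2
    _ ≤ (s : ℝ) * U ^ 2 * (m : ℝ) ^ (U - N) *
        ((m : ℝ) ^ N * ((1 / (m₀ : ℝ)) ^ N * (1 / (t : ℝ)) ^ N)) := by gcongr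
    _ = (s : ℝ) * U ^ 2 * ((m : ℝ) ^ (U - N) * (m : ℝ) ^ N) *
        ((1 / (m₀ : ℝ)) ^ N * (1 / (t : ℝ)) ^ N) := by ring
    _ = (s : ℝ) * U ^ 2 * (m : ℝ) ^ U * ((1 / (m₀ : ℝ)) ^ N * (1 / (t : ℝ)) ^ N) := by rw [hmU]
    _ ≤ (s : ℝ) * U ^ 2 * (m : ℝ) ^ U * ((1 / (m₀ : ℝ)) ^ D * (1 / (t : ℝ)) ^ N) := by gcongr
    _ = _ := by ring

theorem one_add_pow_le_three (k : ℕ) (hk : 1 ≤ k) (x : ℝ) (hx0 : 0 ≤ x) (hx : x ≤ 1 / k) :
    (1 + x) ^ k ≤ 3 := by
  have hk0 : (0 : ℝ) < k := by exact_mod_cast hk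
  calc (1 + x) ^ k ≤ (Real.exp (1 / k)) ^ k := by
        have := Real.add_one_le_exp (1 / (k : ℝ))
        apply pow_le_pow_left₀ (by positivity)
        linarith
    _ = Real.exp 1 := by
        rw [← Real.exp_nat_mul]
        congr 1
        field_simp
    _ ≤ 3 := by
        have := Real.exp_one_lt_d9
        linarith

theorem sum_pow_card (t : ℕ) (ht : 1 ≤ t) :
    ∑ J : Finset (Fin t), (1 / (t : ℝ)) ^ J.card ≤ 3 := by
  have := Fintype.sum_pow_mul_eq_add_pow (Fin t) (1 / (t : ℝ)) 1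
  simp only [one_pow, mul_one, Fintype.card_fin] at this
  rw [this, add_comm]
  exact one_add_pow_le_three t ht _ (by positivity) le_rfl

/-- at least half of the labellings are typical -/
theorem typ_card {t m U n b D s m₀ : ℕ} {Φ : Type*} [Fintype Φ] [DecidableEq Φ]
    (B1 : Fin t → Finset Φ) (B2 : Finset (Fin t) → Finset Φ)
    (hcard : Fintype.card Φ = m ^ U)
    (ht : 1 ≤ t) (hnU : n + 1 ≤ U) (htU : t ≤ U) (hbU : b ≤ U) (hm₀ : 2 ≤ m₀)
    (hm : 4 * t ^ 2 * m₀ ≤ m)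
    (hD' : 2 ^ D ≤ 2 * U) (h1 : 2 ^ 12 * t ^ 2 * s * U ^ 5 ≤ m ^ b)
    (h2 : 2 ^ 5 * s * U ^ 2 ≤ m₀ ^ D)
    (hB1 : ∀ j, ((B1 j).card : ℝ) * (1 / (2 ^ (2 * D + 3) * t * (n + 1))) ≤
      (s : ℝ) * (n + 1) ^ 2 * (m : ℝ) ^ (U - b))
    (hB2 : ∀ J, ((B2 J).card : ℝ) * (1 / (4 * (t : ℝ))) ^ J.card ≤
      (s : ℝ) * (n + 1) ^ 2 * (m : ℝ) ^ (U - J.card)) :
    (m : ℝ) ^ U / 2 ≤ ((univ.filter (fun φ : Φ => (∀ j, φ ∉ B1 j) ∧
      ∀ J : Finset (Fin t), D + 2 ≤ J.card → φ ∉ B2 J)).card : ℝ) := by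
  set T := univ.filter (fun φ : Φ => (∀ j, φ ∉ B1 j) ∧
      ∀ J : Finset (Fin t), D + 2 ≤ J.card → φ ∉ B2 J) with hT
  have hcov : (univ : Finset Φ) ⊆ T ∪ ((univ.biUnion B1) ∪
      ((univ.filter (fun J : Finset (Fin t) => D + 2 ≤ J.card)).biUnion B2)) := by
    intro φ _
    by_contra hcon
    rw [mem_union, mem_union, not_or, not_or] at hcon
    obtain ⟨hc1, hc2, hc3⟩ := hcon
    apply hc1
    rw [hT, mem_filter]
    refine ⟨mem_univ _, ?_, ?_⟩
    · intro j hj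
      exact hc2 (mem_biUnion.2 ⟨j, mem_univ _, hj⟩)
    · intro J hJ hJ2
      exact hc3 (mem_biUnion.2 ⟨J, mem_filter.2 ⟨mem_univ _, hJ⟩, hJ2⟩)
  have hc : (Fintype.card Φ : ℝ) ≤ T.card + (∑ j, ((B1 j).card : ℝ) +
      ∑ J ∈ univ.filter (fun J : Finset (Fin t) => D + 2 ≤ J.card), ((B2 J).card : ℝ)) := by
    have e1 := card_le_card hcov
    have e2 := card_union_le T ((univ.biUnion B1) ∪
      ((univ.filter (fun J : Finset (Fin t) => D + 2 ≤ J.card)).biUnion B2))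
    have e3 := card_union_le (univ.biUnion B1)
      ((univ.filter (fun J : Finset (Fin t) => D + 2 ≤ J.card)).biUnion B2)
    have e4 : (univ.biUnion B1).card ≤ ∑ j, (B1 j).card := card_biUnion_le
    have e5 : ((univ.filter (fun J : Finset (Fin t) => D + 2 ≤ J.card)).biUnion B2).card ≤
      ∑ J ∈ univ.filter (fun J : Finset (Fin t) => D + 2 ≤ J.card), (B2 J).card := card_biUnion_le
    rw [card_univ] at e1
    exact_mod_cast (by omega : Fintype.card Φ ≤ T.card + (∑ j, (B1 j).card +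
      ∑ J ∈ univ.filter (fun J : Finset (Fin t) => D + 2 ≤ J.card), (B2 J).card))
  have ht0 : (0 : ℝ) < t := by exact_mod_cast ht
  have hs1 : ∑ j, ((B1 j).card : ℝ) ≤ (m : ℝ) ^ U / 4 := by
    have e : ∀ j ∈ (univ : Finset (Fin t)), ((B1 j).card : ℝ) ≤ (m : ℝ) ^ U / 4 / t := by
      intro j _
      rw [le_div_iff₀ ht0, mul_comm]
      exact numS _ ht hnU hbU hD' h1 (hB1 j)
    refine (sum_le_sum e).trans ?_
    rw [sum_const, card_univ, Fintype.card_fin, nsmul_eq_mul]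
    rw [mul_div_cancel₀ _ ht0.ne']
  have hs2 : ∑ J ∈ univ.filter (fun J : Finset (Fin t) => D + 2 ≤ J.card), ((B2 J).card : ℝ) ≤
      (m : ℝ) ^ U / 4 := by
    have hm0 : (0 : ℝ) < m₀ := by exact_mod_cast (by omega : 0 < m₀)
    have e : ∀ J ∈ univ.filter (fun J : Finset (Fin t) => D + 2 ≤ J.card), ((B2 J).card : ℝ) ≤
        (s : ℝ) * U ^ 2 * (m : ℝ) ^ U * (1 / (m₀ : ℝ)) ^ D * (1 / (t : ℝ)) ^ J.card := by
      intro J hJ
      rw [mem_filter] at hJ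
      refine numC _ ht hnU ?_ hm₀ hm (by omega) (hB2 J)
      have := card_le_univ J
      rw [Fintype.card_fin] at this
      omega
    refine (sum_le_sum e).trans ?_
    rw [← mul_sum]
    have e2 : ∑ J ∈ univ.filter (fun J : Finset (Fin t) => D + 2 ≤ J.card),
        (1 / (t : ℝ)) ^ J.card ≤ 3 := by
      refine le_trans ?_ (sum_pow_card t ht)
      exact sum_le_sum_of_subset_of_nonneg (filter_subset _ _) (fun _ _ _ => by positivity)
    have e3 : (s : ℝ) * U ^ 2 * (1 / (m₀ : ℝ)) ^ D ≤ 1 / 32 := by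
      rw [one_div_pow, mul_one_div, div_le_iff₀ (by positivity)]
      have : (2 : ℝ) ^ 5 * s * U ^ 2 ≤ (m₀ : ℝ) ^ D := by exact_mod_cast h2
      linarith
    calc (s : ℝ) * U ^ 2 * (m : ℝ) ^ U * (1 / (m₀ : ℝ)) ^ D *
        ∑ J ∈ univ.filter (fun J : Finset (Fin t) => D + 2 ≤ J.card), (1 / (t : ℝ)) ^ J.card
        ≤ (s : ℝ) * U ^ 2 * (m : ℝ) ^ U * (1 / (m₀ : ℝ)) ^ D * 3 := by gcongr
      _ = ((s : ℝ) * U ^ 2 * (1 / (m₀ : ℝ)) ^ D) * (3 * (m : ℝ) ^ U) := by ring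
      _ ≤ (1 / 32) * (3 * (m : ℝ) ^ U) := by gcongr
      _ ≤ (m : ℝ) ^ U / 4 := by
        have : (0 : ℝ) ≤ (m : ℝ) ^ U := by positivity
        linarith
  rw [hcard] at hc
  push_cast at hc
  linarith

end FCore

open Classical in
/-- The combinatorial core. `s` bounds the number of states, `M` the total weight of all words of
length `t (2 ^ h - 1)`. -/
theorem core {Q : Type v} [Fintype Q] (W : Var t h m → Q → Q → ℝ≥0) (β : Q → ℝ≥0) (q₀ : Q)
    (b D s m₀ : ℕ) (M : ℝ≥0) (hh : 2 ≤ h) (hb : 6 * b ≤ h) (ht : 1 ≤ t)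
    (hm₀ : 2 ≤ m₀) (hm : 4 * t ^ 2 * m₀ ≤ m) (hs : Fintype.card Q ≤ s)
    (hD : t * (2 ^ h - 1) ≤ 2 ^ D) (hD' : 2 ^ D ≤ 2 * (t * 2 ^ h))
    (h1 : 2 ^ 12 * t ^ 2 * s * (t * 2 ^ h) ^ 5 ≤ m ^ b)
    (h2 : 2 ^ 5 * s * (t * 2 ^ h) ^ 2 ≤ m₀ ^ D)
    (hcov : ∀ φ : Fin t → Fin (2 ^ h) → Fin m,
      1 ≤ sumW (t * (2 ^ h - 1)) (fun w => if (w : Multiset (Var t h m)) = mon φ
        then act W w β q₀ else 0))
    (hM : sumW (t * (2 ^ h - 1)) (fun w => act W w β q₀) ≤ M) :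
    (m : ℝ≥0) ^ (t * 2 ^ h) * 2 ^ (t / D) ≤ 6 * D * M := by
  have h2h : 4 ≤ 2 ^ h := by
    calc 4 = 2 ^ 2 := by norm_num
      _ ≤ 2 ^ h := Nat.pow_le_pow_right (by norm_num) hh
  set U := t * 2 ^ h with hU
  set n := t * (2 ^ h - 1) with hn
  have hnU : n + 1 ≤ U := by
    have : t * (2 ^ h - 1) + t = t * 2 ^ h := by
      rw [← Nat.mul_succ]; congr 1; omega
    omega
  have htU : t ≤ U := by rw [hU]; exact Nat.le_mul_of_pos_right t (by omega)
  have hbU : b ≤ U := by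
    have e1 : h < 2 ^ h := Nat.lt_two_pow_self
    have e2 : 2 ^ h ≤ U := by rw [hU]; exact Nat.le_mul_of_pos_left _ ht
    omega
  have hn3 : 3 ≤ n := by
    have : 1 * 3 ≤ t * (2 ^ h - 1) := Nat.mul_le_mul ht (by omega)
    omega
  have hD1 : 1 ≤ D := by
    by_contra hcon
    have : D = 0 := by omega
    rw [this] at hD
    omega
  have hm1 : 1 ≤ m := by
    have : 1 ≤ 4 * t ^ 2 * m₀ := by
      have : 0 < 4 * t ^ 2 * m₀ := by positivity
      omega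
    omega
  set θ : ℝ≥0 := 1 / (2 ^ (2 * D + 3) * t * (n + 1)) with hθ
  set B1 : Fin t → Finset (Fin t → Fin (2 ^ h) → Fin m) :=
    fun j => FCore.bad W β n {j} (AS j (kk (h / 2))) θ with hB1
  set B2 : Finset (Fin t) → Finset (Fin t → Fin (2 ^ h) → Fin m) :=
    fun J => FCore.bad W β n J (AC J) ((1 / (4 * (t : ℝ≥0))) ^ J.card) with hB2
  set T : Finset (Fin t → Fin (2 ^ h) → Fin m) := univ.filter (fun φ => (∀ j, φ ∉ B1 j) ∧
      ∀ J : Finset (Fin t), D + 2 ≤ J.card → φ ∉ B2 J) with hT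
  have hTcard : (m : ℝ) ^ U / 2 ≤ (T.card : ℝ) := by
    refine FCore.typ_card (n := n) (b := b) (s := s) (m₀ := m₀) B1 B2 ?_ ht hnU htU hbU hm₀ hm hD' h1 h2 ?_ ?_
    · simp only [Fintype.card_pi, Fintype.card_fin, prod_const, card_univ]
      rw [hU, mul_comm, pow_mul]
    · intro j
      have : ((B1 j).card : ℝ≥0) * (1 / (2 ^ (2 * D + 3) * t * (n + 1))) ≤
          (s : ℝ≥0) * (n + 1) ^ 2 * (m : ℝ≥0) ^ (U - b) :=
        FCore.badS_card W β n b s hb hm1 hs j θ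
      exact_mod_cast this
    · intro J
      have : ((B2 J).card : ℝ≥0) * (1 / (4 * (t : ℝ≥0))) ^ J.card ≤
          (s : ℝ≥0) * (n + 1) ^ 2 * (m : ℝ≥0) ^ (U - J.card) :=
        FCore.badC_card W β n s hm1 hs J ((1 / (4 * (t : ℝ≥0))) ^ J.card)
      exact_mod_cast this
  have hS : ∀ j, Light W β n (T : Set _) {j} (AS j (kk (h / 2))) θ := by
    intro j
    apply FCore.light_of_not_bad
    intro φ hφ
    rw [Finset.mem_coe, hT, mem_filter] at hφ
    exact hφ.2.1 j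
  have hC : ∀ J : Finset (Fin t), D + 2 ≤ J.card →
      Light W β n (T : Set _) J (AC J) ((1 / (4 * (t : ℝ≥0))) ^ J.card) := by
    intro J hJ
    apply FCore.light_of_not_bad
    intro φ hφ
    rw [Finset.mem_coe, hT, mem_filter] at hφ
    exact hφ.2.2 J hJ
  have hwin := window W β n (T : Set _) (kk (h / 2)) (D + 2) (kk_le h) θ hS hC
  have hη : ((t : ℝ≥0) * (n + 1) * θ * 2 ^ (D + 2) + 2 * (1 / 2) ^ (D + 2)) = (1 / 2) ^ D := by
    have ht0 : (t : ℝ≥0) ≠ 0 := by exact_mod_cast (by omega : t ≠ 0)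
    have hn0 : (n : ℝ≥0) + 1 ≠ 0 := by positivity
    have e1 : (t : ℝ≥0) * (n + 1) * θ * 2 ^ (D + 2) = (1 / 2) ^ (D + 1) := by
      rw [hθ, one_div_pow]
      rw [show 2 * D + 3 = (D + 1) + (D + 2) by ring, pow_add (2 : ℝ≥0) (D + 1) (D + 2)]
      field_simp
    rw [e1]
    ring
  rw [hη] at hwin
  have hsub := subdivision W β n (T : Set _) ((1 / 2) ^ D) hwin
  have hthree : ∀ d, d < D → (1 + (1 / 2 : ℝ≥0) ^ D) ^ (2 ^ d) ≤ 3 := by
    intro d hd
    have h3 : (1 + (1 / 2 : ℝ) ^ D) ^ (2 ^ D) ≤ 3 := by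
      apply FCore.one_add_pow_le_three _ Nat.one_le_two_pow _ (by positivity)
      rw [one_div_pow]; push_cast; exact le_rfl
    have h4 : (1 + (1 / 2 : ℝ) ^ D) ^ (2 ^ d) ≤ (1 + (1 / 2 : ℝ) ^ D) ^ (2 ^ D) := by
      apply pow_le_pow_right₀
      · have : (0 : ℝ) ≤ (1 / 2 : ℝ) ^ D := by positivity
        linarith
      · exact Nat.pow_le_pow_right (by norm_num) hd.le
    exact_mod_cast h4.trans h3
  -- the main chain
  have hcard : ∀ φ : Fin t → Fin (2 ^ h) → Fin m, (mon φ).card = n := fun φ => card_mon φ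
  have hmain : (T.card : ℝ≥0) * 2 ^ (t / D) ≤ 3 * D * M := by
    calc (T.card : ℝ≥0) * 2 ^ (t / D) = ∑ φ ∈ T, 2 ^ (t / D) * 1 := by
          rw [sum_const, nsmul_eq_mul, mul_one]
      _ ≤ ∑ φ ∈ T, 2 ^ (t / D) * sumW n (fun w => if (w : Multiset (Var t h m)) = mon φ
          then act W w β q₀ else 0) := by
          apply sum_le_sum
          intro φ _
          exact mul_le_mul_right (hcov φ) _
      _ = ∑ φ ∈ T, sumW n (fun w => 2 ^ (t / D) * (if (w : Multiset (Var t h m)) = mon φ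
          then act W w β q₀ else 0)) := by
          apply sum_congr rfl
          intro φ _
          rw [sumW_mul_left]
      _ ≤ ∑ φ ∈ T, sumW n (fun w => if (w : Multiset (Var t h m)) = mon φ
          then (∑ d ∈ range D, psi (T : Set _) d w) * act W w β q₀ else 0) := by
          apply sum_le_sum
          intro φ hφ
          apply sumW_mono
          intro w hw
          split_ifs with hwm
          · apply mul_le_mul_left
            obtain ⟨d, hdD, hdt, hpsi⟩ := exists_depth hh (Typ := (T : Set _)) (φ := φ)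
              (by exact_mod_cast hφ) w hwm D (by rw [hw]; exact hD) hD1
            have e1 : t / D ≤ E d w := Nat.div_le_of_le_mul hdt
            calc (2 : ℝ≥0) ^ (t / D) ≤ 2 ^ E d w := pow_le_pow_right₀ (by norm_num) e1
              _ = psi (T : Set _) d w := hpsi.symm
              _ ≤ _ := single_le_sum (f := fun d => psi (T : Set _) d w) (fun _ _ => zero_le)
                (mem_range.2 hdD)
          · simp
      _ = sumW n (fun w => ∑ φ ∈ T, if (w : Multiset (Var t h m)) = mon φ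
          then (∑ d ∈ range D, psi (T : Set _) d w) * act W w β q₀ else 0) := by
          rw [sumW_sum]
      _ ≤ sumW n (fun w => (∑ d ∈ range D, psi (T : Set _) d w) * act W w β q₀) := by
          apply sumW_mono
          intro w _
          by_cases hex : ∃ φ ∈ T, (w : Multiset (Var t h m)) = mon φ
          · obtain ⟨φ0, hφ0, hw0⟩ := hex
            rw [sum_eq_single_of_mem φ0 hφ0]
            · rw [if_pos hw0]
            · intro φ _ hne
              rw [if_neg]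
              intro hcon
              exact hne (mon_inj (by omega) (hcon.symm.trans hw0))
          · push Not at hex
            rw [sum_eq_zero]
            · exact zero_le
            · intro φ hφ
              rw [if_neg (hex φ hφ)]
      _ = sumW n (fun w => ∑ d ∈ range D, psi (T : Set _) d w * act W w β q₀) := by
          apply sumW_congr
          intro w _
          rw [sum_mul]
      _ = ∑ d ∈ range D, sumW n (fun w => psi (T : Set _) d w * act W w β q₀) := by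
          rw [sumW_sum]
      _ ≤ ∑ d ∈ range D, 3 * M := by
          apply sum_le_sum
          intro d hd
          rw [mem_range] at hd
          have e := hsub d n 0 (by omega) q₀
          rw [tot_zero, add_zero] at e
          refine e.trans ?_
          exact mul_le_mul' (hthree d hd) hM
      _ = 3 * D * M := by
          rw [sum_const, card_range, nsmul_eq_mul]; ring
  have hfin : (m : ℝ) ^ U * 2 ^ (t / D) ≤ 6 * D * (M : ℝ) := by
    have e1 : (T.card : ℝ) * 2 ^ (t / D) ≤ 3 * D * (M : ℝ) := by exact_mod_cast hmain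
    have e2 : (m : ℝ) ^ U / 2 * 2 ^ (t / D) ≤ (T.card : ℝ) * 2 ^ (t / D) := by gcongr
    linarith
  exact_mod_cast hfin

end Pool.Agent.H691R2.Skew
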