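import Mathlib
import Pool.Agent.H691R2.Skew.R
import Pool.Agent.H691R2.Skew.A

set_option autoImplicit false

/-! # Absolute values, the support of the polynomial -/

namespace Pool.Agent.H691R2.Skew

open Finset
open scoped NNReal
open Pool.Agent.H567.Nec

universe u v

variable {t h m : ℕ}

/-- The mass of a node of a circuit with respect to an absolute value `w`: a variable has mass `1`,
a constant `c` has mass `w c`, and masses are added at addition gates and multiplied at
multiplication gates. -/
noncomputable def cost {K : Type u} {σ : Type v} [Field K] (w : AbsoluteValue K ℝ)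
    (Φ : Circuit K σ) (i : Fin Φ.N) : ℝ :=
  match hi : Φ.node i with
  | .var _ => 1
  | .const c => w c
  | .add l r => cost w Φ l + cost w Φ r
  | .mul l r => cost w Φ l * cost w Φ r
termination_by i.1
decreasing_by
  · exact Φ.lt i l false (by rw [hi]; rfl)
  · exact Φ.lt i r true (by rw [hi]; rfl)
  · exact Φ.lt i l false (by rw [hi]; rfl)
  · exact Φ.lt i r true (by rw [hi]; rfl)

/-- A field with an absolute value is a normed field. -/
@[reducible] noncomputable def ofAbs {K : Type u} [F : Field K] (w : AbsoluteValue K ℝ) :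
    NormedField K :=
  { F with
    norm := fun x => w x
    dist := fun x y => w (x - y)
    dist_self := fun x => by simp
    dist_comm := fun x y => w.map_sub x y
    dist_triangle := fun x y z => w.sub_le x y z
    eq_of_dist_eq_zero := fun {x y} hxy => by
      have h1 : w (x - y) = 0 := hxy
      exact sub_eq_zero.mp (w.eq_zero.mp h1)
    dist_eq := fun x y => by
      change w (x - y) = w (-x + y)
      rw [w.map_sub]
      congr 1
      ring
    norm_mul := fun x y => w.map_mul x y }

lemma treePoly_eq (K : Type u) [CommSemiring K] :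
    treePoly K t h m = ∑ φ' : Fin t → Fin (2 ^ h) → Fin m,
      MvPolynomial.monomial (Multiset.toFinsupp (mon φ')) (1 : K) := by
  classical
  unfold treePoly
  rw [Finset.prod_univ_sum]
  rw [Fintype.piFinset_univ]
  refine Finset.sum_congr rfl (fun φ' _ => ?_)
  have h2 : ∀ (j : Fin t) (ψ : Fin (2 ^ h) → Fin m) (A : Finset (Fin (2 ^ h))),
      ∏ g ∈ A, (MvPolynomial.X (letter j ψ g) : MvPolynomial (Var t h m) K) =
      MvPolynomial.monomial (Multiset.toFinsupp (lets j ψ A)) 1 := by
    intro j ψ A
    have h3 : Multiset.toFinsupp (lets j ψ A) = ∑ g ∈ A, Finsupp.single (letter j ψ g) 1 := by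
      unfold lets
      induction A using Finset.induction_on with
      | empty => simp
      | insert a s ha ih =>
        rw [Finset.sum_insert ha, ← ih, Finset.insert_val_of_notMem ha, Multiset.map_cons,
          ← Multiset.singleton_add, map_add, Multiset.toFinsupp_singleton]
    rw [h3, MvPolynomial.monomial_sum_one]
    rfl
  simp only [h2]
  unfold mon
  rw [map_sum, MvPolynomial.monomial_sum_one]

lemma coeff_treePoly' (K : Type u) [CommSemiring K] (μ : Var t h m →₀ ℕ)
    (hμ : ∀ φ : Fin t → Fin (2 ^ h) → Fin m, Multiset.toFinsupp (mon φ) ≠ μ) :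
    (treePoly K t h m).coeff μ = 0 := by
  classical
  rw [treePoly_eq, MvPolynomial.coeff_sum]
  apply Finset.sum_eq_zero
  intro φ _
  rw [MvPolynomial.coeff_monomial, if_neg (hμ φ)]

lemma coeff_treePoly_zero_or_one (K : Type u) [CommSemiring K] (hh : 1 ≤ h)
    (μ : Var t h m →₀ ℕ) :
    (treePoly K t h m).coeff μ = 0 ∨ (treePoly K t h m).coeff μ = 1 := by
  by_cases hc : ∃ φ : Fin t → Fin (2 ^ h) → Fin m, Multiset.toFinsupp (mon φ) = μ
  · obtain ⟨φ, rfl⟩ := hc
    exact Or.inr (coeff_treePoly K hh φ)
  · push Not at hc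
    exact Or.inl (coeff_treePoly' K μ hc)

open Classical in
lemma support_treePoly (K : Type u) [Field K] (hh : 1 ≤ h) :
    (treePoly K t h m).support =
      (univ : Finset (Fin t → Fin (2 ^ h) → Fin m)).image
        (fun φ => Multiset.toFinsupp (mon φ)) := by
  ext μ
  rw [MvPolynomial.mem_support_iff, Finset.mem_image]
  constructor
  · intro hμ
    by_contra hc
    push Not at hc
    exact hμ (coeff_treePoly' K μ (fun φ => hc φ (Finset.mem_univ _)))
  · rintro ⟨φ, _, rfl⟩
    rw [coeff_treePoly K hh φ]
    exact one_ne_zero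

lemma card_labellings : Fintype.card (Fin t → Fin (2 ^ h) → Fin m) = m ^ (t * 2 ^ h) := by
  rw [Fintype.card_fun, Fintype.card_fun, Fintype.card_fin, Fintype.card_fin, Fintype.card_fin,
    ← pow_mul, mul_comm]

lemma card_support_treePoly (K : Type u) [Field K] (hh : 1 ≤ h) :
    (treePoly K t h m).support.card = m ^ (t * 2 ^ h) := by
  classical
  rw [support_treePoly K hh, Finset.card_image_of_injective, Finset.card_univ, card_labellings]
  intro φ φ' he
  exact mon_inj hh (Multiset.toFinsupp.injective he)

lemma totalDegree_treePoly (K : Type u) [Field K] (hh : 1 ≤ h) :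
    (treePoly K t h m).totalDegree ≤ t * (2 ^ h - 1) := by
  classical
  unfold MvPolynomial.totalDegree
  apply Finset.sup_le
  intro μ hμ
  rw [support_treePoly K hh, Finset.mem_image] at hμ
  obtain ⟨φ, _, rfl⟩ := hμ
  have h1 := Multiset.toFinsupp_sum_eq (mon φ)
  rw [card_mon] at h1
  exact le_of_eq h1

section costLemmas

variable {K : Type u} {σ : Type v} [Field K] (w : AbsoluteValue K ℝ) (Φ : Circuit K σ)

lemma cost_var {i : Fin Φ.N} {v : σ} (h : Φ.node i = Node.var v) : cost w Φ i = 1 := by
  rw [cost]
  split
  · rfl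
  all_goals (rename_i h'; rw [h] at h'; cases h')

lemma cost_const {i : Fin Φ.N} {c : K} (h : Φ.node i = Node.const c) :
    cost w Φ i = w c := by
  rw [cost]
  split
  · rename_i h'; rw [h] at h'; cases h'
  · rename_i h'; rw [h] at h'; injection h' with h'; rw [h']
  all_goals (rename_i h'; rw [h] at h'; cases h')

lemma cost_add {i l r : Fin Φ.N} (h : Φ.node i = Node.add l r) :
    cost w Φ i = cost w Φ l + cost w Φ r := by
  rw [cost]
  split
  · rename_i h'; rw [h] at h'; cases h'
  · rename_i h'; rw [h] at h'; cases h'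
  · rename_i h'; rw [h] at h'; injection h' with h1 h2; rw [h1, h2]
  all_goals (rename_i h'; rw [h] at h'; cases h')

lemma cost_mul {i l r : Fin Φ.N} (h : Φ.node i = Node.mul l r) :
    cost w Φ i = cost w Φ l * cost w Φ r := by
  rw [cost]
  split
  · rename_i h'; rw [h] at h'; cases h'
  · rename_i h'; rw [h] at h'; cases h'
  · rename_i h'; rw [h] at h'; cases h'
  · rename_i h'; rw [h] at h'; injection h' with h1 h2; rw [h1, h2]

end costLemmas

lemma mass_ofAbs {K : Type u} [Field K] {σ : Type v} (w : AbsoluteValue K ℝ) (Φ : Circuit K σ)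
    (i : Fin Φ.N) : ((@mass K σ (ofAbs w) Φ i : ℝ≥0) : ℝ) = cost w Φ i := by
  obtain ⟨n, hn⟩ : ∃ n, i.1 = n := ⟨_, rfl⟩
  induction n using Nat.strong_induction_on generalizing i with
  | _ n ih =>
    let inst := ofAbs w
    cases hnode : Φ.node i with
    | var v => rw [cost_var w Φ hnode, mass_var Φ hnode]; simp
    | const c =>
      rw [cost_const w Φ hnode, mass_const Φ hnode]
      rfl
    | add l r =>
      have hl : l.1 < i.1 := Φ.lt i l false (by rw [hnode]; rfl)
      have hr : r.1 < i.1 := Φ.lt i r true (by rw [hnode]; rfl)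
      rw [cost_add w Φ hnode, mass_add Φ hnode, NNReal.coe_add, ih l.1 (by omega) l rfl,
        ih r.1 (by omega) r rfl]
    | mul l r =>
      have hl : l.1 < i.1 := Φ.lt i l false (by rw [hnode]; rfl)
      have hr : r.1 < i.1 := Φ.lt i r true (by rw [hnode]; rfl)
      rw [cost_mul w Φ hnode, mass_mul Φ hnode, NNReal.coe_mul, ih l.1 (by omega) l rfl,
        ih r.1 (by omega) r rfl]

end Pool.Agent.H691R2.Skew
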