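import Mathlib
import Pool.Agent.H691R2.Skew.Defs2

set_option autoImplicit false

/-! # U: the monotone circuit -/

namespace Pool.Agent.H691R2.Skew

open Finset
open scoped NNReal

universe u v

namespace MonC

section reach

open Pool.Agent.H567.Nec

variable {K : Type u} [NormedField K] {σ : Type v}

/-- A variable, with mass `1`. -/
noncomputable def xx (v : σ) : MvPolynomial σ K × ℝ≥0 := (MvPolynomial.X v, 1)

/-- The new value `x` is obtained in one step from values in `F`. -/
def OneStep (F : Set (MvPolynomial σ K × ℝ≥0)) (x : MvPolynomial σ K × ℝ≥0) : Prop :=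
  (∃ v, x = xx v) ∨ x = 0 ∨ x = 1 ∨ (∃ a ∈ F, ∃ b ∈ F, x = a + b) ∨ ∃ a ∈ F, ∃ b ∈ F, x = a * b

/-- A straight-line program of length `n`. -/
def Valid (f : ℕ → MvPolynomial σ K × ℝ≥0) (n : ℕ) : Prop :=
  ∀ i < n, OneStep {x | ∃ l < i, f l = x} (f i)

/-- All elements of `F` are computed by a program of length at most `e`. -/
def Rch (e : ℕ) (F : Set (MvPolynomial σ K × ℝ≥0)) : Prop :=
  ∃ n ≤ e, ∃ f, Valid f n ∧ ∀ x ∈ F, ∃ i < n, f i = x

theorem OneStep.mono {F F' : Set (MvPolynomial σ K × ℝ≥0)} {x : MvPolynomial σ K × ℝ≥0}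
    (h : OneStep F x) (hF : F ⊆ F') : OneStep F' x := by
  rcases h with h | h | h | ⟨a, ha, b, hb, h⟩ | ⟨a, ha, b, hb, h⟩
  · exact Or.inl h
  · exact Or.inr (Or.inl h)
  · exact Or.inr (Or.inr (Or.inl h))
  · exact Or.inr (Or.inr (Or.inr (Or.inl ⟨a, hF ha, b, hF hb, h⟩)))
  · exact Or.inr (Or.inr (Or.inr (Or.inr ⟨a, hF ha, b, hF hb, h⟩)))

theorem rch_mono {e e' : ℕ} {F F' : Set (MvPolynomial σ K × ℝ≥0)} (h : Rch e F) (he : e ≤ e')
    (hF : F' ⊆ F) : Rch e' F' := by
  obtain ⟨n, hn, f, hf, hx⟩ := h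
  exact ⟨n, hn.trans he, f, hf, fun x hx' => hx x (hF hx')⟩

theorem rch_empty : Rch 0 (∅ : Set (MvPolynomial σ K × ℝ≥0)) :=
  ⟨0, le_rfl, fun _ => 0, fun i hi => absurd hi (by omega), fun x hx => absurd hx (by simp)⟩

theorem rch_insert {e : ℕ} {F : Set (MvPolynomial σ K × ℝ≥0)} {x : MvPolynomial σ K × ℝ≥0}
    (h : Rch e F) (hx : OneStep F x) : Rch (e + 1) (insert x F) := by
  obtain ⟨n, hn, f, hf, hF⟩ := h
  have hold : ∀ i < n, Function.update f n x i = f i := fun i hi =>
    Function.update_of_ne (by omega) _ _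
  refine ⟨n + 1, by omega, Function.update f n x, ?_, ?_⟩
  · intro i hi
    rcases Nat.lt_succ_iff_lt_or_eq.1 hi with hi | rfl
    · rw [hold i hi]
      refine (hf i hi).mono ?_
      rintro y ⟨l, hl, rfl⟩
      exact ⟨l, hl, hold l (by omega)⟩
    · rw [Function.update_self]
      refine hx.mono ?_
      intro y hy
      obtain ⟨l, hl, hly⟩ := hF y hy
      exact ⟨l, hl, by rw [hold l hl, hly]⟩
  · intro y hy
    rcases Set.mem_insert_iff.1 hy with rfl | hy
    · exact ⟨n, by omega, Function.update_self _ _ _⟩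
    · obtain ⟨l, hl, hly⟩ := hF y hy
      exact ⟨l, by omega, by rw [hold l hl, hly]⟩

/-- `y` is obtained from `F` with `c` further steps. -/
def Obt (F : Set (MvPolynomial σ K × ℝ≥0)) (c : ℕ) (y : MvPolynomial σ K × ℝ≥0) : Prop :=
  ∀ e F', F ⊆ F' → Rch e F' → Rch (e + c) (insert y F')

variable {F : Set (MvPolynomial σ K × ℝ≥0)}

theorem Obt.mono {F₁ : Set (MvPolynomial σ K × ℝ≥0)} {c c' : ℕ} {y : MvPolynomial σ K × ℝ≥0}
    (h : Obt F c y) (hF : F ⊆ F₁) (hc : c ≤ c') : Obt F₁ c' y := by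
  intro e F' hF' hr
  exact rch_mono (h e F' (hF.trans hF') hr) (by omega) le_rfl

theorem obt_mem {y : MvPolynomial σ K × ℝ≥0} (h : y ∈ F) : Obt F 0 y := by
  intro e F' hF' hr
  rw [Set.insert_eq_of_mem (hF' h)]
  exact hr

theorem obt_xx (v : σ) : Obt F 1 (xx v : MvPolynomial σ K × ℝ≥0) :=
  fun _ _ _ hr => rch_insert hr (Or.inl ⟨v, rfl⟩)

theorem obt_zero : Obt F 1 0 := fun _ _ _ hr => rch_insert hr (Or.inr (Or.inl rfl))

theorem obt_one : Obt F 1 1 := fun _ _ _ hr => rch_insert hr (Or.inr (Or.inr (Or.inl rfl)))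

theorem obt_add {c c' : ℕ} {y y' : MvPolynomial σ K × ℝ≥0} (h : Obt F c y) (h' : Obt F c' y') :
    Obt F (c + c' + 1) (y + y') := by
  intro e F' hF' hr
  have h1 := h e F' hF' hr
  have h2 := h' _ _ (hF'.trans (Set.subset_insert _ _)) h1
  have h3 := rch_insert h2 (x := y + y') (Or.inr (Or.inr (Or.inr (Or.inl
    ⟨y, Or.inr (Or.inl rfl), y', Or.inl rfl, rfl⟩))))
  refine rch_mono h3 (by omega) ?_
  apply Set.insert_subset_insert
  exact (Set.subset_insert _ _).trans (Set.subset_insert _ _)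

theorem obt_mul {c c' : ℕ} {y y' : MvPolynomial σ K × ℝ≥0} (h : Obt F c y) (h' : Obt F c' y') :
    Obt F (c + c' + 1) (y * y') := by
  intro e F' hF' hr
  have h1 := h e F' hF' hr
  have h2 := h' _ _ (hF'.trans (Set.subset_insert _ _)) h1
  have h3 := rch_insert h2 (x := y * y') (Or.inr (Or.inr (Or.inr (Or.inr
    ⟨y, Or.inr (Or.inl rfl), y', Or.inl rfl, rfl⟩))))
  refine rch_mono h3 (by omega) ?_
  apply Set.insert_subset_insert
  exact (Set.subset_insert _ _).trans (Set.subset_insert _ _)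

theorem obt_sum {ι : Type*} (s : Finset ι) (y : ι → MvPolynomial σ K × ℝ≥0) (c : ℕ)
    (h : ∀ i ∈ s, Obt F c (y i)) : Obt F (s.card * (c + 1) + 1) (∑ i ∈ s, y i) := by
  classical
  induction s using Finset.induction_on with
  | empty => exact (obt_zero (F := F)).mono le_rfl (by simp)
  | insert a s ha ih =>
    rw [Finset.sum_insert ha, Finset.card_insert_of_notMem ha]
    exact (obt_add (h a (Finset.mem_insert_self _ _))
      (ih fun i hi => h i (Finset.mem_insert_of_mem hi))).mono le_rfl (by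
        rw [add_mul]; omega)

theorem obt_prod {ι : Type*} (s : Finset ι) (y : ι → MvPolynomial σ K × ℝ≥0) (c : ℕ)
    (h : ∀ i ∈ s, Obt F c (y i)) : Obt F (s.card * (c + 1) + 1) (∏ i ∈ s, y i) := by
  classical
  induction s using Finset.induction_on with
  | empty => exact (obt_one (F := F)).mono le_rfl (by simp)
  | insert a s ha ih =>
    rw [Finset.prod_insert ha, Finset.card_insert_of_notMem ha]
    exact (obt_mul (h a (Finset.mem_insert_self _ _))
      (ih fun i hi => h i (Finset.mem_insert_of_mem hi))).mono le_rfl (by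
        rw [add_mul]; omega)

theorem rch_batch {ι : Type*} (s : Finset ι) (y : ι → MvPolynomial σ K × ℝ≥0) (c : ℕ)
    (h : ∀ i ∈ s, Obt F c (y i)) (e : ℕ) (F' : Set (MvPolynomial σ K × ℝ≥0)) (hF : F ⊆ F')
    (hr : Rch e F') : Rch (e + s.card * c) (F' ∪ y '' s) := by
  classical
  induction s using Finset.induction_on with
  | empty => simpa using hr
  | insert a s ha ih =>
    have h1 := ih fun i hi => h i (Finset.mem_insert_of_mem hi)
    have h2 := h a (Finset.mem_insert_self _ _) _ _ (hF.trans Set.subset_union_left) h1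
    refine rch_mono h2 (by rw [Finset.card_insert_of_notMem ha, add_mul]; omega) ?_
    rw [Finset.coe_insert, Set.image_insert_eq, Set.union_insert]

/-- If a batch of values has been computed, it may be used. -/
theorem obt_batch {ι : Type*} (s : Finset ι) (y : ι → MvPolynomial σ K × ℝ≥0) (c c' : ℕ)
    (h : ∀ i ∈ s, Obt F c (y i)) {z : MvPolynomial σ K × ℝ≥0} (hz : Obt (F ∪ y '' s) c' z) :
    Obt F (s.card * c + c') z := by
  intro e F' hF' hr
  have h1 := rch_batch s y c h e F' hF' hr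
  have h2 := hz _ _ (Set.union_subset_union_left _ hF') h1
  refine rch_mono h2 (by omega) ?_
  exact Set.insert_subset_insert Set.subset_union_left

/-! ### Circuits from programs -/

lemma mass_var (Φ : Circuit K σ) {i : Fin Φ.N} {v : σ} (h : Φ.node i = Node.var v) :
    mass Φ i = 1 := by
  rw [mass]
  split
  · rfl
  all_goals (rename_i h'; rw [h] at h'; cases h')

lemma mass_const (Φ : Circuit K σ) {i : Fin Φ.N} {c : K} (h : Φ.node i = Node.const c) :
    mass Φ i = ‖c‖₊ := by
  rw [mass]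
  split
  · rename_i h'; rw [h] at h'; cases h'
  · rename_i h'; rw [h] at h'; injection h' with h'; rw [h']
  all_goals (rename_i h'; rw [h] at h'; cases h')

lemma mass_add (Φ : Circuit K σ) {i l r : Fin Φ.N} (h : Φ.node i = Node.add l r) :
    mass Φ i = mass Φ l + mass Φ r := by
  rw [mass]
  split
  · rename_i h'; rw [h] at h'; cases h'
  · rename_i h'; rw [h] at h'; cases h'
  · rename_i h'; rw [h] at h'; injection h' with h1 h2; rw [h1, h2]
  all_goals (rename_i h'; rw [h] at h'; cases h')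

lemma mass_mul (Φ : Circuit K σ) {i l r : Fin Φ.N} (h : Φ.node i = Node.mul l r) :
    mass Φ i = mass Φ l * mass Φ r := by
  rw [mass]
  split
  · rename_i h'; rw [h] at h'; cases h'
  · rename_i h'; rw [h] at h'; cases h'
  · rename_i h'; rw [h] at h'; cases h'
  · rename_i h'; rw [h] at h'; injection h' with h1 h2; rw [h1, h2]

lemma value_var (Φ : Circuit K σ) {i : Fin Φ.N} {v : σ} (h : Φ.node i = Node.var v) :
    Φ.value i = MvPolynomial.X v := by
  rw [Circuit.value]
  split
  · rename_i h'; rw [h] at h'; injection h' with h'; rw [h']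
  all_goals (rename_i h'; rw [h] at h'; cases h')

lemma value_const (Φ : Circuit K σ) {i : Fin Φ.N} {c : K} (h : Φ.node i = Node.const c) :
    Φ.value i = MvPolynomial.C c := by
  rw [Circuit.value]
  split
  · rename_i h'; rw [h] at h'; cases h'
  · rename_i h'; rw [h] at h'; injection h' with h'; rw [h']
  all_goals (rename_i h'; rw [h] at h'; cases h')

lemma value_add (Φ : Circuit K σ) {i l r : Fin Φ.N} (h : Φ.node i = Node.add l r) :
    Φ.value i = Φ.value l + Φ.value r := by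
  rw [Circuit.value]
  split
  · rename_i h'; rw [h] at h'; cases h'
  · rename_i h'; rw [h] at h'; cases h'
  · rename_i h'; rw [h] at h'; injection h' with h1 h2; rw [h1, h2]
  all_goals (rename_i h'; rw [h] at h'; cases h')

lemma value_mul (Φ : Circuit K σ) {i l r : Fin Φ.N} (h : Φ.node i = Node.mul l r) :
    Φ.value i = Φ.value l * Φ.value r := by
  rw [Circuit.value]
  split
  · rename_i h'; rw [h] at h'; cases h'
  · rename_i h'; rw [h] at h'; cases h'
  · rename_i h'; rw [h] at h'; cases h'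
  · rename_i h'; rw [h] at h'; injection h' with h1 h2; rw [h1, h2]

/-- Evaluate a node. -/
noncomputable def evalNode {n : ℕ} (f : ℕ → MvPolynomial σ K × ℝ≥0) :
    Node K σ n → MvPolynomial σ K × ℝ≥0
  | .var v => xx v
  | .const c => (MvPolynomial.C c, ‖c‖₊)
  | .add l r => f l + f r
  | .mul l r => f l * f r

theorem exists_circuit {f : ℕ → MvPolynomial σ K × ℝ≥0} {n : ℕ} (hf : Valid f n) :
    ∃ (Φ : Circuit K σ), Φ.N = n ∧ (∀ i : Fin Φ.N, (Φ.value i, mass Φ i) = f i) ∧
      (∀ i, ∀ c, Φ.node i = .const c → c = 0 ∨ c = 1) := by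
  have hnode : ∀ i : Fin n, ∃ nd : Node K σ n, (∀ (p : Bool) (j : Fin n),
      nd.arg p = some j → j < i) ∧ (∀ c, nd = .const c → c = 0 ∨ c = 1) ∧
      evalNode f nd = f i := by
    intro i
    rcases hf i i.2 with ⟨v, h⟩ | h | h | ⟨a, ⟨l, hl, ha⟩, b, ⟨r, hr, hb⟩, h⟩ |
      ⟨a, ⟨l, hl, ha⟩, b, ⟨r, hr, hb⟩, h⟩
    · refine ⟨.var v, ?_, ?_, ?_⟩
      · intro p j hj; cases p <;> simp [Node.arg] at hj
      · intro c hc; cases hc
      · rw [h]; rfl
    · refine ⟨.const 0, ?_, ?_, ?_⟩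
      · intro p j hj; cases p <;> simp [Node.arg] at hj
      · intro c hc; left; injection hc with hc; exact hc.symm
      · rw [h]; simp [evalNode]
    · refine ⟨.const 1, ?_, ?_, ?_⟩
      · intro p j hj; cases p <;> simp [Node.arg] at hj
      · intro c hc; right; injection hc with hc; exact hc.symm
      · rw [h]; simp [evalNode]
    · refine ⟨.add ⟨l, by omega⟩ ⟨r, by omega⟩, ?_, ?_, ?_⟩
      · intro p j hj
        cases p <;> simp only [Node.arg, Option.some.injEq] at hj <;> subst hj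
        · exact hl
        · exact hr
      · intro c hc; cases hc
      · rw [h, ← ha, ← hb]; rfl
    · refine ⟨.mul ⟨l, by omega⟩ ⟨r, by omega⟩, ?_, ?_, ?_⟩
      · intro p j hj
        cases p <;> simp only [Node.arg, Option.some.injEq] at hj <;> subst hj
        · exact hl
        · exact hr
      · intro c hc; cases hc
      · rw [h, ← ha, ← hb]; rfl
  choose node h1 h2 h3 using hnode
  let Φ : Circuit K σ := ⟨n, node, fun i j p h => h1 i p j h⟩
  refine ⟨Φ, rfl, ?_, fun i c h => h2 i c h⟩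
  have key : ∀ k : ℕ, ∀ hk : k < n, (Φ.value ⟨k, hk⟩, mass Φ ⟨k, hk⟩) = f k := by
    intro k
    induction k using Nat.strong_induction_on with
    | _ k ih =>
      intro hk
      have hev := h3 ⟨k, hk⟩
      have hargs := h1 ⟨k, hk⟩
      cases hnd : node ⟨k, hk⟩ with
      | var v =>
        have hn : Φ.node ⟨k, hk⟩ = Node.var v := hnd
        rw [value_var Φ hn, mass_var Φ hn]
        rw [hnd] at hev
        exact hev
      | const c =>
        have hn : Φ.node ⟨k, hk⟩ = Node.const c := hnd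
        rw [value_const Φ hn, mass_const Φ hn]
        rw [hnd] at hev
        exact hev
      | add l r =>
        have hn : Φ.node ⟨k, hk⟩ = Node.add l r := hnd
        rw [value_add Φ hn, mass_add Φ hn]
        rw [hnd] at hev hargs
        have hl : (l : ℕ) < k := hargs false l rfl
        have hr : (r : ℕ) < k := hargs true r rfl
        have e1 := ih l hl l.2
        have e2 := ih r hr r.2
        rw [← hev]
        simp only [evalNode]
        rw [← e1, ← e2]
        rfl
      | mul l r =>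
        have hn : Φ.node ⟨k, hk⟩ = Node.mul l r := hnd
        rw [value_mul Φ hn, mass_mul Φ hn]
        rw [hnd] at hev hargs
        have hl : (l : ℕ) < k := hargs false l rfl
        have hr : (r : ℕ) < k := hargs true r rfl
        have e1 := ih l hl l.2
        have e2 := ih r hr r.2
        rw [← hev]
        simp only [evalNode]
        rw [← e1, ← e2]
        rfl
  intro i
  exact key i i.2

/-! ### Variable elimination -/

/-- The sum over the labellings of the vertices `0, …, v - 1`. -/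
noncomputable def TT (y : ℕ → ℕ → ℕ → MvPolynomial σ K × ℝ≥0) (m : ℕ) (v : ℕ)
    (M : ℕ → ℕ → MvPolynomial σ K × ℝ≥0) : MvPolynomial σ K × ℝ≥0 :=
  ∑ ψ : Fin v → Fin m, (∏ g : Fin v, if h : g.1 = 0 then 1 else
    y g (ψ ⟨g.1 / 2, lt_of_le_of_lt (Nat.div_le_self _ _) g.2⟩) (ψ g)) * ∏ u : Fin v, M u (ψ u)

theorem TT_succ (y : ℕ → ℕ → ℕ → MvPolynomial σ K × ℝ≥0) (m : ℕ) (v : ℕ) (hv : 1 ≤ v)
    (M : ℕ → ℕ → MvPolynomial σ K × ℝ≥0) :
    TT y m (v + 1) M = TT y m v (Function.update M (v / 2)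
      (fun a => M (v / 2) a * ∑ b : Fin m, y v a b * M v b)) := by
  unfold TT
  have hv2 : v / 2 < v := Nat.div_lt_self (by omega) (by norm_num)
  rw [← (Fin.snocEquiv (fun _ : Fin (v + 1) => Fin m)).sum_comp, Fintype.sum_prod_type_right]
  apply Finset.sum_congr rfl
  intro ψ _
  have hsn : ∀ (b : Fin m) (u : Fin v),
      (Fin.snoc (α := fun _ => Fin m) ψ b : Fin (v + 1) → Fin m) (Fin.castSucc u) = ψ u :=
    fun b u => Fin.snoc_castSucc (α := fun _ => Fin m) b ψ u
  have hsl : ∀ b : Fin m,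
      (Fin.snoc (α := fun _ => Fin m) ψ b : Fin (v + 1) → Fin m) (Fin.last v) = b :=
    fun b => Fin.snoc_last (α := fun _ => Fin m) b ψ
  have hpar : ∀ (b : Fin m) (u : ℕ) (hu : u < v) (hu' : u < v + 1),
      (Fin.snoc (α := fun _ => Fin m) ψ b : Fin (v + 1) → Fin m) ⟨u, hu'⟩ = ψ ⟨u, hu⟩ :=
    fun b u hu hu' => hsn b ⟨u, hu⟩
  have e1 : ∀ b : Fin m, (∏ g : Fin (v + 1), if h : g.1 = 0 then (1 : MvPolynomial σ K × ℝ≥0) else
      y g ((Fin.snoc (α := fun _ => Fin m) ψ b : Fin (v + 1) → Fin m)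
        ⟨g.1 / 2, lt_of_le_of_lt (Nat.div_le_self _ _) g.2⟩)
        ((Fin.snoc (α := fun _ => Fin m) ψ b : Fin (v + 1) → Fin m) g)) =
      (∏ g : Fin v, if h : g.1 = 0 then 1 else
        y g (ψ ⟨g.1 / 2, lt_of_le_of_lt (Nat.div_le_self _ _) g.2⟩) (ψ g)) *
      y v (ψ ⟨v / 2, hv2⟩) b := by
    intro b
    rw [Fin.prod_univ_castSucc]
    congr 1
    · apply Finset.prod_congr rfl
      intro g _
      simp only [Fin.val_castSucc]
      split_ifs with h0
      · rfl
      · rw [hsn, hpar b (g.1 / 2) (lt_of_le_of_lt (Nat.div_le_self _ _) g.2)]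
    · simp only [Fin.val_last]
      rw [dif_neg (by omega), hsl, hpar b (v / 2) hv2]
  have e2 : ∀ b : Fin m, (∏ u : Fin (v + 1), M u
      ((Fin.snoc (α := fun _ => Fin m) ψ b : Fin (v + 1) → Fin m) u)) =
      (∏ u : Fin v, M u (ψ u)) * M v b := by
    intro b
    rw [Fin.prod_univ_castSucc]
    simp only [Fin.val_castSucc, Fin.val_last, hsn, hsl]
  have e3 : (∏ u : Fin v, Function.update M (v / 2)
      (fun a => M (v / 2) a * ∑ b : Fin m, y v a b * M v b) u (ψ u)) =
      (∏ u : Fin v, M u (ψ u)) * ∑ b : Fin m, y v (ψ ⟨v / 2, hv2⟩) b * M v b := by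
    rw [← Finset.mul_prod_erase Finset.univ _ (Finset.mem_univ (⟨v / 2, hv2⟩ : Fin v)),
      ← Finset.mul_prod_erase Finset.univ (fun u : Fin v => M u (ψ u))
        (Finset.mem_univ (⟨v / 2, hv2⟩ : Fin v))]
    simp only [Function.update_self]
    have : ∏ x ∈ Finset.univ.erase (⟨v / 2, hv2⟩ : Fin v), Function.update M (v / 2)
        (fun a => M (v / 2) a * ∑ b : Fin m, y v a b * M v b) x (ψ x) =
        ∏ x ∈ Finset.univ.erase (⟨v / 2, hv2⟩ : Fin v), M x (ψ x) := by
      apply Finset.prod_congr rfl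
      intro x hx
      have hne : (x : ℕ) ≠ v / 2 := by
        intro h
        exact (Finset.ne_of_mem_erase hx) (Fin.ext h)
      rw [Function.update_of_ne hne]
    rw [this]
    ring
  rw [e3]
  simp only [Fin.snocEquiv, Equiv.coe_fn_mk]
  calc _ = ∑ b : Fin m, ((∏ g : Fin v, if h : g.1 = 0 then 1 else
        y g (ψ ⟨g.1 / 2, lt_of_le_of_lt (Nat.div_le_self _ _) g.2⟩) (ψ g)) *
      y v (ψ ⟨v / 2, hv2⟩) b) * ((∏ u : Fin v, M u (ψ u)) * M v b) := by
        apply Finset.sum_congr rfl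
        intro b _
        rw [← e1, ← e2]
    _ = _ := by
        rw [← mul_assoc, Finset.mul_sum]
        apply Finset.sum_congr rfl
        intro b _
        ring

theorem TT_one (y : ℕ → ℕ → ℕ → MvPolynomial σ K × ℝ≥0) (m : ℕ)
    (M : ℕ → ℕ → MvPolynomial σ K × ℝ≥0) : TT y m 1 M = ∑ b : Fin m, M 0 b := by
  unfold TT
  rw [← (Equiv.funUnique (Fin 1) (Fin m)).symm.sum_comp]
  apply Finset.sum_congr rfl
  intro b _
  simp

theorem obt_TT (y : ℕ → ℕ → ℕ → MvPolynomial σ K × ℝ≥0) (m : ℕ) (v : ℕ) (hv : 1 ≤ v) :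
    ∀ (F : Set (MvPolynomial σ K × ℝ≥0)) (M : ℕ → ℕ → MvPolynomial σ K × ℝ≥0),
      (∀ u < v, ∀ b < m, M u b ∈ F) → (∀ g < v, ∀ a b, Obt F 1 (y g a b)) →
      Obt F ((v - 1) * (m * (3 * m + 2)) + (m + 1)) (TT y m v M) := by
  induction v, hv using Nat.le_induction with
  | base =>
    intro F M hM hy
    rw [TT_one]
    have := obt_sum (F := F) (Finset.univ : Finset (Fin m)) (fun b => M 0 b) 0
      (fun b _ => obt_mem (hM 0 (by norm_num) b b.2))
    simpa using this
  | succ v hv ih =>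
    intro F M hM hy
    have hv2 : v / 2 < v := Nat.div_lt_self (by omega) (by norm_num)
    rw [TT_succ y m v hv M]
    have hnew : ∀ a ∈ (Finset.univ : Finset (Fin m)), Obt F (3 * m + 2)
        (M (v / 2) (a : Fin m) * ∑ b : Fin m, y v a b * M v b) := by
      intro a _
      have h1 : Obt F ((Finset.univ : Finset (Fin m)).card * (1 + 0 + 1 + 1) + 1)
          (∑ b : Fin m, y v a b * M v b) := by
        apply obt_sum
        intro b _
        exact obt_mul (hy v (by omega) a b) (obt_mem (hM v (by omega) b b.2))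
      have h2 := obt_mul (obt_mem (hM (v / 2) (by omega) a a.2)) h1
      refine h2.mono le_rfl ?_
      simp only [Finset.card_univ, Fintype.card_fin]
      omega
    have h3 := ih (F ∪ (fun a : Fin m => M (v / 2) (a : ℕ) * ∑ b : Fin m, y v a b * M v b) ''
        (Finset.univ : Finset (Fin m)))
      (Function.update M (v / 2) (fun a => M (v / 2) a * ∑ b : Fin m, y v a b * M v b)) ?_ ?_
    · have h4 := obt_batch (Finset.univ : Finset (Fin m))
        (fun a : Fin m => M (v / 2) (a : ℕ) * ∑ b : Fin m, y v a b * M v b) (3 * m + 2) _ hnew h3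
      refine h4.mono le_rfl ?_
      simp only [Finset.card_univ, Fintype.card_fin]
      obtain ⟨v', rfl⟩ : ∃ v', v = v' + 1 := ⟨v - 1, by omega⟩
      simp only [Nat.add_sub_cancel]
      rw [add_mul v' 1]
      omega
    · intro u hu b hb
      by_cases huv : u = v / 2
      · rw [huv, Function.update_self]
        right
        exact ⟨⟨b, hb⟩, by simp, rfl⟩
      · rw [Function.update_of_ne huv]
        exact Or.inl (hM u (by omega) b hb)
    · intro g hg a b
      exact (hy g (by omega) a b).mono Set.subset_union_left le_rfl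

end reach

end MonC

open MonC in
theorem exists_monotone_circuit (K : Type u) [NormedField K] (t h m : ℕ) :
    ∃ (Φ : Pool.Agent.H567.Nec.Circuit K (Var t h m)) (o : Fin Φ.N),
      Φ.value o = treePoly K t h m ∧ mass Φ o = (m : ℝ≥0) ^ (t * 2 ^ h) ∧
      Φ.N ≤ 8 * t * 2 ^ h * (m + 1) ^ 2 + 8 ∧
      (∀ i, ∀ c, Φ.node i = .const c → c = 0 ∨ c = 1) := by
  classical
  have h2 : 0 < 2 ^ h := by positivity
  let y : Fin t → ℕ → ℕ → ℕ → MvPolynomial (Var t h m) K × ℝ≥0 := fun j g a b =>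
    if hg : g < 2 ^ h then if ha : a < m then if hb : b < m then
      xx (j, ⟨g, hg⟩, ⟨a, ha⟩, ⟨b, hb⟩) else 0 else 0 else 0
  have hy : ∀ (F : Set (MvPolynomial (Var t h m) K × ℝ≥0)) j g a b, Obt F 1 (y j g a b) := by
    intro F j g a b
    simp only [y]
    split_ifs
    · exact obt_xx _
    · exact obt_zero
    · exact obt_zero
    · exact obt_zero
  have hT : ∀ j, Obt {1} ((2 ^ h - 1) * (m * (3 * m + 2)) + (m + 1))
      (TT (y j) m (2 ^ h) (fun _ _ => 1)) := by
    intro j
    exact obt_TT (y j) m (2 ^ h) h2 {1} (fun _ _ => 1) (fun _ _ _ _ => rfl)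
      (fun g _ a b => hy _ j g a b)
  have hP := obt_prod (F := {1}) (Finset.univ : Finset (Fin t))
    (fun j => TT (y j) m (2 ^ h) (fun _ _ => 1)) _ (fun j _ => hT j)
  have h1 : Rch 1 ({1} : Set (MvPolynomial (Var t h m) K × ℝ≥0)) := by
    have := (obt_one (F := (∅ : Set (MvPolynomial (Var t h m) K × ℝ≥0)))) 0 ∅ le_rfl rch_empty
    simpa using this
  obtain ⟨n, hn, f, hf, hF⟩ := hP 1 {1} le_rfl h1
  obtain ⟨i, hi, hfi⟩ := hF _ (Set.mem_insert _ _)
  obtain ⟨Φ, hN, hval, hconst⟩ := exists_circuit hf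
  have hfin : ∀ j, TT (y j) m (2 ^ h) (fun _ _ => 1) =
      (∑ ψ : Fin (2 ^ h) → Fin m, ∏ g ∈ G h, MvPolynomial.X (letter j ψ g),
        (m : ℝ≥0) ^ (2 ^ h)) := by
    intro j
    have e : ∀ ψ : Fin (2 ^ h) → Fin m, ((∏ g : Fin (2 ^ h), if _hg : g.1 = 0 then
        (1 : MvPolynomial (Var t h m) K × ℝ≥0) else
        y j g (ψ ⟨g.1 / 2, lt_of_le_of_lt (Nat.div_le_self _ _) g.2⟩) (ψ g)) *
        ∏ u : Fin (2 ^ h), (1 : MvPolynomial (Var t h m) K × ℝ≥0)) =
        (∏ g ∈ G h, MvPolynomial.X (letter j ψ g), 1) := by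
      intro ψ
      rw [Finset.prod_const_one, mul_one, G, Finset.prod_filter]
      refine Prod.ext ?_ ?_
      · rw [Prod.fst_prod]
        apply Finset.prod_congr rfl
        intro g _
        by_cases h0 : g.1 = 0
        · simp [h0]
        · rw [dif_neg h0, if_pos h0]
          simp [y, xx, letter, par]
      · rw [Prod.snd_prod]
        apply Finset.prod_eq_one
        intro g _
        by_cases h0 : g.1 = 0
        · simp [h0]
        · rw [dif_neg h0]
          simp [y, xx]
    unfold TT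
    rw [Finset.sum_congr rfl (fun ψ _ => e ψ)]
    refine Prod.ext ?_ ?_
    · rw [Prod.fst_sum]
    · rw [Prod.snd_sum]
      simp
  have hfo : f i = (treePoly K t h m, (m : ℝ≥0) ^ (t * 2 ^ h)) := by
    rw [hfi, Finset.prod_congr rfl (fun j _ => hfin j)]
    refine Prod.ext ?_ ?_
    · rw [Prod.fst_prod]
      rfl
    · rw [Prod.snd_prod]
      simp [← pow_mul, mul_comm]
  have hio : i < Φ.N := by omega
  have hv := hval ⟨i, hio⟩
  rw [hfo, Prod.mk.injEq] at hv
  refine ⟨Φ, ⟨i, hio⟩, hv.1, hv.2, ?_, hconst⟩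
  rw [hN]
  refine hn.trans ?_
  simp only [Finset.card_univ, Fintype.card_fin]
  obtain ⟨w, hw⟩ : ∃ w, 2 ^ h = w + 1 := ⟨2 ^ h - 1, by omega⟩
  rw [hw, Nat.add_sub_cancel]
  nlinarith [Nat.zero_le (t * w * m), Nat.zero_le (t * w * m ^ 2), Nat.zero_le (t * w),
    Nat.zero_le (t * m), Nat.zero_le (t * m ^ 2), Nat.zero_le t]

end Pool.Agent.H691R2.Skew
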