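import Mathlib
import Pool.Agent.H691R2.Skew.F
import Pool.Agent.H691R2.Skew.A
import Pool.Agent.H691R2.Skew.U
import Pool.Agent.H691R2.Skew.Norm

set_option autoImplicit false

/-! # The lower bound for weakly skew circuits with explicit parameters -/

namespace Pool.Agent.H691R2.Skew

open Finset
open scoped NNReal
open Pool.Agent.H567.Nec

universe u v

/-- number of copies -/
def tt (a c : ℕ) : ℕ := 2 ^ (6 * a * c)

/-- height of the tree -/
def th (c : ℕ) : ℕ := 6 * c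

/-- number of labels -/
def tm (a c : ℕ) : ℕ := 2 ^ (18 * a * c + 2)

theorem exists_automaton_dec {K : Type u} [NormedField K] {σ : Type v} [Fintype σ]
    (d : DecidableEq σ) (Φ : Circuit K σ) (hΦ : Φ.WeaklySkew) (o : Fin Φ.N) :
    ∃ (Q : Type) (_ : Fintype Q) (W : σ → Q → Q → ℝ≥0) (β : Q → ℝ≥0) (q₀ : Q),
      Fintype.card Q ≤ Φ.N + 1 ∧
      (∀ μ : Multiset σ, ‖(Φ.value o).coeff (Multiset.toFinsupp μ)‖₊ ≤
        sumW (Multiset.card μ) (fun w => if (w : Multiset σ) = μ then act W w β q₀ else 0)) ∧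
      ∀ n, sumW n (fun w => act W w β q₀) ≤ mass Φ o := by
  obtain rfl : d = (fun a b => Classical.propDecidable (a = b)) := Subsingleton.elim _ _
  exact exists_automaton Φ hΦ o

theorem skew_lower (a c : ℕ) (ha : 1 ≤ a) (hc : 1 ≤ c) {K : Type u} [NormedField K]
    (Φ : Circuit K (Var (tt a c) (th c) (tm a c))) (hΦ : Φ.WeaklySkew) (o : Fin Φ.N)
    (hco : ∀ φ : Fin (tt a c) → Fin (2 ^ (th c)) → Fin (tm a c),
      1 ≤ ‖(Φ.value o).coeff (Multiset.toFinsupp (mon φ))‖)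
    (hs : (Φ.N + 1) * 2 ^ ((42 * a + 28) * c + 12) ≤ 2 ^ (18 * a * c ^ 2)) :
    ((tm a c : ℕ) : ℝ≥0) ^ (tt a c * 2 ^ th c) * 2 ^ (tt a c / (6 * (a + 1) * c)) ≤
      6 * ((6 * (a + 1) * c : ℕ) : ℝ≥0) * mass Φ o := by
  obtain ⟨Q, hQ, W, β, q₀, hcard, hcoeff, hmass⟩ := exists_automaton_dec inferInstance Φ hΦ o
  have hac : 1 ≤ a * c := Nat.one_le_iff_ne_zero.mpr (by positivity)
  have hU : tt a c * 2 ^ th c = 2 ^ (6 * (a + 1) * c) := by
    rw [tt, th, ← pow_add]; congr 1; ring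
  have hm : 4 * tt a c ^ 2 * tt a c = tm a c := by
    rw [tt, tm, show (4 : ℕ) = 2 ^ 2 by norm_num, ← pow_mul, ← pow_add, ← pow_add]
    congr 1; ring
  refine core W β q₀ c (6 * (a + 1) * c) (Φ.N + 1) (tt a c) (mass Φ o) ?_ ?_ ?_ ?_ ?_ hcard ?_ ?_ ?_
    ?_ ?_ ?_
  · rw [th]; omega
  · rw [th]
  · rw [tt]; exact Nat.one_le_two_pow
  · rw [tt]
    calc 2 = 2 ^ 1 := (pow_one 2).symm
      _ ≤ 2 ^ (6 * a * c) := Nat.pow_le_pow_right (by norm_num) (by nlinarith)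
  · rw [hm]
  · rw [← hU]
    exact Nat.mul_le_mul_left _ (Nat.sub_le _ _)
  · rw [hU]; omega
  · rw [hU]
    calc 2 ^ 12 * tt a c ^ 2 * (Φ.N + 1) * (2 ^ (6 * (a + 1) * c)) ^ 5
        = ((Φ.N + 1) * 2 ^ ((42 * a + 28) * c + 12)) * 2 ^ (2 * c) := by
          unfold tt
          rw [← pow_mul, ← pow_mul]
          have h1 : 2 ^ 12 * 2 ^ (6 * a * c * 2) * (Φ.N + 1) * 2 ^ (6 * (a + 1) * c * 5) =
            (Φ.N + 1) * (2 ^ 12 * 2 ^ (6 * a * c * 2) * 2 ^ (6 * (a + 1) * c * 5)) := by ring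
          rw [h1, mul_assoc (Φ.N + 1), ← pow_add, ← pow_add, ← pow_add]
          congr 2; ring
      _ ≤ 2 ^ (18 * a * c ^ 2) * 2 ^ (2 * c) := Nat.mul_le_mul_right _ hs
      _ = tm a c ^ c := by
          rw [tm, ← pow_mul, ← pow_add]; congr 1; ring
  · rw [hU]
    calc 2 ^ 5 * (Φ.N + 1) * (2 ^ (6 * (a + 1) * c)) ^ 2
        = (Φ.N + 1) * 2 ^ (5 + 12 * (a + 1) * c) := by
          rw [← pow_mul]
          have h1 : 2 ^ 5 * (Φ.N + 1) * 2 ^ (6 * (a + 1) * c * 2) =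
            (Φ.N + 1) * (2 ^ 5 * 2 ^ (6 * (a + 1) * c * 2)) := by ring
          rw [h1, ← pow_add]
          congr 2; ring
      _ ≤ (Φ.N + 1) * 2 ^ ((42 * a + 28) * c + 12) := by
          apply Nat.mul_le_mul_left
          apply Nat.pow_le_pow_right (by norm_num)
          nlinarith
      _ ≤ 2 ^ (18 * a * c ^ 2) := hs
      _ ≤ tt a c ^ (6 * (a + 1) * c) := by
          rw [tt, ← pow_mul]
          apply Nat.pow_le_pow_right (by norm_num)
          nlinarith [Nat.zero_le (a * a * c * c), Nat.zero_le (a * c * c)]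
  · intro φ
    have h1 := hcoeff (mon φ)
    rw [card_mon] at h1
    have h2 := hco φ
    have h3 : (1 : ℝ≥0) ≤ ‖(Φ.value o).coeff (Multiset.toFinsupp (mon φ))‖₊ := by exact_mod_cast h2
    exact le_trans h3 h1
  · exact hmass _

end Pool.Agent.H691R2.Skew
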