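import Mathlib
import Pool.Agent.H691R2.Skew.Param

set_option autoImplicit false

/-! # Asymptotics -/

namespace Pool.Agent.H691R2.Skew

open Finset Filter
open scoped NNReal
open Pool.Agent.H567.Nec

universe u v

lemma asym (κ : ℝ) (a : ℕ) (hκ0 : 0 ≤ κ) (hκ : κ * (a + 1) < a) :
    ∃ c₀ : ℕ, 5 ≤ c₀ ∧ ∀ c ≥ c₀, ∀ x : ℝ, 0 ≤ x → x ≤ (2 : ℝ) ^ (κ * (6 * (a + 1) * (c + 1))) →
      (6 * ((6 * (a + 1) * c : ℕ) : ℝ)) * (2 : ℝ) ^ x < (2 : ℝ) ^ (tt a c / (6 * (a + 1) * c)) := by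
  set A : ℝ := 6 * (a + 1) * κ with hA
  set B : ℝ := 6 * a - A with hB
  have hB0 : 0 < B := by rw [hB, hA]; nlinarith
  set r : ℝ := (2 : ℝ) ^ B with hr
  have hr1 : 1 < r := Real.one_lt_rpow (by norm_num) hB0
  set Kc : ℝ := 6 * (a + 1) * ((2 : ℝ) ^ A + 36 * (a + 1) + 1) with hKc
  have hKc0 : 0 < Kc := by positivity
  have h1 := tendsto_pow_const_div_const_pow_of_one_lt 2 hr1
  have h2 : ∀ᶠ c : ℕ in atTop, ((c : ℝ) ^ 2 / r ^ c) < 1 / Kc :=
    h1.eventually_lt_const (by positivity)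
  obtain ⟨c₁, hc₁⟩ := eventually_atTop.mp h2
  refine ⟨max 5 c₁, le_max_left _ _, ?_⟩
  intro c hc x hx0 hx
  have hc5 : 5 ≤ c := le_trans (le_max_left _ _) hc
  have h3 := hc₁ c (le_trans (le_max_right _ _) hc)
  have hrc : 0 < r ^ c := by positivity
  have h4 : (c : ℝ) ^ 2 * Kc < r ^ c := by
    rw [div_lt_div_iff₀ hrc hKc0, one_mul] at h3
    exact h3
  set D : ℝ := ((6 * (a + 1) * c : ℕ) : ℝ) with hD
  have hD' : D = 6 * (a + 1) * c := by rw [hD]; push_cast; ring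
  have hc1 : (1 : ℝ) ≤ c := by
    have : (5 : ℝ) ≤ c := by exact_mod_cast hc5
    linarith
  have hD0 : 0 < D := by rw [hD']; positivity
  have hAc : (1 : ℝ) ≤ (2 : ℝ) ^ (A * c) := by
    apply Real.one_le_rpow (by norm_num)
    rw [hA]; positivity
  have hx' : x ≤ (2 : ℝ) ^ (A * c) * (2 : ℝ) ^ A := by
    refine le_trans hx (le_of_eq ?_)
    rw [← Real.rpow_add (by norm_num)]
    congr 1
    rw [hA]; ring
  have h5 : D * (x + 6 * D + 1) < (tt a c : ℝ) := by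
    have h6 : D * ((2 : ℝ) ^ A + 6 * D + 1) ≤ (c : ℝ) ^ 2 * Kc := by
      rw [hD', hKc]
      have h7 : (0 : ℝ) < (2 : ℝ) ^ A := by positivity
      have h8 : (2 : ℝ) ^ A + 6 * (6 * (a + 1) * c) + 1 ≤
          c * ((2 : ℝ) ^ A + 36 * (a + 1) + 1) := by
        nlinarith
      calc 6 * (a + 1) * c * ((2 : ℝ) ^ A + 6 * (6 * (a + 1) * c) + 1)
          ≤ 6 * (a + 1) * c * (c * ((2 : ℝ) ^ A + 36 * (a + 1) + 1)) :=
            mul_le_mul_of_nonneg_left h8 (by positivity)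
        _ = _ := by ring
    have h9 : x + 6 * D + 1 ≤ (2 : ℝ) ^ (A * c) * ((2 : ℝ) ^ A + 6 * D + 1) := by
      nlinarith
    have h10 : (tt a c : ℝ) = (2 : ℝ) ^ (A * c) * r ^ c := by
      rw [tt, hr, ← Real.rpow_natCast ((2 : ℝ) ^ B) c, ← Real.rpow_mul (by norm_num),
        ← Real.rpow_add (by norm_num)]
      push_cast
      rw [← Real.rpow_natCast 2 (6 * a * c)]
      congr 1
      rw [hB]; push_cast; ring
    calc D * (x + 6 * D + 1) ≤ D * ((2 : ℝ) ^ (A * c) * ((2 : ℝ) ^ A + 6 * D + 1)) :=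
          mul_le_mul_of_nonneg_left h9 hD0.le
      _ = (2 : ℝ) ^ (A * c) * (D * ((2 : ℝ) ^ A + 6 * D + 1)) := by ring
      _ ≤ (2 : ℝ) ^ (A * c) * ((c : ℝ) ^ 2 * Kc) :=
          mul_le_mul_of_nonneg_left h6 (by positivity)
      _ < (2 : ℝ) ^ (A * c) * r ^ c := mul_lt_mul_of_pos_left h4 (by positivity)
      _ = _ := h10.symm
  have h11 : x + 6 * D < ((tt a c / (6 * (a + 1) * c) : ℕ) : ℝ) := by
    have h12 : (tt a c : ℝ) < D * (((tt a c / (6 * (a + 1) * c) : ℕ) : ℝ) + 1) := by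
      have hpos : 0 < 6 * (a + 1) * c := by positivity
      have h13 := Nat.lt_mul_div_succ (tt a c) hpos
      rw [hD]
      exact_mod_cast h13
    have h14 := lt_trans h5 h12
    have h15 := lt_of_mul_lt_mul_left h14 hD0.le
    linarith
  have h16 : 6 * D < (2 : ℝ) ^ (6 * D) := by
    have h17 : (6 * (6 * (a + 1) * c)) < 2 ^ (6 * (6 * (a + 1) * c)) := Nat.lt_two_pow_self
    have h18 : ((6 * (6 * (a + 1) * c) : ℕ) : ℝ) < (2 : ℝ) ^ (6 * (6 * (a + 1) * c)) := by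
      exact_mod_cast h17
    rw [← Real.rpow_natCast] at h18
    have h19 : ((6 * (6 * (a + 1) * c) : ℕ) : ℝ) = 6 * D := by rw [hD]; push_cast; ring
    rwa [h19] at h18
  calc 6 * D * (2 : ℝ) ^ x < (2 : ℝ) ^ (6 * D) * (2 : ℝ) ^ x :=
        mul_lt_mul_of_pos_right h16 (by positivity)
    _ = (2 : ℝ) ^ (x + 6 * D) := by rw [← Real.rpow_add (by norm_num)]; congr 1; ring
    _ ≤ (2 : ℝ) ^ ((tt a c / (6 * (a + 1) * c) : ℕ) : ℝ) :=
        Real.rpow_le_rpow_of_exponent_le (by norm_num) h11.le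
    _ = _ := Real.rpow_natCast _ _

/-- The parameter belonging to `n`. -/
def cc (a n : ℕ) : ℕ := Nat.log 2 n / (6 * (a + 1))

lemma cc_le (a n : ℕ) (hn : n ≠ 0) : 2 ^ (6 * (a + 1) * cc a n) ≤ n := by
  refine le_trans (Nat.pow_le_pow_right (by norm_num) ?_) (Nat.pow_log_le_self 2 hn)
  exact Nat.mul_div_le _ _

lemma lt_cc (a n : ℕ) : n < 2 ^ (6 * (a + 1) * (cc a n + 1)) := by
  refine lt_of_lt_of_le (Nat.lt_pow_succ_log_self (by norm_num) n)
    (Nat.pow_le_pow_right (by norm_num) ?_)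
  exact Nat.lt_mul_div_succ _ (by positivity)

lemma le_cc (a n c₀ : ℕ) (hn : 2 ^ (6 * (a + 1) * c₀) ≤ n) : c₀ ≤ cc a n := by
  unfold cc
  rw [Nat.le_div_iff_mul_le (by positivity), mul_comm]
  exact Nat.le_log_of_pow_le (by norm_num) hn

/-- The size condition. -/
lemma size_cond (a c n N : ℕ) (ha : 1 ≤ a) (hc : 5 ≤ c) (hn1 : 1 ≤ n)
    (hn : n < 2 ^ (6 * (a + 1) * (c + 1)))
    (hN : (N : ℝ) ≤ (n : ℝ) ^ ((1 / (36 * ((a : ℝ) + 1) ^ 2)) * Real.log n)) :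
    (N + 1) * 2 ^ ((42 * a + 28) * c + 12) ≤ 2 ^ (18 * a * c ^ 2) := by
  have hn0 : (0 : ℝ) < n := by exact_mod_cast hn1
  have hlog : Real.log n ≤ (6 * (a + 1) * (c + 1)) * Real.log 2 := by
    have h1 : (n : ℝ) ≤ (2 : ℝ) ^ (6 * (a + 1) * (c + 1)) := by exact_mod_cast hn.le
    have h2 := Real.log_le_log hn0 h1
    rw [Real.log_pow] at h2
    refine le_trans h2 (le_of_eq ?_)
    push_cast; ring
  have hlog0 : 0 ≤ Real.log n := Real.log_nonneg (by exact_mod_cast hn1)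
  have hl2 : Real.log 2 ≤ 1 := by
    have := Real.log_two_lt_d9; linarith
  have hl20 : 0 < Real.log 2 := Real.log_pos (by norm_num)
  have h3 : (N : ℝ) ≤ (2 : ℝ) ^ ((c + 1) ^ 2) := by
    refine le_trans hN ?_
    rw [Real.rpow_def_of_pos hn0]
    have h4 : ((2 : ℝ) ^ ((c + 1) ^ 2)) = Real.exp (((c : ℝ) + 1) ^ 2 * Real.log 2) := by
      rw [mul_comm, ← Real.rpow_def_of_pos (by norm_num), ← Real.rpow_natCast]
      congr 1
      push_cast; ring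
    rw [h4]
    apply Real.exp_le_exp.mpr
    have h5 : Real.log n * Real.log n ≤ ((6 * ((a : ℝ) + 1) * (c + 1)) * Real.log 2) *
        ((6 * (a + 1) * (c + 1)) * Real.log 2) :=
      mul_le_mul hlog hlog hlog0 (by positivity)
    calc Real.log n * (1 / (36 * ((a : ℝ) + 1) ^ 2) * Real.log n)
        = (1 / (36 * ((a : ℝ) + 1) ^ 2)) * (Real.log n * Real.log n) := by ring
      _ ≤ (1 / (36 * ((a : ℝ) + 1) ^ 2)) * (((6 * ((a : ℝ) + 1) * (c + 1)) * Real.log 2) *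
        ((6 * (a + 1) * (c + 1)) * Real.log 2)) := mul_le_mul_of_nonneg_left h5 (by positivity)
      _ = ((c : ℝ) + 1) ^ 2 * Real.log 2 * Real.log 2 := by
        have : (a : ℝ) + 1 ≠ 0 := by positivity
        field_simp
        ring
      _ ≤ ((c : ℝ) + 1) ^ 2 * Real.log 2 * 1 := mul_le_mul_of_nonneg_left hl2 (by positivity)
      _ = _ := mul_one _
  have h6 : N ≤ 2 ^ ((c + 1) ^ 2) := by exact_mod_cast h3
  have h7 : N + 1 ≤ 2 ^ ((c + 1) ^ 2 + 1) := by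
    rw [pow_succ]
    have := Nat.one_le_two_pow (n := (c + 1) ^ 2)
    omega
  calc (N + 1) * 2 ^ ((42 * a + 28) * c + 12)
      ≤ 2 ^ ((c + 1) ^ 2 + 1) * 2 ^ ((42 * a + 28) * c + 12) := Nat.mul_le_mul_right _ h7
    _ = 2 ^ ((c + 1) ^ 2 + 1 + ((42 * a + 28) * c + 12)) := (pow_add _ _ _).symm
    _ ≤ 2 ^ (18 * a * c ^ 2) := by
        apply Nat.pow_le_pow_right (by norm_num)
        obtain ⟨a', rfl⟩ := Nat.exists_eq_add_of_le ha
        obtain ⟨c', rfl⟩ := Nat.exists_eq_add_of_le hc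
        ring_nf
        nlinarith [Nat.zero_le (a' * c'), Nat.zero_le (a' * c' ^ 2), Nat.zero_le (c' ^ 2)]

end Pool.Agent.H691R2.Skew
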